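import Mathlib

/-!
Weighted filtrations of the group algebra over the field with three elements.
-/

namespace Pool.Agent.Lib.MP_6cc228_al

open Finset

abbrev kk := ZMod 3

abbrev Alg (G : Type) := MonoidAlgebra kk G

variable {G : Type} [Group G]

noncomputable def o (g : G) : Alg G := MonoidAlgebra.of kk G g

theorem o_mul (g h : G) : o (g * h) = o g * o h := map_mul _ _ _
theorem o_one : o (1 : G) = 1 := map_one _
theorem o_pow (g : G) (n : ℕ) : o (g ^ n) = o g ^ n := map_pow _ _ _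
theorem o_mul_inv (g : G) : o g * o g⁻¹ = 1 := by rw [← o_mul, mul_inv_cancel, o_one]
theorem o_inv_mul (g : G) : o g⁻¹ * o g = 1 := by rw [← o_mul, inv_mul_cancel, o_one]

theorem three_eq_zero : (3 : Alg G) = 0 := by
  have h : ((3 : ℕ) : Alg G) = algebraMap kk (Alg G) ((3 : ℕ) : kk) := (map_natCast _ _).symm
  have h2 : ((3 : ℕ) : kk) = 0 := by decide
  rw [h2, map_zero] at h
  exact_mod_cast h

theorem sub_one_cube (a : Alg G) : a ^ 3 - 1 = (a - 1) * (a - 1) * (a - 1) := by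
  have h : (a - 1) * (a - 1) * (a - 1) = a ^ 3 - 1 - 3 * (a * a - a) := by noncomm_ring
  rw [h, three_eq_zero, zero_mul, sub_zero]

/-- linear extension of a function on the group -/
noncomputable def lin {V : Type} [AddCommGroup V] [Module kk V] (f : G → V) : Alg G →ₗ[kk] V :=
  (MonoidAlgebra.basis G kk).constr kk f

theorem lin_o {V : Type} [AddCommGroup V] [Module kk V] (f : G → V) (g : G) :
    lin f (o g) = f g := by
  have : o g = MonoidAlgebra.basis G kk g := by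
    rw [MonoidAlgebra.basis_apply]; rfl
  rw [this, lin, Module.Basis.constr_basis]

/-- the group algebra of a subgroup -/
noncomputable def kS (M : Subgroup G) : Submodule kk (Alg G) := Submodule.span kk (o '' (M : Set G))

theorem o_mem_kS {M : Subgroup G} {g : G} (hg : g ∈ M) : o g ∈ kS M :=
  Submodule.subset_span ⟨g, hg, rfl⟩

theorem one_mem_kS (M : Subgroup G) : (1 : Alg G) ∈ kS M := o_one (G := G) ▸ o_mem_kS M.one_mem

theorem kS_induction {M : Subgroup G} {P : Alg G → Prop} {a : Alg G} (ha : a ∈ kS M)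
    (h1 : ∀ g ∈ M, P (o g)) (h0 : P 0) (hadd : ∀ a b, a ∈ kS M → b ∈ kS M → P a → P b → P (a + b))
    (hsmul : ∀ (c : kk) a, a ∈ kS M → P a → P (c • a)) : P a := by
  induction ha using Submodule.span_induction with
  | mem x hx => obtain ⟨g, hg, rfl⟩ := hx; exact h1 g hg
  | zero => exact h0
  | add x y hx hy ihx ihy => exact hadd x y hx hy ihx ihy
  | smul c x hx ih => exact hsmul c x hx ih

/-- to prove that left multiplication by the algebra of `M` maps `b` into `W` -/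
theorem kS_mul_mem {M : Subgroup G} {W : Submodule kk (Alg G)} {b : Alg G}
    (h : ∀ g ∈ M, o g * b ∈ W) {a : Alg G} (ha : a ∈ kS M) : a * b ∈ W := by
  refine kS_induction (P := fun a => a * b ∈ W) ha h (by simp) ?_ ?_
  · intro a a' _ _ h1 h2; rw [add_mul]; exact W.add_mem h1 h2
  · intro c a _ h1; rw [smul_mul_assoc]; exact W.smul_mem c h1

theorem mul_kS_mem {M : Subgroup G} {W : Submodule kk (Alg G)} {b : Alg G}
    (h : ∀ g ∈ M, b * o g ∈ W) {a : Alg G} (ha : a ∈ kS M) : b * a ∈ W := by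
  refine kS_induction (P := fun a => b * a ∈ W) ha h (by simp) ?_ ?_
  · intro a a' _ _ h1 h2; rw [mul_add]; exact W.add_mem h1 h2
  · intro c a _ h1; rw [mul_smul_comm]; exact W.smul_mem c h1

theorem kS_mul {M : Subgroup G} {a b : Alg G} (ha : a ∈ kS M) (hb : b ∈ kS M) : a * b ∈ kS M :=
  kS_mul_mem (fun _ hg => mul_kS_mem (fun _ hh => by
    rw [← o_mul]; exact o_mem_kS (M.mul_mem hg hh)) hb) ha

theorem kS_mono {M M' : Subgroup G} (h : M ≤ M') : kS M ≤ kS M' :=
  Submodule.span_mono (Set.image_mono h)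

theorem sub_one_mem_kS {M : Subgroup G} {g : G} (hg : g ∈ M) : o g - 1 ∈ kS M :=
  (kS M).sub_mem (o_mem_kS hg) (one_mem_kS M)

theorem kS_conj {M : Subgroup G} {h : G} (hM : ∀ g ∈ M, h * g * h⁻¹ ∈ M) {a : Alg G}
    (ha : a ∈ kS M) : o h * a * o h⁻¹ ∈ kS M := by
  refine kS_induction (P := fun a => o h * a * o h⁻¹ ∈ kS M) ha ?_ (by simp) ?_ ?_
  · intro g hg; rw [← o_mul, ← o_mul]; exact o_mem_kS (hM g hg)
  · intro a b _ _ h1 h2; rw [mul_add, add_mul]; exact (kS M).add_mem h1 h2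
  · intro c a _ h1; rw [mul_smul_comm, smul_mul_assoc]; exact (kS M).smul_mem c h1

/-- the augmentation -/
noncomputable def aug : Alg G →ₐ[kk] kk := MonoidAlgebra.lift kk kk G 1

theorem aug_o (g : G) : aug (o g) = 1 := by simp [aug, o]

theorem cocycle (g h : G) : o (g * h) - 1 = (o g - 1) + o g * (o h - 1) := by
  rw [o_mul]; noncomm_ring

theorem cocycle_inv (g : G) : o g⁻¹ - 1 = -(o g⁻¹ * (o g - 1)) := by
  rw [mul_sub, o_inv_mul]; noncomm_ring

/-- A finite family of group elements with positive degrees. -/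
structure Fam (G : Type) where
  ι : Type
  [fin : Fintype ι]
  el : ι → G
  deg : ι → ℕ
  pos : ∀ i, 1 ≤ deg i

attribute [instance] Fam.fin

namespace Fam

noncomputable def wt (X : Fam G) : ℝ := ∑ i, (1 / 2 : ℝ) ^ X.deg i

omit [Group G] in
theorem wt_nonneg (X : Fam G) : 0 ≤ X.wt := sum_nonneg fun _ _ => by positivity

def grp (X : Fam G) : Subgroup G := Subgroup.closure (Set.range X.el)

theorem el_mem (X : Fam G) (i : X.ι) : X.el i ∈ X.grp := Subgroup.subset_closure ⟨i, rfl⟩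

theorem grp_le {X : Fam G} {M : Subgroup G} (h : ∀ i, X.el i ∈ M) : X.grp ≤ M :=
  (Subgroup.closure_le M).2 (by rintro _ ⟨i, rfl⟩; exact h i)

theorem grp_induction {X : Fam G} {P : G → Prop} {g : G} (hg : g ∈ X.grp)
    (h0 : ∀ i, P (X.el i)) (h1 : P 1)
    (hmul : ∀ a b, a ∈ X.grp → b ∈ X.grp → P a → P b → P (a * b))
    (hinv : ∀ a, a ∈ X.grp → P a → P a⁻¹) : P g := by
  induction hg using Subgroup.closure_induction with
  | mem x hx => obtain ⟨i, rfl⟩ := hx; exact h0 i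
  | one => exact h1
  | mul a b ha hb iha ihb => exact hmul a b ha hb iha ihb
  | inv a ha ih => exact hinv a ha ih

inductive InF (X : Fam G) : ℕ → Alg G → Prop
  | base (a : Alg G) (ha : a ∈ kS X.grp) : InF X 0 a
  | gen (n : ℕ) (i : X.ι) (a : Alg G) (ha : InF X (n - X.deg i) a) : InF X n (a * (o (X.el i) - 1))
  | zero (n : ℕ) : InF X n 0
  | add (n : ℕ) (a b : Alg G) (ha : InF X n a) (hb : InF X n b) : InF X n (a + b)

variable {X : Fam G}

theorem InF.mul_left {n : ℕ} {a : Alg G} (ha : InF X n a) {b : Alg G} (hb : b ∈ kS X.grp) :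
    InF X n (b * a) := by
  induction ha with
  | base a ha => exact .base _ (kS_mul hb ha)
  | gen n i a _ ih => rw [← mul_assoc]; exact .gen _ _ _ ih
  | zero n => rw [mul_zero]; exact .zero n
  | add n a a' _ _ ih ih' => rw [mul_add]; exact .add _ _ _ ih ih'

/-- the filtration defined by the family -/
noncomputable def Fil (X : Fam G) (n : ℕ) : Submodule kk (Alg G) where
  carrier := {a | InF X n a}
  zero_mem' := .zero n
  add_mem' ha hb := .add _ _ _ ha hb
  smul_mem' c a ha := by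
    have := InF.mul_left ha ((kS X.grp).smul_mem c (one_mem_kS _))
    rwa [smul_mul_assoc, one_mul] at this

theorem Fil_induction {C : ℕ → Submodule kk (Alg G)} (h0 : kS X.grp ≤ C 0)
    (hgen : ∀ n i a, a ∈ X.Fil (n - X.deg i) → a ∈ C (n - X.deg i) → a * (o (X.el i) - 1) ∈ C n)
    (n : ℕ) : X.Fil n ≤ C n := by
  intro a ha
  change InF X n a at ha
  induction ha with
  | base a ha => exact h0 ha
  | gen n i a ha ih => exact hgen n i a ha ih
  | zero n => exact (C n).zero_mem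
  | add n a b _ _ ih ih' => exact (C n).add_mem ih ih'

theorem gen_mem {n : ℕ} (i : X.ι) {a : Alg G} (ha : a ∈ X.Fil (n - X.deg i)) :
    a * (o (X.el i) - 1) ∈ X.Fil n := InF.gen n i a ha

theorem kS_le_Fil_zero : kS X.grp ≤ X.Fil 0 := fun a ha => InF.base a ha

theorem mul_left_mem {n : ℕ} {a b : Alg G} (hb : b ∈ kS X.grp) (ha : a ∈ X.Fil n) :
    b * a ∈ X.Fil n := InF.mul_left ha hb

theorem Fil_le_kS (n : ℕ) : X.Fil n ≤ kS X.grp :=
  Fil_induction (C := fun _ => kS X.grp) le_rfl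
    (fun _ i _ _ ha => kS_mul ha (sub_one_mem_kS (X.el_mem i))) n

theorem Fil_anti {m n : ℕ} (h : n ≤ m) : X.Fil m ≤ X.Fil n := by
  have : X.Fil m ≤ ⨅ n ∈ Set.Iic m, X.Fil n := by
    refine Fil_induction (C := fun m => ⨅ n ∈ Set.Iic m, X.Fil n) ?_ ?_ m
    · refine le_iInf₂ fun n hn => ?_
      obtain rfl : n = 0 := by simpa using hn
      exact kS_le_Fil_zero
    · intro m i a _ ha
      simp only [Submodule.mem_iInf, Set.mem_Iic] at ha ⊢
      exact fun n hn => gen_mem i (ha _ (by omega))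
  exact this.trans (iInf₂_le n h)

theorem u_mem (i : X.ι) : o (X.el i) - 1 ∈ X.Fil (X.deg i) := by
  have := gen_mem (n := X.deg i) i (a := 1) (by
    rw [Nat.sub_self]; exact kS_le_Fil_zero (one_mem_kS _))
  rwa [one_mul] at this

theorem sub_one_mem_Fil_one {g : G} (hg : g ∈ X.grp) : o g - 1 ∈ X.Fil 1 := by
  refine grp_induction (P := fun g => o g - 1 ∈ X.Fil 1) hg
    (fun i => Fil_anti (X.pos i) (u_mem i)) (by simp [o_one]) ?_ ?_
  · intro a b ha _ h1 h2
    rw [cocycle]; exact (X.Fil 1).add_mem h1 (mul_left_mem (o_mem_kS ha) h2)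
  · intro a ha h1
    rw [cocycle_inv]; exact (X.Fil 1).neg_mem (mul_left_mem (o_mem_kS (X.grp.inv_mem ha)) h1)

theorem aug_eq_zero {n : ℕ} (hn : 1 ≤ n) {a : Alg G} (ha : a ∈ X.Fil n) : aug a = 0 := by
  have : X.Fil n ≤ if n = 0 then ⊤ else LinearMap.ker aug.toLinearMap := by
    refine Fil_induction (C := fun n => if n = 0 then ⊤ else LinearMap.ker aug.toLinearMap)
      (by simp) ?_ n
    intro n i a _ _
    split_ifs
    · trivial
    · simp [aug_o]
  have h := this ha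
  rw [if_neg (by omega)] at h
  exact h

theorem strict {n : ℕ} (hn : 1 ≤ n) {a : Alg G} (ha : a ∈ X.Fil n) :
    ∃ c : X.ι → Alg G, (∀ i, c i ∈ X.Fil (n - X.deg i)) ∧ a = ∑ i, c i * (o (X.el i) - 1) := by
  classical
  change InF X n a at ha
  induction ha with
  | base a ha => omega
  | gen n i a ha _ =>
    refine ⟨Pi.single i a, fun j => ?_, ?_⟩
    · rcases eq_or_ne j i with rfl | h
      · rw [Pi.single_eq_same]; exact ha
      · simp [Pi.single_eq_of_ne h]
    · rw [Finset.sum_eq_single i (fun j _ h => by simp [Pi.single_eq_of_ne h]) (by simp)]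
      simp
  | zero n => exact ⟨0, fun _ => by simp, by simp⟩
  | add n a b _ _ ih ih' =>
    obtain ⟨c, hc, rfl⟩ := ih hn
    obtain ⟨c', hc', rfl⟩ := ih' hn
    exact ⟨c + c', fun i => (X.Fil _).add_mem (hc i) (hc' i), by simp [add_mul, sum_add_distrib]⟩

theorem mul_right_mem {n : ℕ} {a b : Alg G} (ha : a ∈ X.Fil n) (hb : b ∈ kS X.grp) :
    a * b ∈ X.Fil n := by
  induction n generalizing a b with
  | zero => exact kS_le_Fil_zero (kS_mul (Fil_le_kS _ ha) hb)
  | succ n ih =>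
    refine mul_kS_mem (fun g hg => ?_) hb
    obtain ⟨c, hc, hg'⟩ := strict le_rfl (sub_one_mem_Fil_one hg)
    have : a * o g = a + ∑ i, (a * c i) * (o (X.el i) - 1) := by
      simp only [mul_assoc, ← mul_sum, ← hg']; noncomm_ring
    rw [this]
    refine (X.Fil _).add_mem ha (Submodule.sum_mem _ fun i _ => gen_mem i ?_)
    have := X.pos i
    exact Fil_anti (by omega) (ih (Fil_anti (Nat.le_succ n) ha) (Fil_le_kS _ (hc i)))

theorem mul_mem {m n : ℕ} {a b : Alg G} (ha : a ∈ X.Fil m) (hb : b ∈ X.Fil n) :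
    a * b ∈ X.Fil (m + n) := by
  have : X.Fil n ≤ (X.Fil (m + n)).comap (LinearMap.mulLeft kk a) := by
    refine Fil_induction (C := fun n => (X.Fil (m + n)).comap (LinearMap.mulLeft kk a)) ?_ ?_ n
    · intro b hb; exact mul_right_mem ha hb
    · intro n i b _ hb
      simp only [Submodule.mem_comap, LinearMap.mulLeft_apply] at hb ⊢
      rw [← mul_assoc]
      exact gen_mem i (Fil_anti (by omega) hb)
  exact this hb

theorem mul_mem' {m n l : ℕ} {a b : Alg G} (ha : a ∈ X.Fil m) (hb : b ∈ X.Fil n)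
    (h : l ≤ m + n) : a * b ∈ X.Fil l := Fil_anti h (mul_mem ha hb)

/-- comparison of two filtrations -/
theorem Fil_le_of {Y : Fam G} (hle : Y.grp ≤ X.grp)
    (h : ∀ i, o (Y.el i) - 1 ∈ X.Fil (Y.deg i)) (n : ℕ) : Y.Fil n ≤ X.Fil n :=
  Fil_induction ((kS_mono hle).trans kS_le_Fil_zero)
    (fun _ i _ _ ha => mul_mem' ha (h i) (by omega)) n

/-- the group filtration -/
noncomputable def FG (X : Fam G) (n : ℕ) : Subgroup G where
  carrier := {g | g ∈ X.grp ∧ o g - 1 ∈ X.Fil n}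
  one_mem' := ⟨X.grp.one_mem, by simp [o_one]⟩
  mul_mem' {a b} ha hb := ⟨X.grp.mul_mem ha.1 hb.1, by
    rw [cocycle]; exact (X.Fil n).add_mem ha.2 (mul_left_mem (o_mem_kS ha.1) hb.2)⟩
  inv_mem' {a} ha := ⟨X.grp.inv_mem ha.1, by
    rw [cocycle_inv]
    exact (X.Fil n).neg_mem (mul_left_mem (o_mem_kS (X.grp.inv_mem ha.1)) ha.2)⟩

theorem mem_FG {n : ℕ} {g : G} : g ∈ X.FG n ↔ g ∈ X.grp ∧ o g - 1 ∈ X.Fil n := Iff.rfl

theorem FG_le_grp (n : ℕ) : X.FG n ≤ X.grp := fun _ hg => hg.1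

theorem FG_anti {m n : ℕ} (h : n ≤ m) : X.FG m ≤ X.FG n := fun _ hg => ⟨hg.1, Fil_anti h hg.2⟩

theorem grp_le_FG_one : X.grp ≤ X.FG 1 := fun _ hg => ⟨hg, sub_one_mem_Fil_one hg⟩

theorem el_mem_FG (i : X.ι) : X.el i ∈ X.FG (X.deg i) := ⟨X.el_mem i, u_mem i⟩

theorem conj_mem_FG {n : ℕ} {g h : G} (hg : g ∈ X.FG n) (hh : h ∈ X.grp) :
    h * g * h⁻¹ ∈ X.FG n := by
  refine ⟨X.grp.mul_mem (X.grp.mul_mem hh hg.1) (X.grp.inv_mem hh), ?_⟩
  have : o (h * g * h⁻¹) - 1 = o h * (o g - 1) * o h⁻¹ := by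
    rw [o_mul, o_mul, mul_sub, sub_mul, mul_one, o_mul_inv]
  rw [this]
  exact mul_right_mem (mul_left_mem (o_mem_kS hh) hg.2) (o_mem_kS (X.grp.inv_mem hh))

theorem comm_mem_FG {m n : ℕ} {g h : G} (hg : g ∈ X.FG m) (hh : h ∈ X.FG n) :
    g * h * g⁻¹ * h⁻¹ ∈ X.FG (m + n) := by
  refine ⟨X.grp.mul_mem (X.grp.mul_mem (X.grp.mul_mem hg.1 hh.1) (X.grp.inv_mem hg.1))
    (X.grp.inv_mem hh.1), ?_⟩
  have : o (g * h * g⁻¹ * h⁻¹) - 1 =
      ((o g - 1) * (o h - 1) - (o h - 1) * (o g - 1)) * o (g⁻¹ * h⁻¹) := by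
    have e1 : o h * o g * o (g⁻¹ * h⁻¹) = 1 := by
      rw [← o_mul, ← o_mul, ← o_one]; congr 1; group
    have e2 : o (g * h * g⁻¹ * h⁻¹) = o g * o h * o (g⁻¹ * h⁻¹) := by
      rw [← o_mul, ← o_mul]; congr 1; group
    rw [e2]
    calc o g * o h * o (g⁻¹ * h⁻¹) - 1
        = o g * o h * o (g⁻¹ * h⁻¹) - o h * o g * o (g⁻¹ * h⁻¹) := by rw [e1]
      _ = _ := by noncomm_ring
  rw [this]
  refine mul_right_mem ((X.Fil _).sub_mem (mul_mem hg.2 hh.2) (mul_mem' hh.2 hg.2 (by omega)))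
    (o_mem_kS (X.grp.mul_mem (X.grp.inv_mem hg.1) (X.grp.inv_mem hh.1)))

theorem cube_mem_FG {n : ℕ} {g : G} (hg : g ∈ X.FG n) : g ^ 3 ∈ X.FG (3 * n) := by
  refine ⟨X.grp.pow_mem hg.1 3, ?_⟩
  rw [o_pow, sub_one_cube]
  exact mul_mem' (mul_mem hg.2 hg.2) hg.2 (by omega)

theorem pow_mem_FG {n : ℕ} {g : G} (hg : g ∈ X.FG n) (a : ℕ) :
    g ^ (3 ^ a) ∈ X.FG (3 ^ a * n) := by
  induction a with
  | zero => simpa using hg
  | succ a ih =>
    rw [pow_succ, pow_mul]
    exact FG_anti (le_of_eq (by ring)) (cube_mem_FG ih)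

theorem FG_le_of {Y : Fam G} (h : ∀ i, Y.el i ∈ X.FG (Y.deg i)) (n : ℕ) : Y.FG n ≤ X.FG n := by
  have hle : Y.grp ≤ X.grp := grp_le fun i => (h i).1
  exact fun g hg => ⟨hle hg.1, Fil_le_of hle (fun i => (h i).2) n hg.2⟩

/-- raising all degrees by `m` -/
def shift (X : Fam G) (m : ℕ) : Fam G where
  ι := X.ι
  el := X.el
  deg i := X.deg i + m
  pos i := le_add_right (X.pos i)

theorem shift_grp (m : ℕ) : (X.shift m).grp = X.grp := rfl

omit [Group G] in
theorem wt_shift (X : Fam G) (m : ℕ) : (X.shift m).wt = (1 / 2 : ℝ) ^ m * X.wt := by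
  simp only [wt, shift, pow_add, mul_sum]
  exact sum_congr rfl fun i _ => mul_comm _ _

theorem Fil_le_shift (m : ℕ) {n : ℕ} (hn : 1 ≤ n) : X.Fil n ≤ (X.shift m).Fil (n + m) := by
  have h1 : ∀ n, X.Fil n ≤ (X.shift m).Fil n :=
    Fil_le_of (X := X.shift m) (Y := X) le_rfl fun i =>
      Fil_anti (Nat.le_add_right _ m) (u_mem (X := X.shift m) i)
  intro a ha
  obtain ⟨c, hc, rfl⟩ := strict hn ha
  refine Submodule.sum_mem _ fun i _ => gen_mem (X := X.shift m) i ?_
  exact Fil_anti (by simp only [shift]; omega) (h1 _ (hc i))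

theorem FG_le_shift (m : ℕ) {n : ℕ} (hn : 1 ≤ n) : X.FG n ≤ (X.shift m).FG (n + m) :=
  fun _ hg => ⟨hg.1, Fil_le_shift m hn hg.2⟩

/-- invariance under conjugation passes from the generators to the filtration -/
theorem conj_mem_Fil {g : G} (h : ∀ i, g * X.el i * g⁻¹ ∈ X.FG (X.deg i)) (n : ℕ) {a : Alg G}
    (ha : a ∈ X.Fil n) : o g * a * o g⁻¹ ∈ X.Fil n := by
  have hM : ∀ x ∈ X.grp, g * x * g⁻¹ ∈ X.grp := by
    intro x hx
    refine grp_induction (P := fun x => g * x * g⁻¹ ∈ X.grp) hx (fun i => (h i).1)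
      (by simp) ?_ ?_
    · intro a b _ _ h1 h2
      have := X.grp.mul_mem h1 h2
      rwa [show g * a * g⁻¹ * (g * b * g⁻¹) = g * (a * b) * g⁻¹ by group] at this
    · intro a _ h1
      have := X.grp.inv_mem h1
      rwa [show (g * a * g⁻¹)⁻¹ = g * a⁻¹ * g⁻¹ by group] at this
  let φ : Alg G →ₗ[kk] Alg G := (LinearMap.mulRight kk (o g⁻¹)).comp (LinearMap.mulLeft kk (o g))
  have : X.Fil n ≤ (X.Fil n).comap φ := by
    refine Fil_induction (C := fun n => (X.Fil n).comap φ) ?_ ?_ n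
    · intro b hb; exact kS_le_Fil_zero (kS_conj hM hb)
    · intro n i b _ hb
      have hb : o g * b * o g⁻¹ ∈ X.Fil (n - X.deg i) := hb
      change o g * (b * (o (X.el i) - 1)) * o g⁻¹ ∈ X.Fil n
      have e : o g * (b * (o (X.el i) - 1)) * o g⁻¹ =
          (o g * b * o g⁻¹) * (o (g * X.el i * g⁻¹) - 1) := by
        rw [o_mul, o_mul]
        have := o_inv_mul g
        calc o g * (b * (o (X.el i) - 1)) * o g⁻¹
            = o g * b * (o g⁻¹ * o g) * o (X.el i) * o g⁻¹ - o g * b * o g⁻¹ := by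
              rw [this]; noncomm_ring
          _ = _ := by noncomm_ring
      rw [e]
      exact mul_mem' hb (h i).2 (by omega)
  exact this ha

theorem conj_mem_FG_of {g : G} (h : ∀ i, g * X.el i * g⁻¹ ∈ X.FG (X.deg i)) (n : ℕ) {x : G}
    (hx : x ∈ X.FG n) : g * x * g⁻¹ ∈ X.FG n := by
  have h1 := conj_mem_Fil h n hx.2
  have e : o g * (o x - 1) * o g⁻¹ = o (g * x * g⁻¹) - 1 := by
    rw [o_mul, o_mul, mul_sub, sub_mul, mul_one, o_mul_inv]
  rw [e] at h1
  refine ⟨?_, h1⟩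
  refine grp_induction (P := fun x => g * x * g⁻¹ ∈ X.grp) hx.1 (fun i => (h i).1)
    (by simp) ?_ ?_
  · intro a b _ _ h1 h2
    have := X.grp.mul_mem h1 h2
    rwa [show g * a * g⁻¹ * (g * b * g⁻¹) = g * (a * b) * g⁻¹ by group] at this
  · intro a _ h1
    have := X.grp.inv_mem h1
    rwa [show (g * a * g⁻¹)⁻¹ = g * a⁻¹ * g⁻¹ by group] at this

/-- the generators freely generate the augmentation ideal as a left module -/
def Free (X : Fam G) : Prop :=
  ∀ c : X.ι → Alg G, (∀ i, c i ∈ kS X.grp) → ∑ i, c i * (o (X.el i) - 1) = 0 → ∀ i, c i = 0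

end Fam

end Pool.Agent.Lib.MP_6cc228_al
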