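import Pool.Agent.Lib.MP_6cc228_al.Step

/-!
The index three step for free bases: freeness and the induced filtration.
-/

namespace Pool.Agent.Lib.MP_6cc228_al

open Finset

variable {G : Type} [Group G]

theorem lin_ext {V : Type} [AddCommGroup V] [Module kk V] {f f' : Alg G →ₗ[kk] V}
    (h : ∀ g, f (o g) = f' (o g)) : f = f' :=
  (MonoidAlgebra.basis G kk).ext fun g => by
    have : MonoidAlgebra.basis G kk g = o g := by rw [MonoidAlgebra.basis_apply]; rfl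
    rw [this]; exact h g

open Classical in
/-- projection to the algebra of a subgroup -/
noncomputable def pr (L : Subgroup G) : Alg G →ₗ[kk] Alg G :=
  lin fun g => if g ∈ L then o g else 0

theorem pr_mul {L : Subgroup G} {b : Alg G} (hb : b ∈ kS L) (a : Alg G) :
    pr L (b * a) = b * pr L a := by
  classical
  refine kS_induction (P := fun b => pr L (b * a) = b * pr L a) hb ?_ (by simp) ?_ ?_
  · intro g hg
    have : (pr L).comp (LinearMap.mulLeft kk (o g)) = (LinearMap.mulLeft kk (o g)).comp (pr L) := by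
      refine lin_ext fun x => ?_
      simp only [LinearMap.comp_apply, LinearMap.mulLeft_apply, ← o_mul, pr, lin_o,
        L.mul_mem_cancel_left hg]
      split_ifs
      · rw [o_mul]
      · rw [mul_zero]
    exact LinearMap.congr_fun this a
  · intro b b' _ _ h1 h2; rw [add_mul, map_add, h1, h2, add_mul]
  · intro c b _ h1; rw [smul_mul_assoc, map_smul, h1, smul_mul_assoc]

theorem pr_o_of_mem {L : Subgroup G} {g : G} (hg : g ∈ L) : pr L (o g) = o g := by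
  simp [pr, lin_o, hg]

theorem pr_o_of_notMem {L : Subgroup G} {g : G} (hg : g ∉ L) : pr L (o g) = 0 := by
  simp [pr, lin_o, hg]

theorem indep3 {L : Subgroup G} {h : G} (h1 : h ∉ L) (h2 : h * h ∉ L) {a0 a1 a2 : Alg G}
    (ha0 : a0 ∈ kS L) (ha1 : a1 ∈ kS L) (ha2 : a2 ∈ kS L)
    (H : a0 + a1 * o h + a2 * (o h * o h) = 0) : a0 = 0 ∧ a1 = 0 ∧ a2 = 0 := by
  have key : ∀ g : G, a0 * pr L (o g) + a1 * pr L (o (h * g)) + a2 * pr L (o (h * h * g)) = 0 := by
    intro g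
    have := congrArg (fun a => pr L (a * o g)) H
    simp only [add_mul, map_add, zero_mul, map_zero, mul_assoc, pr_mul ha0, pr_mul ha1,
      pr_mul ha2, ← o_mul] at this
    simpa only [mul_assoc] using this
  have h1' : h⁻¹ ∉ L := fun hh => h1 (L.inv_mem_iff.1 hh)
  have h2' : (h * h)⁻¹ ∉ L := fun hh => h2 (L.inv_mem_iff.1 hh)
  have e0 := key 1
  have e1 := key h⁻¹
  have e2 := key (h * h)⁻¹
  rw [mul_one, mul_one, pr_o_of_mem L.one_mem, pr_o_of_notMem h1, pr_o_of_notMem h2, o_one] at e0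
  rw [mul_inv_cancel, mul_inv_cancel_right, pr_o_of_mem L.one_mem, pr_o_of_notMem h1,
    pr_o_of_notMem h1', o_one] at e1
  rw [mul_inv_cancel, show h * (h * h)⁻¹ = h⁻¹ by group, pr_o_of_mem L.one_mem,
    pr_o_of_notMem h1', pr_o_of_notMem h2', o_one] at e2
  exact ⟨by simpa using e0, by simpa using e1, by simpa using e2⟩

/-- the left ideal generated by `h - 1` -/
noncomputable def TI (M : Subgroup G) (h : G) : Submodule kk (Alg G) :=
  (kS M).map (LinearMap.mulRight kk (o h - 1))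

theorem mul_mem_TI {M : Subgroup G} {h : G} {a b : Alg G} (ha : a ∈ kS M) (hb : b ∈ TI M h) :
    a * b ∈ TI M h := by
  obtain ⟨s, hs, rfl⟩ := hb
  exact ⟨a * s, kS_mul ha hs, by simp [mul_assoc]⟩

theorem mul_t_mem_TI {M : Subgroup G} {h : G} {a : Alg G} (ha : a ∈ kS M) :
    a * (o h - 1) ∈ TI M h := ⟨a, ha, rfl⟩

theorem pow_mem_TI {M : Subgroup G} {h : G} (hh : h ∈ M) (l : ℕ) : o (h ^ l) - 1 ∈ TI M h := by
  induction l with
  | zero => simp [o_one]
  | succ l ih =>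
    rw [pow_succ, cocycle]
    exact (TI M h).add_mem ih (mul_t_mem_TI (o_mem_kS (M.pow_mem hh l)))

theorem cm_sub_one (h : G) (k : ℕ) (y : G) :
    o (cm h (k + 1) y) - 1 = (o h - o (cm h (k + 1) y)) * (o (cm h k y) - 1) +
      (1 - o (h * cm h k y * h⁻¹)) * (o h - 1) := by
  have e1 : o (cm h (k + 1) y) * o (cm h k y) = o (h * cm h k y * h⁻¹) := by
    rw [← o_mul, conj_cm]
  have e2 : o (h * cm h k y * h⁻¹) * o h = o h * o (cm h k y) := by
    rw [← o_mul, ← o_mul, inv_mul_cancel_right]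
  calc o (cm h (k + 1) y) - 1
      = o (cm h (k + 1) y) - 1 + (o (h * cm h k y * h⁻¹) - o (cm h (k + 1) y) * o (cm h k y))
        + (o h * o (cm h k y) - o (h * cm h k y * h⁻¹) * o h) := by rw [e1, e2]; simp
    _ = _ := by noncomm_ring

/-- the monic coefficients -/
noncomputable def mc (h y : G) : ℕ → Alg G
  | 0 => 1
  | k + 1 => (o h - o (cm h (k + 1) y)) * mc h y k

theorem mc_mem {M : Subgroup G} {h y : G} (hh : h ∈ M) (hy : y ∈ M) (k : ℕ) : mc h y k ∈ kS M := by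
  induction k with
  | zero => exact one_mem_kS M
  | succ k ih => exact kS_mul ((kS M).sub_mem (o_mem_kS hh) (o_mem_kS (cm_mem' hh hy _))) ih

theorem cm_sub_mc {M : Subgroup G} {h y : G} (hh : h ∈ M) (hy : y ∈ M) {w : Alg G}
    (hw : o y - 1 - w ∈ TI M h) (k : ℕ) : o (cm h k y) - 1 - mc h y k * w ∈ TI M h := by
  induction k with
  | zero => simpa [cm, mc] using hw
  | succ k ih =>
    have e : o (cm h (k + 1) y) - 1 - mc h y (k + 1) * w =
        (o h - o (cm h (k + 1) y)) * (o (cm h k y) - 1 - mc h y k * w) +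
          (1 - o (h * cm h k y * h⁻¹)) * (o h - 1) := by
      rw [cm_sub_one, mc]; noncomm_ring
    rw [e]
    refine (TI M h).add_mem (mul_mem_TI ((kS M).sub_mem (o_mem_kS hh)
      (o_mem_kS (cm_mem' hh hy _))) ih) (mul_t_mem_TI ((kS M).sub_mem (one_mem_kS M)
      (o_mem_kS (M.mul_mem (M.mul_mem hh (cm_mem' hh hy _)) (M.inv_mem hh)))))

theorem mc_indep {L : Subgroup G} {h y : G} (h1 : h ∉ L) (h2 : h * h ∉ L)
    (hL : ∀ g ∈ L, h * g * h⁻¹ ∈ L) (hy : y ∈ L) {b0 b1 b2 : Alg G}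
    (hb0 : b0 ∈ kS L) (hb1 : b1 ∈ kS L) (hb2 : b2 ∈ kS L)
    (H : b0 * mc h y 0 + b1 * mc h y 1 + b2 * mc h y 2 = 0) : b0 = 0 ∧ b1 = 0 ∧ b2 = 0 := by
  have y1 := o_mem_kS (cm_mem hL hy 1)
  have y2 := o_mem_kS (cm_mem hL hy 2)
  have y3 := o_mem_kS (hL _ (cm_mem hL hy 1))
  have e2 : o (h * cm h 1 y * h⁻¹) * o h = o h * o (cm h 1 y) := by
    rw [← o_mul, ← o_mul, inv_mul_cancel_right]
  have H' : (b0 - b1 * o (cm h 1 y) + b2 * (o (cm h 2 y) * o (cm h 1 y))) +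
      (b1 - b2 * (o (h * cm h 1 y * h⁻¹) + o (cm h 2 y))) * o h + b2 * (o h * o h) = 0 := by
    rw [← H]
    simp only [mc]
    calc _ = b0 + b1 * (o h - o (cm h 1 y)) + b2 * (o h * o h - o (h * cm h 1 y * h⁻¹) * o h
          - o (cm h 2 y) * o h + o (cm h 2 y) * o (cm h 1 y)) := by noncomm_ring
      _ = _ := by rw [e2]; noncomm_ring
  obtain ⟨e0, e1, e2⟩ := indep3 h1 h2
    ((kS L).add_mem ((kS L).sub_mem hb0 (kS_mul hb1 y1)) (kS_mul hb2 (kS_mul y2 y1)))
    ((kS L).sub_mem hb1 (kS_mul hb2 ((kS L).add_mem y3 y2))) hb2 H'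
  subst e2
  have e1' : b1 = 0 := by simpa using e1
  subst e1'
  exact ⟨by simpa using e0, rfl, rfl⟩

namespace Fam

variable {S : Fam G} {i0 : S.ι} {j : S.ι → ℕ}

theorem sum_step {V : Type} [AddCommMonoid V] (f : (S.step i0 j).ι → V) :
    ∑ p, f p = f (Sum.inl ()) + ∑ i : (S.adj i0 j).ι,
      (f (Sum.inr (i, (0 : Fin 3))) + f (Sum.inr (i, (1 : Fin 3))) +
        f (Sum.inr (i, (2 : Fin 3)))) := by
  refine (Fintype.sum_sum_type (α₁ := Unit) (α₂ := (S.adj i0 j).ι × Fin 3) f).trans ?_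
  rw [Fintype.sum_unique, Fintype.sum_prod_type]
  simp only [Fin.sum_univ_three]
  rfl

theorem sum_adj {V : Type} [AddCommMonoid V] (f : S.ι → V) :
    ∑ i, f i = f i0 + ∑ i : (S.adj i0 j).ι, f i.1 := by
  classical
  have := Finset.sum_subtype (F := (S.adj i0 j).fin) (univ.erase i0) (p := fun i => i ≠ i0)
    (by simp) f
  rw [← Finset.add_sum_erase _ _ (mem_univ i0), this]
  rfl

theorem free_step (hS : S.Free) (h1 : S.el i0 ∉ (S.step i0 j).grp)
    (h2 : S.el i0 * S.el i0 ∉ (S.step i0 j).grp) : (S.step i0 j).Free := by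
  classical
  intro c hc H
  set h := S.el i0 with hh
  have hhM : h ∈ S.grp := S.el_mem i0
  have hcM : ∀ p, c p ∈ kS S.grp := fun p => kS_mono step_le (hc p)
  let y : (S.adj i0 j).ι → G := fun i => S.el i.1 * (h ^ j i.1)⁻¹
  have hyL : ∀ i, y i ∈ (S.step i0 j).grp := fun i => cm_mem_step i.1 i.2 0 (by norm_num)
  have hyM : ∀ i, y i ∈ S.grp := fun i => step_le (hyL i)
  have hw : ∀ i k, o (cm h k (y i)) - 1 - mc h (y i) k * (o (S.el i.1) - 1) ∈ TI S.grp h := by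
    intro i k
    refine cm_sub_mc hhM (hyM i) ?_ k
    rw [cocycle, add_sub_cancel_left, cocycle_inv]
    exact mul_mem_TI (o_mem_kS (S.el_mem _)) ((TI _ _).neg_mem
      (mul_mem_TI (o_mem_kS (S.grp.inv_mem (S.grp.pow_mem hhM _))) (pow_mem_TI hhM _)))
  let a : (S.adj i0 j).ι → Alg G := fun i => c (Sum.inr (i, (0 : Fin 3))) * mc h (y i) 0 +
    c (Sum.inr (i, (1 : Fin 3))) * mc h (y i) 1 + c (Sum.inr (i, (2 : Fin 3))) * mc h (y i) 2
  have haM : ∀ i, a i ∈ kS S.grp := fun i =>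
    (kS _).add_mem ((kS _).add_mem (kS_mul (hcM _) (mc_mem hhM (hyM i) _))
      (kS_mul (hcM _) (mc_mem hhM (hyM i) _))) (kS_mul (hcM _) (mc_mem hhM (hyM i) _))
  rw [sum_step] at H
  change c (Sum.inl ()) * (o (h ^ 3) - 1) + ∑ i : (S.adj i0 j).ι,
    (c (Sum.inr (i, (0 : Fin 3))) * (o (cm h 0 (y i)) - 1) +
      c (Sum.inr (i, (1 : Fin 3))) * (o (cm h 1 (y i)) - 1) +
      c (Sum.inr (i, (2 : Fin 3))) * (o (cm h 2 (y i)) - 1)) = 0 at H
  have hT : ∑ i : (S.adj i0 j).ι, a i * (o (S.el i.1) - 1) ∈ TI S.grp h := by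
    have e : ∑ i : (S.adj i0 j).ι, a i * (o (S.el i.1) - 1) =
        -(c (Sum.inl ()) * (o (h ^ 3) - 1)) - ∑ i : (S.adj i0 j).ι,
        (c (Sum.inr (i, (0 : Fin 3))) * (o (cm h 0 (y i)) - 1 - mc h (y i) 0 * (o (S.el i.1) - 1)) +
        c (Sum.inr (i, (1 : Fin 3))) * (o (cm h 1 (y i)) - 1 - mc h (y i) 1 * (o (S.el i.1) - 1)) +
        c (Sum.inr (i, (2 : Fin 3))) *
          (o (cm h 2 (y i)) - 1 - mc h (y i) 2 * (o (S.el i.1) - 1))) := by
      rw [neg_eq_of_add_eq_zero_right H, ← sum_sub_distrib]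
      refine sum_congr rfl fun i _ => ?_
      simp only [a]
      noncomm_ring
    rw [e]
    refine (TI _ _).sub_mem ((TI _ _).neg_mem (mul_mem_TI (hcM _) (pow_mem_TI hhM 3)))
      (Submodule.sum_mem _ fun i _ => (TI _ _).add_mem ((TI _ _).add_mem
        (mul_mem_TI (hcM _) (hw i 0)) (mul_mem_TI (hcM _) (hw i 1))) (mul_mem_TI (hcM _) (hw i 2)))
  obtain ⟨s, hs, hs'⟩ := hT
  rw [LinearMap.mulRight_apply] at hs'
  have ha0 : ∀ i, a i = 0 := by
    intro i
    have := hS (fun i => if hi : i = i0 then -s else a ⟨i, hi⟩) (fun i => by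
      by_cases hi : i = i0
      · simp only [hi, dite_true]; exact (kS _).neg_mem hs
      · simp only [hi, dite_false]; exact haM _) (by
      rw [sum_adj (i0 := i0) (j := j)]
      simp only [dite_true]
      rw [sum_congr rfl (g := fun i => a i * (o (S.el i.1) - 1))
        (fun i _ => by rw [dif_neg i.2]; rfl), ← hs', neg_mul, neg_add_cancel]) i.1
    simp only [dif_neg i.2] at this
    exact this
  have hc0 : ∀ i, c (Sum.inr (i, (0 : Fin 3))) = 0 ∧ c (Sum.inr (i, (1 : Fin 3))) = 0 ∧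
      c (Sum.inr (i, (2 : Fin 3))) = 0 := fun i =>
    mc_indep h1 h2 (fun _ hg => conj_mem_step hg) (hyL i) (hc _) (hc _) (hc _) (ha0 i)
  have hz : c (Sum.inl ()) = 0 := by
    simp only [(hc0 _).1, (hc0 _).2.1, (hc0 _).2.2, zero_mul, add_zero, sum_const_zero] at H
    have e : c (Sum.inl ()) * (o (h ^ 3) - 1) =
        (c (Sum.inl ()) + c (Sum.inl ()) * o h + c (Sum.inl ()) * (o h * o h)) * (o h - 1) := by
      rw [o_pow]; noncomm_ring
    rw [e] at H
    have := hS (Pi.single i0 (c (Sum.inl ()) + c (Sum.inl ()) * o h + c (Sum.inl ()) * (o h * o h)))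
      (fun i => by
        rcases eq_or_ne i i0 with rfl | hi
        · rw [Pi.single_eq_same]
          exact (kS _).add_mem ((kS _).add_mem (hcM _) (kS_mul (hcM _) (o_mem_kS hhM)))
            (kS_mul (hcM _) (kS_mul (o_mem_kS hhM) (o_mem_kS hhM)))
        · rw [Pi.single_eq_of_ne hi]; exact (kS _).zero_mem)
      (by
        rw [Finset.sum_eq_single i0 (fun i _ hi => by rw [Pi.single_eq_of_ne hi, zero_mul])
          (by simp), Pi.single_eq_same]
        exact H) i0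
    rw [Pi.single_eq_same] at this
    exact (indep3 h1 h2 (hc _) (hc _) (hc _) this).1
  rintro (_ | ⟨i, k⟩)
  · exact hz
  · fin_cases k
    · exact (hc0 i).1
    · exact (hc0 i).2.1
    · exact (hc0 i).2.2

theorem comm_mem_step {g : G} (hg : g ∈ (S.step i0 j).grp) :
    S.el i0 * g * (S.el i0)⁻¹ * g⁻¹ ∈ (S.step i0 j).FG (S.deg i0) := by
  refine grp_induction
    (P := fun g => S.el i0 * g * (S.el i0)⁻¹ * g⁻¹ ∈ (S.step i0 j).FG (S.deg i0)) hg
    (fun p => FG_anti (Nat.le_add_left _ _) (comm_gen_step p)) (by simp) ?_ ?_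
  · intro a b ha _ h1 h2
    have := Subgroup.mul_mem _ h1 (conj_mem_FG h2 ha)
    rwa [show S.el i0 * a * (S.el i0)⁻¹ * a⁻¹ * (a * (S.el i0 * b * (S.el i0)⁻¹ * b⁻¹) * a⁻¹) =
      S.el i0 * (a * b) * (S.el i0)⁻¹ * (a * b)⁻¹ by group] at this
  · intro a ha h1
    have := conj_mem_FG (Subgroup.inv_mem _ h1) (Subgroup.inv_mem _ ha)
    rwa [show a⁻¹ * (S.el i0 * a * (S.el i0)⁻¹ * a⁻¹)⁻¹ * a⁻¹⁻¹ =
      S.el i0 * a⁻¹ * (S.el i0)⁻¹ * a⁻¹⁻¹ by group] at this

theorem delta_o (h g : G) : o h * o g * o h⁻¹ - o g = (o (h * g * h⁻¹ * g⁻¹) - 1) * o g := by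
  rw [sub_mul, ← o_mul, ← o_mul, ← o_mul, inv_mul_cancel_right, one_mul]

theorem delta_mem {n : ℕ} {b : Alg G} (hb : b ∈ (S.step i0 j).Fil n) :
    o (S.el i0) * b * o (S.el i0)⁻¹ - b ∈ (S.step i0 j).Fil (n + S.deg i0) := by
  set h := S.el i0
  let φ : Alg G →ₗ[kk] Alg G :=
    (LinearMap.mulRight kk (o h⁻¹)).comp (LinearMap.mulLeft kk (o h)) - LinearMap.id
  have hφ : ∀ b, φ b = o h * b * o h⁻¹ - b := fun b => rfl
  have : (S.step i0 j).Fil n ≤ ((S.step i0 j).Fil (n + S.deg i0)).comap φ := by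
    refine Fil_induction (C := fun n => ((S.step i0 j).Fil (n + S.deg i0)).comap φ) ?_ ?_ n
    · refine Submodule.span_le.2 ?_
      rintro _ ⟨g, hg, rfl⟩
      change φ (o g) ∈ (S.step i0 j).Fil (0 + S.deg i0)
      rw [hφ, delta_o, zero_add]
      exact mul_right_mem (comm_mem_step hg).2 (o_mem_kS hg)
    · intro n p a ha ih
      rw [Submodule.mem_comap, hφ] at ih ⊢
      set y := (S.step i0 j).el p
      have e : o h * (a * (o y - 1)) * o h⁻¹ - a * (o y - 1) =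
          (o h * a * o h⁻¹ - a) * (o (h * y * h⁻¹) - 1) + a * (o h * o y * o h⁻¹ - o y) := by
        rw [o_mul, o_mul]
        have := o_inv_mul h
        calc o h * (a * (o y - 1)) * o h⁻¹ - a * (o y - 1)
            = o h * a * (o h⁻¹ * o h) * o y * o h⁻¹ - o h * a * o h⁻¹ - a * (o y - 1) := by
              rw [this]; noncomm_ring
          _ = _ := by noncomm_ring
      rw [e, delta_o]
      refine Submodule.add_mem _ (mul_mem' ih (conj_gen_step p).2 (by omega))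
        (mul_mem' ha (mul_right_mem (comm_gen_step p).2 (o_mem_kS (el_mem _ p))) (by omega))
  exact this hb

/-- the filtration of the big algebra built from the filtration of the small one -/
noncomputable def AA (Y : Fam G) (h : G) (d n : ℕ) : Submodule kk (Alg G) where
  carrier := {a | ∃ b0 ∈ Y.Fil n, ∃ b1 ∈ Y.Fil (n - d), ∃ b2 ∈ Y.Fil (n - 2 * d),
    a = b0 + b1 * (o h - 1) + b2 * ((o h - 1) * (o h - 1))}
  zero_mem' := ⟨0, Submodule.zero_mem _, 0, Submodule.zero_mem _, 0, Submodule.zero_mem _, by simp⟩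
  add_mem' := by
    rintro _ _ ⟨b0, h0, b1, h1, b2, h2, rfl⟩ ⟨b0', h0', b1', h1', b2', h2', rfl⟩
    exact ⟨_, Submodule.add_mem _ h0 h0', _, Submodule.add_mem _ h1 h1', _,
      Submodule.add_mem _ h2 h2', by noncomm_ring⟩
  smul_mem' := by
    rintro c _ ⟨b0, h0, b1, h1, b2, h2, rfl⟩
    exact ⟨_, Submodule.smul_mem _ c h0, _, Submodule.smul_mem _ c h1, _,
      Submodule.smul_mem _ c h2, by simp only [smul_add, smul_mul_assoc]⟩

theorem AA_anti {Y : Fam G} {h : G} {d m n : ℕ} (hmn : n ≤ m) : AA Y h d m ≤ AA Y h d n := by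
  rintro _ ⟨b0, h0, b1, h1, b2, h2, rfl⟩
  exact ⟨b0, Fil_anti hmn h0, b1, Fil_anti (by omega) h1, b2, Fil_anti (by omega) h2, rfl⟩

theorem Fil_le_AA {Y : Fam G} {h : G} {d n : ℕ} : Y.Fil n ≤ AA Y h d n := fun b hb =>
  ⟨b, hb, 0, Submodule.zero_mem _, 0, Submodule.zero_mem _, by simp⟩

theorem Fil_mul_AA {Y : Fam G} {h : G} {d m n : ℕ} {b a : Alg G} (hb : b ∈ Y.Fil m)
    (ha : a ∈ AA Y h d n) : b * a ∈ AA Y h d (m + n) := by
  obtain ⟨b0, h0, b1, h1, b2, h2, rfl⟩ := ha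
  exact ⟨_, mul_mem hb h0, _, mul_mem' hb h1 (by omega), _, mul_mem' hb h2 (by omega),
    by noncomm_ring⟩

theorem AA_mul_t {n : ℕ} {a : Alg G} (ha : a ∈ AA (S.step i0 j) (S.el i0) (S.deg i0) n) :
    a * (o (S.el i0) - 1) ∈ AA (S.step i0 j) (S.el i0) (S.deg i0) (n + S.deg i0) := by
  obtain ⟨b0, h0, b1, h1, b2, h2, rfl⟩ := ha
  have hz : o (S.el i0 ^ 3) - 1 ∈ (S.step i0 j).Fil (3 * S.deg i0) :=
    u_mem (X := S.step i0 j) (Sum.inl ())
  refine ⟨_, mul_mem' h2 hz (by omega), b0, Fil_anti (by omega) h0, b1, Fil_anti (by omega) h1, ?_⟩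
  rw [o_pow, sub_one_cube]
  noncomm_ring

theorem t_mul_AA {n : ℕ} {a : Alg G} (ha : a ∈ AA (S.step i0 j) (S.el i0) (S.deg i0) n) :
    (o (S.el i0) - 1) * a ∈ AA (S.step i0 j) (S.el i0) (S.deg i0) (n + S.deg i0) := by
  have key : ∀ m, ∀ b ∈ (S.step i0 j).Fil m,
      (o (S.el i0) - 1) * b ∈ AA (S.step i0 j) (S.el i0) (S.deg i0) (m + S.deg i0) := by
    intro m b hb
    have hd := delta_mem hb
    refine ⟨_, hd, _, Submodule.add_mem _ (Fil_anti (by omega) hd) (Fil_anti (by omega) hb), 0,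
      Submodule.zero_mem _, ?_⟩
    have := o_inv_mul (S.el i0)
    calc (o (S.el i0) - 1) * b = o (S.el i0) * b * (o (S.el i0)⁻¹ * o (S.el i0)) - b := by
          rw [this]; noncomm_ring
      _ = _ := by noncomm_ring
  obtain ⟨b0, h0, b1, h1, b2, h2, rfl⟩ := ha
  have e : (o (S.el i0) - 1) * (b0 + b1 * (o (S.el i0) - 1) +
      b2 * ((o (S.el i0) - 1) * (o (S.el i0) - 1))) =
      (o (S.el i0) - 1) * b0 + ((o (S.el i0) - 1) * b1) * (o (S.el i0) - 1) +
      ((o (S.el i0) - 1) * b2) * (o (S.el i0) - 1) * (o (S.el i0) - 1) := by noncomm_ring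
  rw [e]
  exact Submodule.add_mem _ (Submodule.add_mem _ (key _ _ h0)
    (AA_anti (by omega) (AA_mul_t (key _ _ h1))))
    (AA_anti (by omega) (AA_mul_t (AA_mul_t (key _ _ h2))))

theorem AA_mul {m n : ℕ} {a a' : Alg G} (ha : a ∈ AA (S.step i0 j) (S.el i0) (S.deg i0) m)
    (ha' : a' ∈ AA (S.step i0 j) (S.el i0) (S.deg i0) n) :
    a * a' ∈ AA (S.step i0 j) (S.el i0) (S.deg i0) (m + n) := by
  obtain ⟨b0, h0, b1, h1, b2, h2, rfl⟩ := ha
  rw [add_mul, add_mul, mul_assoc, mul_assoc, mul_assoc]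
  exact Submodule.add_mem _ (Submodule.add_mem _ (Fil_mul_AA h0 ha')
    (AA_anti (by omega) (Fil_mul_AA h1 (t_mul_AA ha'))))
    (AA_anti (by omega) (Fil_mul_AA h2 (t_mul_AA (t_mul_AA ha'))))

theorem kS_le_AA : kS S.grp ≤ AA (S.step i0 j) (S.el i0) (S.deg i0) 0 := by
  have h1 : (1 : Alg G) ∈ AA (S.step i0 j) (S.el i0) (S.deg i0) 0 :=
    Fil_le_AA (kS_le_Fil_zero (one_mem_kS _))
  have hp : ∀ l : ℕ, o (S.el i0 ^ l) ∈ AA (S.step i0 j) (S.el i0) (S.deg i0) 0 := by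
    intro l
    induction l with
    | zero => rw [pow_zero, o_one]; exact h1
    | succ l ih =>
      have := Submodule.add_mem _ ih (AA_anti (Nat.zero_le _) (AA_mul_t ih))
      rwa [mul_sub, mul_one, add_sub_cancel, ← o_mul, ← pow_succ] at this
  refine Submodule.span_le.2 ?_
  rintro _ ⟨g, hg, rfl⟩
  obtain ⟨l, -, hl⟩ := exists_pow_step (i0 := i0) (j := j) hg
  have := Fil_mul_AA (kS_le_Fil_zero (o_mem_kS hl)) (hp l)
  rwa [← o_mul, inv_mul_cancel_right] at this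

theorem Fil_le_AA_step (hj : ∀ i, j i ≠ 0 → S.deg i ≤ S.deg i0) (n : ℕ) :
    S.Fil n ≤ AA (S.step i0 j) (S.el i0) (S.deg i0) n := by
  refine Fil_induction kS_le_AA ?_ n
  intro n i a _ ha
  have hu : o (S.el i) - 1 ∈ AA (S.step i0 j) (S.el i0) (S.deg i0) (S.deg i) := by
    rcases eq_or_ne i i0 with rfl | hi
    · have := AA_mul_t (kS_le_AA (j := j) (i0 := i) (one_mem_kS _))
      rwa [one_mul, zero_add] at this
    · have h0 := (cm_mem_FG_step (j := j) i hi 0 (by norm_num)).2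
      have e : o (S.el i) - 1 = (o (S.el i * (S.el i0 ^ j i)⁻¹) - 1) * o (S.el i0 ^ j i) +
          (o (S.el i0 ^ j i) - 1) := by
        rw [sub_mul, ← o_mul, inv_mul_cancel_right, one_mul]; abel
      rw [e]
      refine Submodule.add_mem _ (AA_anti (by omega) (Fil_mul_AA h0
        (kS_le_AA (o_mem_kS (S.grp.pow_mem (S.el_mem i0) _))))) ?_
      by_cases hji : j i = 0
      · rw [hji, pow_zero, o_one, sub_self]; exact Submodule.zero_mem _
      · obtain ⟨s, hs, hs'⟩ := pow_mem_TI (S.el_mem i0) (j i)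
        rw [← hs', LinearMap.mulRight_apply]
        exact AA_anti (by have := hj i hji; omega) (AA_mul_t (kS_le_AA hs))
  exact AA_anti (by omega) (AA_mul ha hu)

theorem Fil_step (h1 : S.el i0 ∉ (S.step i0 j).grp) (h2 : S.el i0 * S.el i0 ∉ (S.step i0 j).grp)
    (hj : ∀ i, j i ≠ 0 → S.deg i ≤ S.deg i0) {n : ℕ} {a : Alg G} (ha : a ∈ S.Fil n)
    (ha' : a ∈ kS (S.step i0 j).grp) : a ∈ (S.step i0 j).Fil n := by
  obtain ⟨b0, h0, b1, hb1, b2, hb2, e⟩ := Fil_le_AA_step hj n ha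
  have k0 := Fil_le_kS _ h0
  have k1 := Fil_le_kS _ hb1
  have k2 := Fil_le_kS _ hb2
  have H : (b0 - b1 + b2 - a) + (b1 - b2 - b2) * o (S.el i0) +
      b2 * (o (S.el i0) * o (S.el i0)) = 0 := by
    rw [e]; noncomm_ring
  obtain ⟨-, e1, e2⟩ := indep3 h1 h2
    ((kS _).sub_mem ((kS _).add_mem ((kS _).sub_mem k0 k1) k2) ha')
    ((kS _).sub_mem ((kS _).sub_mem k1 k2) k2) k2 H
  subst e2
  have e1' : b1 = 0 := by simpa using e1
  subst e1'
  rw [e]
  simpa using h0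

theorem FG_step (h1 : S.el i0 ∉ (S.step i0 j).grp) (h2 : S.el i0 * S.el i0 ∉ (S.step i0 j).grp)
    (hj : ∀ i, j i ≠ 0 → S.deg i ≤ S.deg i0) (n : ℕ) (g : G) :
    g ∈ (S.step i0 j).FG n ↔ g ∈ S.FG n ∧ g ∈ (S.step i0 j).grp :=
  ⟨fun hg => ⟨FG_le_of (step_mem_FG el_mem_FG hj) n hg, hg.1⟩,
    fun hg => ⟨hg.2, Fil_step h1 h2 hj hg.1.2 (sub_one_mem_kS hg.2)⟩⟩

end Fam

end Pool.Agent.Lib.MP_6cc228_al
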