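import Pool.Agent.Lib.MP_6cc228_al.Alg

/-!
The weighted Golod-Shafarevich inequality.
-/

namespace Pool.Agent.Lib.MP_6cc228_al

open Finset Module

theorem gs_lin {U ι κ : Type} [AddCommGroup U] [Module kk U] [Fintype ι] [Fintype κ]
    (Cx : ι → Submodule kk U) (Cr : κ → Submodule kk U) (C0 : Submodule kk U)
    (u : ι → U →ₗ[kk] U) (D : κ → ι → U →ₗ[kk] U)
    (hu : ∀ x, Cx x ≤ C0.comap (u x)) (hD : ∀ r x, Cr r ≤ (Cx x).comap (D r x))
    (hex : ∀ v : ι → U, ∑ x, u x (v x) ∈ C0 → ∃ c : κ → U, ∀ x, v x - ∑ r, D r x (c r) ∈ Cx x)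
    (hne : ∃ w, ∀ v : ι → U, ∑ x, u x (v x) - w ∉ C0)
    [∀ x, Module.Finite kk (U ⧸ Cx x)] [∀ r, Module.Finite kk (U ⧸ Cr r)]
    [Module.Finite kk (U ⧸ C0)] :
    ∑ x, finrank kk (U ⧸ Cx x) + 1 ≤ finrank kk (U ⧸ C0) + ∑ r, finrank kk (U ⧸ Cr r) := by
  let f : (∀ r, U ⧸ Cr r) →ₗ[kk] (∀ x, U ⧸ Cx x) := LinearMap.pi fun x =>
    ∑ r, (Submodule.mapQ (Cr r) (Cx x) (D r x) (hD r x)).comp (LinearMap.proj r)
  let g : (∀ x, U ⧸ Cx x) →ₗ[kk] U ⧸ C0 :=
    ∑ x, (Submodule.mapQ (Cx x) C0 (u x) (hu x)).comp (LinearMap.proj x)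
  have hg : ∀ v : ι → U, g (fun x => (Cx x).mkQ (v x)) = C0.mkQ (∑ x, u x (v x)) := by
    intro v
    simp [g, LinearMap.sum_apply, map_sum]
  have hf : ∀ (c : κ → U) (x : ι),
      f (fun r => (Cr r).mkQ (c r)) x = (Cx x).mkQ (∑ r, D r x (c r)) := by
    intro c x
    simp [f, LinearMap.sum_apply, map_sum]
  have hsurj : ∀ q : ∀ x, U ⧸ Cx x, ∃ v : ι → U, q = fun x => (Cx x).mkQ (v x) := by
    intro q
    choose v hv using fun x => (Cx x).mkQ_surjective (q x)
    exact ⟨v, funext fun x => (hv x).symm⟩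
  have h1 : LinearMap.ker g ≤ LinearMap.range f := by
    intro q hq
    obtain ⟨v, rfl⟩ := hsurj q
    rw [LinearMap.mem_ker, hg, Submodule.mkQ_apply, Submodule.Quotient.mk_eq_zero] at hq
    obtain ⟨c, hc⟩ := hex v hq
    refine ⟨fun r => (Cr r).mkQ (c r), funext fun x => ?_⟩
    rw [hf]
    exact ((Submodule.Quotient.eq _).2 (hc x)).symm
  have h2 : LinearMap.range g ≠ ⊤ := by
    intro h
    obtain ⟨w, hw⟩ := hne
    obtain ⟨q, hq⟩ : C0.mkQ w ∈ LinearMap.range g := h ▸ Submodule.mem_top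
    obtain ⟨v, rfl⟩ := hsurj q
    rw [hg] at hq
    exact hw v ((Submodule.Quotient.eq _).1 hq)
  have e1 := LinearMap.finrank_range_add_finrank_ker g
  have e2 := Submodule.finrank_mono h1
  have e3 := LinearMap.finrank_range_le f
  have e4 := Submodule.finrank_lt h2
  rw [Module.finrank_pi_fintype] at e1 e3
  omega

theorem sum_shift (a : ℕ → ℝ) (h0 : a 0 = 0) (d n : ℕ) :
    ∑ j ∈ range n, a (j - d) * (1 / 2 : ℝ) ^ j =
      (1 / 2 : ℝ) ^ d * ∑ j ∈ range (n - d), a j * (1 / 2 : ℝ) ^ j := by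
  induction n with
  | zero => simp
  | succ n ih =>
    rw [sum_range_succ, ih]
    by_cases h : d ≤ n
    · obtain ⟨m, rfl⟩ := Nat.exists_eq_add_of_le h
      rw [show d + m + 1 - d = m + 1 by omega, show d + m - d = m by omega, sum_range_succ, pow_add]
      ring
    · rw [show n + 1 - d = 0 by omega, show n - d = 0 by omega, h0]
      simp

theorem gs_num {ι κ : Type} [Fintype ι] [Fintype κ] (d : ι → ℕ) (e : κ → ℕ) (a : ℕ → ℕ)
    (C n : ℕ) (hn : 1 ≤ n) (h0 : a 0 = 0) (hC : ∀ j ≤ n, a j ≤ C)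
    (h : ∀ j, 1 ≤ j → j ≤ n → ∑ x, a (j - d x) + 1 ≤ a j + ∑ r, a (j - e r))
    (hdef : ∑ r, (1 / 2 : ℝ) ^ e r + 1 ≤ ∑ x, (1 / 2 : ℝ) ^ d x) :
    (1 / 2 : ℝ) ≤ Fintype.card ι * C * (1 / 2 : ℝ) ^ n := by
  set b : ℕ → ℝ := fun j => (a j : ℝ) with hb
  have hb0 : b 0 = 0 := by simp [hb, h0]
  have hbn : ∀ j, 0 ≤ b j := fun j => Nat.cast_nonneg _
  set S : ℕ → ℝ := fun m => ∑ j ∈ range m, b j * (1 / 2 : ℝ) ^ j with hS
  have hmono : ∀ m, m ≤ n + 1 → S m ≤ S (n + 1) := fun m hm =>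
    sum_le_sum_of_subset_of_nonneg (range_mono hm) fun j _ _ => mul_nonneg (hbn j) (by positivity)
  have htail : ∀ m l, m + l ≤ n + 1 →
      S (m + l) ≤ S m + 2 * C * ((1 / 2 : ℝ) ^ m - (1 / 2 : ℝ) ^ (m + l)) := by
    intro m l
    induction l with
    | zero => simp
    | succ l ih =>
      intro hl
      have h1 := ih (by omega)
      have h2 : b (m + l) ≤ C := by simp only [hb]; exact_mod_cast hC _ (by omega)
      have h3 : S (m + (l + 1)) = S (m + l) + b (m + l) * (1 / 2 : ℝ) ^ (m + l) :=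
        sum_range_succ _ _
      have h4 : 0 < (1 / 2 : ℝ) ^ (m + l) := by positivity
      rw [h3, ← add_assoc, pow_succ]
      nlinarith
  have hS0 : 0 ≤ S (n + 1) := sum_nonneg fun j _ => mul_nonneg (hbn j) (by positivity)
  have hup : ∀ r, ∑ j ∈ range (n + 1), b (j - e r) * (1 / 2 : ℝ) ^ j ≤
      (1 / 2 : ℝ) ^ e r * S (n + 1) := fun r => by
    rw [sum_shift b hb0]
    exact mul_le_mul_of_nonneg_left (hmono _ (by omega)) (by positivity)
  have hlo : ∀ x, (1 / 2 : ℝ) ^ d x * S (n + 1) - C * (1 / 2 : ℝ) ^ n ≤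
      ∑ j ∈ range (n + 1), b (j - d x) * (1 / 2 : ℝ) ^ j := fun x => by
    rw [sum_shift b hb0]
    have h1 := htail (n + 1 - d x) (n + 1 - (n + 1 - d x)) (by omega)
    rw [show n + 1 - d x + (n + 1 - (n + 1 - d x)) = n + 1 by omega] at h1
    have h2 : (1 / 2 : ℝ) ^ d x * (1 / 2 : ℝ) ^ (n + 1 - d x) ≤ (1 / 2 : ℝ) ^ (n + 1) := by
      rw [← pow_add]
      exact pow_le_pow_of_le_one (by norm_num) (by norm_num) (by omega)
    have h3 : 0 < (1 / 2 : ℝ) ^ d x := by positivity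
    have h4 : 0 < (1 / 2 : ℝ) ^ (n + 1) := by positivity
    have h5 : (0 : ℝ) ≤ C := Nat.cast_nonneg _
    have h6 := mul_le_mul_of_nonneg_left h1 h3.le
    have h7 := mul_le_mul_of_nonneg_left h2 h5
    have h8 : 0 ≤ C * ((1 / 2 : ℝ) ^ d x * (1 / 2 : ℝ) ^ (n + 1)) := by positivity
    rw [pow_succ] at h7
    change _ ≤ (1 / 2 : ℝ) ^ d x * S (n + 1 - d x)
    nlinarith
  have hsum : ∑ j ∈ range (n + 1), (∑ x, b (j - d x) + if j = 1 then 1 else 0) * (1 / 2 : ℝ) ^ j ≤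
      ∑ j ∈ range (n + 1), (b j + ∑ r, b (j - e r)) * (1 / 2 : ℝ) ^ j := by
    refine sum_le_sum fun j hj => mul_le_mul_of_nonneg_right ?_ (by positivity)
    have hj : j ≤ n := by simpa [Nat.lt_succ_iff] using hj
    rcases Nat.eq_zero_or_pos j with rfl | hj0
    · simp [hb0]
    · have : ((∑ x, a (j - d x) + 1 : ℕ) : ℝ) ≤ ((a j + ∑ r, a (j - e r) : ℕ) : ℝ) := by
        exact_mod_cast h j hj0 hj
      push_cast at this
      split_ifs <;> simp only [hb] <;> linarith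
  simp only [add_mul, sum_add_distrib, sum_mul, ite_mul, one_mul, zero_mul] at hsum
  rw [sum_comm, sum_comm (s := range (n + 1)) (t := (univ : Finset κ)), sum_ite_eq',
    if_pos (by simp; omega), pow_one] at hsum
  have h1 := sum_le_sum fun x (_ : x ∈ (univ : Finset ι)) => hlo x
  have h2 := sum_le_sum fun r (_ : r ∈ (univ : Finset κ)) => hup r
  rw [sum_sub_distrib, ← sum_mul, sum_const, card_univ, nsmul_eq_mul] at h1
  rw [← sum_mul] at h2
  have h3 := mul_le_mul_of_nonneg_right hdef hS0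
  change _ ≤ S (n + 1) + _ at hsum
  nlinarith

variable {G : Type} [Group G]

/-- `T` contains representatives of the cosets of `L'` met by `L` -/
def Cov (T : Finset G) (L' L : Subgroup G) : Prop := ∀ g ∈ L, ∃ t ∈ T, g * t⁻¹ ∈ L'

namespace Fam

/-- `R` is a family of relators for `K` in the group generated by `X`, with valid degrees -/
structure Rel (X R : Fam G) (K : Subgroup G) : Prop where
  deg : ∀ r, R.el r ∈ X.FG (R.deg r)
  mem : ∀ r, R.el r ∈ K
  le : K ≤ Subgroup.closure {x | ∃ g ∈ X.grp, ∃ r, x = g * R.el r * g⁻¹}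

theorem Rel.le_grp {X R : Fam G} {K : Subgroup G} (h : Rel X R K) : K ≤ X.grp := by
  refine h.le.trans ((Subgroup.closure_le _).2 ?_)
  rintro _ ⟨g, hg, r, rfl⟩
  exact X.grp.mul_mem (X.grp.mul_mem hg (h.deg r).1) (X.grp.inv_mem hg)

/-- the ideal defined by `K` -/
noncomputable def JJ (X : Fam G) (K : Subgroup G) : Submodule kk (Alg G) :=
  Submodule.span kk {a | ∃ g ∈ X.grp, ∃ x ∈ K, a = o g * (o x - 1)}

variable {X R : Fam G} {K : Subgroup G}

theorem JJ_le {W : Submodule kk (Alg G)} (h : ∀ g ∈ X.grp, ∀ x ∈ K, o g * (o x - 1) ∈ W) :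
    X.JJ K ≤ W :=
  Submodule.span_le.2 (by rintro _ ⟨g, hg, x, hx, rfl⟩; exact h g hg x hx)

theorem mem_JJ {g x : G} (hg : g ∈ X.grp) (hx : x ∈ K) : o g * (o x - 1) ∈ X.JJ K :=
  Submodule.subset_span ⟨g, hg, x, hx, rfl⟩

theorem mul_mem_JJ {a b : Alg G} (ha : a ∈ kS X.grp) (hb : b ∈ X.JJ K) : a * b ∈ X.JJ K := by
  refine kS_mul_mem (fun g hg => ?_) ha
  refine JJ_le (W := (X.JJ K).comap (LinearMap.mulLeft kk (o g))) (fun g' hg' x hx => ?_) hb
  rw [Submodule.mem_comap, LinearMap.mulLeft_apply, ← mul_assoc, ← o_mul]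
  exact mem_JJ (X.grp.mul_mem hg hg') hx

theorem JJ_mul_mem [hK : K.Normal] {a b : Alg G} (ha : a ∈ X.JJ K) (hb : b ∈ kS X.grp) :
    a * b ∈ X.JJ K := by
  refine mul_kS_mem (fun g hg => ?_) hb
  refine JJ_le (W := (X.JJ K).comap (LinearMap.mulRight kk (o g))) (fun g' hg' x hx => ?_) ha
  rw [Submodule.mem_comap, LinearMap.mulRight_apply]
  have e : o g' * (o x - 1) * o g = o (g' * g) * (o (g⁻¹ * x * g) - 1) := by
    rw [mul_sub, mul_sub, sub_mul, mul_one, mul_one, ← o_mul, ← o_mul, ← o_mul, ← o_mul]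
    congr 2; group
  rw [e]
  exact mem_JJ (X.grp.mul_mem hg' hg) (by simpa using hK.conj_mem x hx g⁻¹)

theorem JJ_le_kS (hK : K ≤ X.grp) : X.JJ K ≤ kS X.grp :=
  JJ_le fun _ hg _ hx => kS_mul (o_mem_kS hg) (sub_one_mem_kS (hK hx))

theorem aug_JJ {a : Alg G} (ha : a ∈ X.JJ K) : aug a = 0 :=
  JJ_le (W := LinearMap.ker aug.toLinearMap) (fun g _ x _ => by simp [aug_o]) ha

/-- the filtration modulo the ideal -/
noncomputable def CC (X : Fam G) (K : Subgroup G) (n : ℕ) : Submodule kk (Alg G) :=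
  X.Fil n ⊔ X.JJ K

theorem CC_mul [K.Normal] {m n l : ℕ} {a b : Alg G} (ha : a ∈ X.CC K m) (hb : b ∈ X.Fil n)
    (h : l ≤ m + n) : a * b ∈ X.CC K l := by
  obtain ⟨a1, h1, a2, h2, rfl⟩ := Submodule.mem_sup.1 ha
  rw [add_mul]
  exact Submodule.add_mem_sup (mul_mem' h1 hb h) (JJ_mul_mem h2 (Fil_le_kS _ hb))

theorem JJ_decomp [K.Normal] (hR : Rel X R K) {a : Alg G} (ha : a ∈ X.JJ K) :
    ∃ (c : R.ι → Alg G) (w : X.ι → Alg G), (∀ r, c r ∈ kS X.grp) ∧ (∀ x, w x ∈ X.JJ K) ∧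
      a = ∑ r, c r * (o (R.el r) - 1) + ∑ x, w x * (o (X.el x) - 1) := by
  classical
  let L : Submodule kk (Alg G) :=
    { carrier := {a | ∃ (c : R.ι → Alg G) (w : X.ι → Alg G), (∀ r, c r ∈ kS X.grp) ∧
        (∀ x, w x ∈ X.JJ K) ∧ a = ∑ r, c r * (o (R.el r) - 1) + ∑ x, w x * (o (X.el x) - 1)}
      zero_mem' := ⟨0, 0, fun _ => Submodule.zero_mem _, fun _ => Submodule.zero_mem _, by simp⟩
      add_mem' := by
        rintro _ _ ⟨c, w, hc, hw, rfl⟩ ⟨c', w', hc', hw', rfl⟩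
        refine ⟨c + c', w + w', fun r => Submodule.add_mem _ (hc r) (hc' r),
          fun x => Submodule.add_mem _ (hw x) (hw' x), ?_⟩
        simp only [Pi.add_apply, add_mul, sum_add_distrib]; abel
      smul_mem' := by
        rintro s _ ⟨c, w, hc, hw, rfl⟩
        refine ⟨s • c, s • w, fun r => Submodule.smul_mem _ _ (hc r),
          fun x => Submodule.smul_mem _ _ (hw x), ?_⟩
        simp only [Pi.smul_apply, smul_mul_assoc, smul_add, smul_sum] }
  have hL : ∀ b ∈ kS X.grp, ∀ a ∈ L, b * a ∈ L := by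
    rintro b hb _ ⟨c, w, hc, hw, rfl⟩
    refine ⟨fun r => b * c r, fun x => b * w x, fun r => kS_mul hb (hc r),
      fun x => mul_mem_JJ hb (hw x), ?_⟩
    simp only [mul_add, mul_sum, mul_assoc]
  have hK : ∀ x ∈ K, x ∈ X.grp ∧ o x - 1 ∈ L := by
    intro x hx
    replace hx := hR.le hx
    induction hx using Subgroup.closure_induction with
    | mem x hx =>
      obtain ⟨g, hg, r, rfl⟩ := hx
      refine ⟨X.grp.mul_mem (X.grp.mul_mem hg (hR.deg r).1) (X.grp.inv_mem hg), ?_⟩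
      obtain ⟨s, hs, hs'⟩ := strict le_rfl (sub_one_mem_Fil_one (X.grp.inv_mem hg))
      refine ⟨Pi.single r (o g), fun x => o g * (o (R.el r) - 1) * s x, fun r' => ?_,
        fun x => JJ_mul_mem (mem_JJ hg (hR.mem r)) (Fil_le_kS _ (hs x)), ?_⟩
      · rcases eq_or_ne r' r with rfl | h
        · rw [Pi.single_eq_same]; exact o_mem_kS hg
        · rw [Pi.single_eq_of_ne h]; exact Submodule.zero_mem _
      · rw [Finset.sum_eq_single r (fun r' _ h => by rw [Pi.single_eq_of_ne h, zero_mul])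
          (by simp), Pi.single_eq_same]
        simp only [mul_assoc, ← mul_sum, ← hs']
        rw [o_mul, o_mul]
        calc o g * (o (R.el r) * o g⁻¹) - 1 = o g * (o (R.el r) * o g⁻¹) - o g * o g⁻¹ := by
              rw [o_mul_inv]
          _ = _ := by noncomm_ring
    | one => exact ⟨X.grp.one_mem, by rw [o_one, sub_self]; exact L.zero_mem⟩
    | mul a b _ _ iha ihb =>
      refine ⟨X.grp.mul_mem iha.1 ihb.1, ?_⟩
      rw [cocycle]
      exact L.add_mem iha.2 (hL _ (o_mem_kS iha.1) _ ihb.2)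
    | inv a _ ih =>
      refine ⟨X.grp.inv_mem ih.1, ?_⟩
      rw [cocycle_inv]
      exact L.neg_mem (hL _ (o_mem_kS (X.grp.inv_mem ih.1)) _ ih.2)
  exact JJ_le (W := L) (fun g hg x hx => hL _ (o_mem_kS hg) _ (hK x hx).2) ha

/-- right multiplication on the algebra of a subgroup -/
noncomputable def rmul (M : Subgroup G) (a : Alg G) (ha : a ∈ kS M) : kS M →ₗ[kk] kS M :=
  (LinearMap.mulRight kk a).restrict fun _ hb => kS_mul hb ha

theorem rmul_coe (M : Subgroup G) (a : Alg G) (ha : a ∈ kS M) (b : kS M) :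
    (rmul M a ha b : Alg G) = b * a := rfl

/-- the quotient of the algebra by a term of the filtration -/
noncomputable abbrev QQ (X : Fam G) (K : Subgroup G) (n : ℕ) : Type :=
  kS X.grp ⧸ (X.CC K n).comap (kS X.grp).subtype

theorem sub_one_mem_CC [K.Normal] {n : ℕ} {g : G} (hg : g ∈ X.FG n ⊔ K) :
    o g - 1 ∈ X.CC K n := by
  obtain ⟨f, hf, x, hx, rfl⟩ := Subgroup.mem_sup_of_normal_right.1 hg
  rw [cocycle]
  exact Submodule.add_mem_sup hf.2 (mem_JJ hf.1 hx)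

theorem QQ_span [K.Normal] (hK : K ≤ X.grp) {n j : ℕ} (hj : j ≤ n) {T : Finset G}
    (hT : Cov T (X.FG n ⊔ K) X.grp) :
    Module.Finite kk (X.QQ K j) ∧ finrank kk (X.QQ K j) ≤ T.card := by
  classical
  let v : T → X.QQ K j := fun t =>
    if h : t.1 ∈ X.grp then Submodule.Quotient.mk ⟨o t.1, o_mem_kS h⟩ else 0
  have hv : Submodule.span kk (Set.range v) = ⊤ := by
    rw [eq_top_iff]
    rintro q -
    obtain ⟨⟨a, ha⟩, rfl⟩ := Submodule.Quotient.mk_surjective _ q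
    induction ha using Submodule.span_induction with
    | mem x hx =>
      obtain ⟨g, hg, rfl⟩ := hx
      obtain ⟨t, ht, hgt⟩ := hT g hg
      have htM : t ∈ X.grp := by
        have h1 : g * t⁻¹ ∈ X.grp := (sup_le (FG_le_grp n) hK) hgt
        have := X.grp.mul_mem (X.grp.inv_mem h1) hg
        simpa using this
      refine Submodule.subset_span ⟨⟨t, ht⟩, ?_⟩
      simp only [v, dif_pos htM]
      refine (Submodule.Quotient.eq _).2 ?_
      change o t - o g ∈ X.CC K j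
      have e : o t - o g = -((o (g * t⁻¹) - 1) * o t) := by
        rw [sub_mul, ← o_mul, inv_mul_cancel_right, one_mul, neg_sub]
      rw [e]
      exact Submodule.neg_mem _ (CC_mul (sub_one_mem_CC hgt) (kS_le_Fil_zero (o_mem_kS htM))
        (by omega))
    | zero => exact Submodule.zero_mem _
    | add x y hx hy ihx ihy => exact Submodule.add_mem _ ihx ihy
    | smul c x hx ih => exact Submodule.smul_mem _ c ih
  refine ⟨⟨?_⟩, ?_⟩
  · rw [← hv]; exact Submodule.fg_span (Set.finite_range v)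
  · simpa using finrank_le_of_span_eq_top hv

theorem gs_step [K.Normal] (hX : X.Free) (hR : Rel X R K) {n j : ℕ} (hj1 : 1 ≤ j) (hj : j ≤ n)
    {T : Finset G} (hT : Cov T (X.FG n ⊔ K) X.grp) :
    ∑ x, finrank kk (X.QQ K (j - X.deg x)) + 1 ≤
      finrank kk (X.QQ K j) + ∑ r, finrank kk (X.QQ K (j - R.deg r)) := by
  have hK := hR.le_grp
  have : ∀ x, Module.Finite kk (X.QQ K (j - X.deg x)) :=
    fun x => (QQ_span hK (by omega) hT).1
  have : ∀ r, Module.Finite kk (X.QQ K (j - R.deg r)) :=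
    fun r => (QQ_span hK (by omega) hT).1
  have : Module.Finite kk (X.QQ K j) := (QQ_span hK hj hT).1
  choose D hD hD' using fun r => strict (R.pos r) (hR.deg r).2
  refine gs_lin (fun x => (X.CC K (j - X.deg x)).comap (kS X.grp).subtype)
    (fun r => (X.CC K (j - R.deg r)).comap (kS X.grp).subtype)
    ((X.CC K j).comap (kS X.grp).subtype)
    (fun x => rmul X.grp (o (X.el x) - 1) (sub_one_mem_kS (X.el_mem x)))
    (fun r x => rmul X.grp (D r x) (Fil_le_kS _ (hD r x))) ?_ ?_ ?_ ?_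
  · intro x a ha
    exact CC_mul ha (u_mem x) (by omega)
  · intro r x a ha
    exact CC_mul ha (hD r x) (by omega)
  · intro v hv
    have hv : ∑ x, (v x : Alg G) * (o (X.el x) - 1) ∈ X.CC K j := by
      simpa [rmul_coe] using hv
    obtain ⟨b, hb, a, ha, e⟩ := Submodule.mem_sup.1 hv
    obtain ⟨v', hv', rfl⟩ := strict hj1 hb
    obtain ⟨c, w, hc, hw, rfl⟩ := JJ_decomp hR ha
    have := hX (fun x => v x - v' x - ∑ r, c r * D r x - w x) (fun x =>
      Submodule.sub_mem _ (Submodule.sub_mem _ (Submodule.sub_mem _ (v x).2 (Fil_le_kS _ (hv' x)))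
        (Submodule.sum_mem _ fun r _ => kS_mul (hc r) (Fil_le_kS _ (hD r x))))
        (JJ_le_kS hK (hw x))) (by
      simp only [sub_mul, sum_sub_distrib, sum_mul]
      rw [← e, sum_comm]
      simp only [hD', mul_sum, mul_assoc]
      abel)
    refine ⟨fun r => ⟨c r, hc r⟩, fun x => ?_⟩
    have e2 : (v x : Alg G) - ∑ r, c r * D r x = v' x + w x := by
      rw [← sub_eq_zero, ← this x]; abel
    have : (v x : Alg G) - ∑ r, c r * D r x ∈ X.CC K (j - X.deg x) := by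
      rw [e2]; exact Submodule.add_mem_sup (hv' x) (hw x)
    simpa [rmul_coe] using this
  · refine ⟨⟨1, one_mem_kS _⟩, fun v hv => ?_⟩
    have hv : ∑ x, (v x : Alg G) * (o (X.el x) - 1) - 1 ∈ X.CC K j := by
      simpa [rmul_coe] using hv
    obtain ⟨b, hb, a, ha, e⟩ := Submodule.mem_sup.1 hv
    have := congrArg aug e
    simp [aug_eq_zero hj1 hb, aug_JJ ha, aug_o] at this

/-- Golod-Shafarevich: with nonnegative deficiency the finite quotients grow. -/
theorem gs [K.Normal] (hX : X.Free) (hR : Rel X R K) (hdef : R.wt + 1 ≤ X.wt) {n : ℕ} (hn : 1 ≤ n)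
    {T : Finset G} (hT : Cov T (X.FG n ⊔ K) X.grp) :
    (1 / 2 : ℝ) ≤ Fintype.card X.ι * T.card * (1 / 2 : ℝ) ^ n := by
  refine gs_num X.deg R.deg (fun j => finrank kk (X.QQ K j)) T.card n hn ?_
    (fun j hj => (QQ_span hR.le_grp hj hT).2) (fun j h1 h2 => gs_step hX hR h1 h2 hT) hdef
  have : (X.CC K 0).comap (kS X.grp).subtype = ⊤ := by
    rw [eq_top_iff]
    rintro a -
    exact Submodule.mem_sup_left (kS_le_Fil_zero a.2)
  have : Subsingleton (X.QQ K 0) := Submodule.Quotient.subsingleton_iff.2 this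
  exact finrank_zero_of_subsingleton

end Fam

end Pool.Agent.Lib.MP_6cc228_al
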