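import Pool.Agent.Lib.MP_6cc228_al.Basis
import Pool.Agent.Lib.MP_6cc228_al.GS

/-!
Descent along the group filtration by steps of index three.
-/

namespace Pool.Agent.Lib.MP_6cc228_al

open Finset

variable {G : Type} [Group G]

theorem Cov.mono {T : Finset G} {L1 L2 L3 L4 : Subgroup G} (h : Cov T L1 L2) (h1 : L1 ≤ L3)
    (h2 : L4 ≤ L2) : Cov T L3 L4 := fun g hg => by
  obtain ⟨t, ht, h'⟩ := h g (h2 hg)
  exact ⟨t, ht, h1 h'⟩

/-- finite index -/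
def FI (L' L : Subgroup G) : Prop := ∃ T : Finset G, Cov T L' L

theorem FI.mono {L1 L2 L3 L4 : Subgroup G} (h : FI L1 L2) (h1 : L1 ≤ L3) (h2 : L4 ≤ L2) :
    FI L3 L4 := let ⟨T, hT⟩ := h; ⟨T, hT.mono h1 h2⟩

theorem FI.refl (L : Subgroup G) : FI L L := ⟨{1}, fun g hg => ⟨1, by simp, by simpa using hg⟩⟩

theorem FI.trans {L1 L2 L3 : Subgroup G} (h : FI L1 L2) (h' : FI L2 L3) : FI L1 L3 := by
  classical
  obtain ⟨T, hT⟩ := h
  obtain ⟨T', hT'⟩ := h'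
  refine ⟨(T ×ˢ T').image fun p => p.1 * p.2, fun g hg => ?_⟩
  obtain ⟨t', ht', h1⟩ := hT' g hg
  obtain ⟨t, ht, h2⟩ := hT _ h1
  refine ⟨t * t', mem_image.2 ⟨(t, t'), mem_product.2 ⟨ht, ht'⟩, rfl⟩, ?_⟩
  rwa [mul_inv_rev, ← mul_assoc]

theorem FI.sup {L1 L2 K : Subgroup G} [hK : K.Normal] (h : FI L1 L2) : FI (L1 ⊔ K) (L2 ⊔ K) := by
  obtain ⟨T, hT⟩ := h
  refine ⟨T, fun g hg => ?_⟩
  obtain ⟨l, hl, x, hx, rfl⟩ := Subgroup.mem_sup_of_normal_right.1 hg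
  obtain ⟨t, ht, h1⟩ := hT l hl
  refine ⟨t, ht, ?_⟩
  rw [show l * x * t⁻¹ = (l * t⁻¹) * (t * x * t⁻¹) by group]
  exact Subgroup.mul_mem_sup h1 (hK.conj_mem x hx t)

theorem exists_chi {P : Type} [Group P] (hcomm : ∀ a b : P, a * b = b * a)
    (h3 : ∀ a : P, a ^ 3 = 1) {v : P} (hv : v ≠ 1) :
    ∃ χ : P → kk, (∀ a b, χ (a * b) = χ a + χ b) ∧ χ v ≠ 0 := by
  letI : CommGroup P := { ‹Group P› with mul_comm := hcomm }
  letI : Module (ZMod 3) (Additive P) := AddCommGroup.zmodModule (n := 3) fun x => by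
    rw [← ofMul_toMul x, ← ofMul_pow, h3]; rfl
  have hv' : Additive.ofMul v ≠ 0 := hv
  obtain ⟨f, hf⟩ := not_forall.1
    ((Module.forall_dual_apply_eq_zero_iff (ZMod 3) (Additive.ofMul v)).not.2 hv')
  exact ⟨fun a => f (Additive.ofMul a), fun a b => map_add f _ _, hf⟩

/-- an additive character on the subgroup `M` -/
def IsChar (M : Subgroup G) (χ : G → kk) : Prop := ∀ a ∈ M, ∀ b ∈ M, χ (a * b) = χ a + χ b

section Char
variable {M : Subgroup G} {χ : G → kk}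

theorem IsChar.one (h : IsChar M χ) : χ 1 = 0 := by
  have := h 1 M.one_mem 1 M.one_mem
  simpa using this

theorem IsChar.inv (h : IsChar M χ) {a : G} (ha : a ∈ M) : χ a⁻¹ = -χ a := by
  have := h a ha _ (M.inv_mem ha)
  rw [mul_inv_cancel, h.one] at this
  exact (neg_eq_of_add_eq_zero_right this.symm).symm

theorem IsChar.pow (h : IsChar M χ) {a : G} (ha : a ∈ M) (l : ℕ) : χ (a ^ l) = l * χ a := by
  induction l with
  | zero => simp [h.one]
  | succ l ih => rw [pow_succ, h _ (M.pow_mem ha l) _ ha, ih]; push_cast; ring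

def IsChar.ker (h : IsChar M χ) : Subgroup G where
  carrier := {g | g ∈ M ∧ χ g = 0}
  one_mem' := ⟨M.one_mem, h.one⟩
  mul_mem' {a b} ha hb := ⟨M.mul_mem ha.1 hb.1, by rw [h a ha.1 b hb.1, ha.2, hb.2, add_zero]⟩
  inv_mem' {a} ha := ⟨M.inv_mem ha.1, by rw [h.inv ha.1, ha.2, neg_zero]⟩

/-- the exponent used to move an element into the kernel -/
def jj (χ : G → kk) (h g : G) : ℕ := (χ g * (χ h)⁻¹).val

theorem IsChar.adj_mem (hχ : IsChar M χ) {h g : G} (hh : h ∈ M) (hg : g ∈ M) (h0 : χ h ≠ 0) :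
    g * (h ^ jj χ h g)⁻¹ ∈ hχ.ker := by
  refine ⟨M.mul_mem hg (M.inv_mem (M.pow_mem hh _)), ?_⟩
  rw [hχ _ hg _ (M.inv_mem (M.pow_mem hh _)), hχ.inv (M.pow_mem hh _), hχ.pow hh, jj,
    ZMod.natCast_zmod_val, inv_mul_cancel_right₀ h0, add_neg_cancel]

omit [Group G] in
theorem jj_ne_zero {h g : G} (hj : jj χ h g ≠ 0) : χ g ≠ 0 := by
  intro h0
  simp [jj, h0] at hj

theorem IsChar.conj_mem (hχ : IsChar M χ) {h : G} (hh : h ∈ M) :
    ∀ g ∈ hχ.ker, h * g * h⁻¹ ∈ hχ.ker := fun g hg =>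
  ⟨M.mul_mem (M.mul_mem hh hg.1) (M.inv_mem hh), by
    rw [hχ _ (M.mul_mem hh hg.1) _ (M.inv_mem hh), hχ _ hh _ hg.1, hχ.inv hh, hg.2]; ring⟩

theorem IsChar.le_sup (hχ : IsChar M χ) {h : G} (hh : h ∈ M) (h0 : χ h ≠ 0) {W : Subgroup G}
    (h1 : hχ.ker ≤ W) (h2 : h ∈ W) : M ≤ W := fun g hg => by
  have := W.mul_mem (h1 (hχ.adj_mem hh hg h0)) (W.pow_mem h2 (jj χ h g))
  rwa [inv_mul_cancel_right] at this

theorem IsChar.step_le (hχ : IsChar M χ) {S : Fam G} (hS : S.grp ≤ M) {i0 : S.ι}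
    (h0 : χ (S.el i0) ≠ 0) : (S.step i0 fun i => jj χ (S.el i0) (S.el i)).grp ≤ hχ.ker := by
  have hh := hS (S.el_mem i0)
  refine Fam.grp_le (Fam.forall_step (P := fun g _ => g ∈ hχ.ker) ⟨M.pow_mem hh 3, ?_⟩ ?_)
  · rw [hχ.pow hh]
    have : ((3 : ℕ) : kk) = 0 := by decide
    rw [this, zero_mul]
  · intro i _ k _
    exact cm_mem (hχ.conj_mem hh) (hχ.adj_mem hh (hS (S.el_mem i)) h0) k

theorem IsChar.ker_le_step {S : Fam G} (hχ : IsChar S.grp χ) {i0 : S.ι}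
    (h0 : χ (S.el i0) ≠ 0) : hχ.ker ≤ (S.step i0 fun i => jj χ (S.el i0) (S.el i)).grp := by
  intro g hg
  obtain ⟨l, hl, h⟩ := Fam.exists_pow_step (i0 := i0) (j := fun i => jj χ (S.el i0) (S.el i)) hg.1
  have hh := S.grp.pow_mem (S.el_mem i0) l
  have h1 := (hχ.step_le le_rfl h0 h).2
  rw [hχ _ hg.1 _ (S.grp.inv_mem hh), hχ.inv hh, hχ.pow (S.el_mem i0), hg.2, zero_add,
    neg_eq_zero, mul_eq_zero] at h1
  have h2 : (l : kk) = 0 := h1.resolve_right h0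
  have : l = 0 := by
    interval_cases l
    · rfl
    · exact absurd h2 (by decide)
    · exact absurd h2 (by decide)
  subst this
  simpa using h

theorem IsChar.lin_mul (hχ : IsChar M χ) {a : Alg G} (ha : a ∈ kS M) {y : G} (hy : y ∈ M) :
    lin χ (a * (o y - 1)) = aug a * χ y := by
  refine kS_induction (P := fun a => lin χ (a * (o y - 1)) = aug a * χ y) ha ?_ (by simp) ?_ ?_
  · intro g hg
    rw [mul_sub, mul_one, ← o_mul, map_sub, lin_o, lin_o, hχ g hg y hy, aug_o]; ring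
  · intro a b _ _ h1 h2; rw [add_mul, map_add, h1, h2, map_add, add_mul]
  · intro c a _ h1; rw [smul_mul_assoc, map_smul, h1, map_smul, smul_mul_assoc]

theorem IsChar.eq_zero_of_deg {Y : Fam G} (hχ : IsChar Y.grp χ) {n : ℕ} (hn : 1 ≤ n)
    (h : ∀ i, χ (Y.el i) ≠ 0 → Y.deg i < n) {f : G} (hf : f ∈ Y.FG n) : χ f = 0 := by
  obtain ⟨c, hc, e⟩ := Fam.strict hn hf.2
  have h1 := congrArg (lin χ) e
  rw [map_sub, ← o_one, lin_o, lin_o, hχ.one, sub_zero, map_sum, o_one] at h1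
  rw [h1]
  refine sum_eq_zero fun i _ => ?_
  rw [hχ.lin_mul (Fam.Fil_le_kS _ (hc i)) (Y.el_mem i)]
  by_cases hi : χ (Y.el i) = 0
  · rw [hi, mul_zero]
  · rw [Fam.aug_eq_zero (by have := h i hi; omega) (hc i), zero_mul]

end Char

namespace Fam

/-- the filtration of `X` is invariant under all conjugations -/
def Inv (X : Fam G) : Prop := ∀ (g : G) (i : X.ι), g * X.el i * g⁻¹ ∈ X.FG (X.deg i)

theorem Inv.normal {X : Fam G} (h : X.Inv) (n : ℕ) : (X.FG n).Normal :=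
  ⟨fun _ hx g => conj_mem_FG_of (h g) n hx⟩

theorem exists_char {X : Fam G} (hX : X.Inv) {K M : Subgroup G} [K.Normal] {n : ℕ} (hn : 1 ≤ n)
    (hM : M ≤ X.FG n ⊔ K) (hne : ¬ M ≤ X.FG (n + 1) ⊔ K) :
    ∃ χ : G → kk, IsChar M χ ∧ (∀ g ∈ X.FG (n + 1) ⊔ K, χ g = 0) ∧ ∃ g ∈ M, χ g ≠ 0 := by
  classical
  have := hX.normal (n + 1)
  set L := X.FG (n + 1) ⊔ K with hL
  let P := (X.FG n).map (QuotientGroup.mk' L)
  have hP : ∀ g ∈ X.FG n ⊔ K, QuotientGroup.mk' L g ∈ P := by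
    intro g hg
    obtain ⟨f, hf, x, hx, rfl⟩ := Subgroup.mem_sup_of_normal_right.1 hg
    refine ⟨f, hf, ?_⟩
    rw [map_mul, QuotientGroup.mk'_apply L x,
      (QuotientGroup.eq_one_iff x).2 (Subgroup.mem_sup_right hx), mul_one]
  obtain ⟨v, hv, hvL⟩ := SetLike.not_le_iff_exists.1 hne
  obtain ⟨χ, hχ, hχv⟩ := exists_chi (P := P) (by
      rintro ⟨_, a, ha, rfl⟩ ⟨_, b, hb, rfl⟩
      refine Subtype.ext ?_
      change QuotientGroup.mk' L a * QuotientGroup.mk' L b =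
        QuotientGroup.mk' L b * QuotientGroup.mk' L a
      rw [← map_mul, ← map_mul]
      refine QuotientGroup.eq.2 (Subgroup.mem_sup_left (FG_anti (m := n + n) (by omega) ?_))
      have := comm_mem_FG (Subgroup.inv_mem _ hb) (Subgroup.inv_mem _ ha)
      rwa [show b⁻¹ * a⁻¹ * b⁻¹⁻¹ * a⁻¹⁻¹ = (a * b)⁻¹ * (b * a) by group] at this)
    (by
      rintro ⟨_, a, ha, rfl⟩
      refine Subtype.ext ?_
      change QuotientGroup.mk' L a ^ 3 = 1
      rw [← map_pow]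
      exact (QuotientGroup.eq_one_iff _).2
        (Subgroup.mem_sup_left (FG_anti (by omega) (cube_mem_FG ha))))
    (v := ⟨_, hP v (hM hv)⟩) (fun h => hvL ((QuotientGroup.eq_one_iff v).1 (congrArg Subtype.val h)))
  have h1 : χ 1 = 0 := by simpa using hχ 1 1
  have hLle : L ≤ X.FG n ⊔ K := sup_le_sup_right (FG_anti (Nat.le_succ n)) K
  refine ⟨fun g => if h : g ∈ X.FG n ⊔ K then χ ⟨_, hP g h⟩ else 0, ?_, ?_, v, hv, ?_⟩
  · intro a ha b hb
    simp only [dif_pos (hM ha), dif_pos (hM hb), dif_pos (hM (M.mul_mem ha hb)), ← hχ]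
    rfl
  · intro g hg
    simp only [dif_pos (hLle hg)]
    rw [← h1]
    congr 1
    exact Subtype.ext ((QuotientGroup.eq_one_iff g).2 hg)
  · simpa only [dif_pos (hM hv)] using hχv

/-- weighted deficiency -/
noncomputable def df (Y Q : Fam G) : ℝ := Y.wt - Q.wt - 1

/-- a state of the descent at level `n` -/
structure St (X : Fam G) (K H : Subgroup G) (n : ℕ) (Y Q S : Fam G) : Prop where
  free : Y.Free
  rel : Rel Y Q K
  fg : ∀ m g, g ∈ Y.FG m ↔ g ∈ X.FG m ∧ g ∈ Y.grp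
  lo : X.FG (n + 1) ≤ Y.grp
  hi : Y.grp ≤ X.FG n ⊔ K
  cov : FI Y.grp X.grp
  pos : 0 < df Y Q
  sdeg : ∀ i, S.el i ∈ X.FG (S.deg i)
  sn : ∀ i, n ≤ S.deg i
  smem : S.grp ≤ Y.grp
  sle : S.grp ≤ H
  scov : FI (S.grp ⊔ K) H

/-- progress from one state to another, with the family `E` of gained elements -/
structure Prog (X : Fam G) (H : Subgroup G) (Y Q S Y' Q' S' E : Fam G) : Prop where
  deg : ∀ i, E.el i ∈ X.FG (E.deg i)
  le : Y.grp ≤ Y'.grp ⊔ H ⊔ E.grp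
  gain : ∀ a : ℝ, 0 ≤ a → a * S.wt ≤ df Y Q → a * (1 + E.wt) * S'.wt ≤ df Y' Q'

theorem Prog.refl (X : Fam G) (H : Subgroup G) (Y Q S : Fam G) :
    Prog X H Y Q S Y Q S (empty G) :=
  ⟨fun i => i.elim, le_sup_of_le_left le_sup_left, fun a _ h => by simpa [wt_empty] using h⟩

theorem grp_le_sum_left (E E' : Fam G) : E.grp ≤ (E.sum E').grp :=
  grp_le fun i => (E.sum E').el_mem (Sum.inl i)

theorem grp_le_sum_right (E E' : Fam G) : E'.grp ≤ (E.sum E').grp :=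
  grp_le fun i => (E.sum E').el_mem (Sum.inr i)

theorem Prog.trans {X : Fam G} {H : Subgroup G} {Y Q S Y' Q' S' Y'' Q'' S'' E E' : Fam G}
    (h : Prog X H Y Q S Y' Q' S' E) (h' : Prog X H Y' Q' S' Y'' Q'' S'' E') :
    Prog X H Y Q S Y'' Q'' S'' (E.sum E') := by
  refine ⟨?_, ?_, fun a ha h1 => ?_⟩
  · rintro (i | i)
    · exact h.deg i
    · exact h'.deg i
  · refine h.le.trans (sup_le (sup_le (h'.le.trans (sup_le_sup_left (grp_le_sum_right _ _) _))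
      (le_sup_of_le_left le_sup_right)) (le_sup_of_le_right (grp_le_sum_left _ _)))
  · have e1 := E.wt_nonneg
    have e2 := E'.wt_nonneg
    have e3 := S''.wt_nonneg
    refine le_trans ?_ (h'.gain _ (by positivity) (h.gain a ha h1))
    rw [wt_sum]
    have : 0 ≤ a * (E.wt * E'.wt) * S''.wt := by positivity
    nlinarith

/-- number of generators of degree at most `n` -/
noncomputable def cnt (n : ℕ) (Y : Fam G) : ℕ := ∑ i, if Y.deg i ≤ n then 1 else 0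

theorem cnt_step {n : ℕ} {Y : Fam G} {i0 : Y.ι} {j : Y.ι → ℕ} (h : Y.deg i0 = n) :
    cnt n (Y.step i0 j) < cnt n Y := by
  have hn : 1 ≤ n := h ▸ Y.pos i0
  rw [cnt, cnt, sum_step, sum_adj (i0 := i0) (j := j), if_pos h.le]
  change (if 3 * Y.deg i0 ≤ n then 1 else 0) + ∑ i : (Y.adj i0 j).ι,
    ((if Y.deg i.1 + 0 * Y.deg i0 ≤ n then 1 else 0) +
      (if Y.deg i.1 + 1 * Y.deg i0 ≤ n then 1 else 0) +
      (if Y.deg i.1 + 2 * Y.deg i0 ≤ n then 1 else 0)) < _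
  rw [if_neg (by omega), zero_add, add_comm 1, Nat.lt_succ_iff]
  refine sum_le_sum fun i _ => ?_
  have := Y.pos i.1
  rw [if_neg (show ¬ Y.deg i.1 + 1 * Y.deg i0 ≤ n by omega),
    if_neg (show ¬ Y.deg i.1 + 2 * Y.deg i0 ≤ n by omega)]
  simp

theorem rel_step {Y Q : Fam G} {K : Subgroup G} [hK : K.Normal] (hR : Rel Y Q K) {i0 : Y.ι}
    {j : Y.ι → ℕ} (h1 : Y.el i0 ∉ (Y.step i0 j).grp)
    (h2 : Y.el i0 * Y.el i0 ∉ (Y.step i0 j).grp) (hj : ∀ i, j i ≠ 0 → Y.deg i ≤ Y.deg i0)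
    (hKle : K ≤ (Y.step i0 j).grp) : Rel (Y.step i0 j) (Q.exp (Y.el i0) (Y.deg i0)) K := by
  have hmem : ∀ p : (Q.exp (Y.el i0) (Y.deg i0)).ι, (Q.exp (Y.el i0) (Y.deg i0)).el p ∈ K :=
    fun p => cm_mem (fun g hg => hK.conj_mem g hg _) (hR.mem p.1) p.2
  refine ⟨fun p => (FG_step h1 h2 hj _ _).2 ⟨cm_mem_FG (el_mem_FG i0) (hR.deg p.1) p.2,
    hKle (hmem p)⟩, hmem, hR.le.trans ((Subgroup.closure_le _).2 ?_)⟩
  rintro _ ⟨g, hg, r, rfl⟩
  obtain ⟨l, hl, hg'⟩ := exists_pow_step (i0 := i0) (j := j) hg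
  have key : ∀ k : Fin 3, (g * (Y.el i0 ^ l)⁻¹) * cm (Y.el i0) k (Q.el r) * (g * (Y.el i0 ^ l)⁻¹)⁻¹ ∈
      Subgroup.closure {x | ∃ g ∈ (Y.step i0 j).grp, ∃ r,
        x = g * (Q.exp (Y.el i0) (Y.deg i0)).el r * g⁻¹} :=
    fun k => Subgroup.subset_closure ⟨_, hg', (r, k), rfl⟩
  have k0 := key 0
  have k1 := key 1
  have k2 := key 2
  simp only [Fin.val_zero, Fin.val_one, Fin.val_two, cm] at k0 k1 k2
  rw [SetLike.mem_coe]
  interval_cases l
  · simpa using k0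
  · have := Subgroup.mul_mem _ k1 k0
    refine (congrArg (· ∈ _) ?_).mp this
    group
  · have := Subgroup.mul_mem _ (Subgroup.mul_mem _ k2 k1) (Subgroup.mul_mem _ k1 k0)
    refine (congrArg (· ∈ _) ?_).mp this
    simp only [pow_two]
    group

theorem FI_step (S : Fam G) (i0 : S.ι) (j : S.ι → ℕ) : FI (S.step i0 j).grp S.grp := by
  classical
  refine ⟨(range 3).image fun l => S.el i0 ^ l, fun g hg => ?_⟩
  obtain ⟨l, hl, h⟩ := exists_pow_step (i0 := i0) (j := j) hg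
  exact ⟨_, mem_image.2 ⟨l, mem_range.2 hl, rfl⟩, h⟩

theorem St.step {X : Fam G} (hX : X.Inv) {K H : Subgroup G} [K.Normal] {n : ℕ} (hn : 1 ≤ n)
    {Y Q S : Fam G} (h : St X K H n Y Q S) (hne : ¬ Y.grp ≤ X.FG (n + 1) ⊔ K) :
    ∃ Y' Q' S' E, St X K H n Y' Q' S' ∧ Prog X H Y Q S Y' Q' S' E ∧ cnt n Y' < cnt n Y := by
  classical
  obtain ⟨χ, hχ, hχ0, g0, hg0, hg0'⟩ := exists_char hX hn h.hi hne
  have hKY := h.rel.le_grp
  obtain ⟨f, hf, x, hx, rfl⟩ := Subgroup.mem_sup_of_normal_right.1 (h.hi hg0)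
  have hfY : f ∈ Y.grp := (Y.grp.mul_mem_cancel_right (hKY hx)).1 hg0
  have hχf : χ f ≠ 0 := by
    rwa [hχ f hfY x (hKY hx), hχ0 x (Subgroup.mem_sup_right hx), add_zero] at hg0'
  have hle : ∀ (g : G) (m : ℕ), g ∈ X.FG m → χ g ≠ 0 → m ≤ n := fun g m hg hg' => by
    by_contra hlt
    exact hg' (hχ0 g (Subgroup.mem_sup_left (FG_anti (by omega) hg)))
  obtain ⟨i0, hi0, hd⟩ : ∃ i0, χ (Y.el i0) ≠ 0 ∧ Y.deg i0 = n := by
    by_contra hcon
    push Not at hcon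
    refine hχf (hχ.eq_zero_of_deg hn (fun i hi => ?_) ((h.fg n f).2 ⟨hf, hfY⟩))
    exact lt_of_le_of_ne (hle _ _ ((h.fg _ _).1 (el_mem_FG i)).1 hi) (hcon i hi)
  set j : Y.ι → ℕ := fun i => jj χ (Y.el i0) (Y.el i) with hjdef
  have hj : ∀ i, j i ≠ 0 → Y.deg i ≤ Y.deg i0 := fun i hi =>
    hd ▸ hle _ _ ((h.fg _ _).1 (el_mem_FG i)).1 (jj_ne_zero hi)
  have hk1 : (Y.step i0 j).grp ≤ hχ.ker := hχ.step_le le_rfl hi0
  have hk2 : hχ.ker ≤ (Y.step i0 j).grp := hχ.ker_le_step hi0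
  have h1 : Y.el i0 ∉ (Y.step i0 j).grp := fun hh => hi0 (hk1 hh).2
  have h2 : Y.el i0 * Y.el i0 ∉ (Y.step i0 j).grp := fun hh => by
    have := (hk1 hh).2
    rw [hχ _ (Y.el_mem i0) _ (Y.el_mem i0), ← two_mul, mul_eq_zero] at this
    exact hi0 (this.resolve_left (by decide))
  have hdf : df (Y.step i0 j) (Q.exp (Y.el i0) (Y.deg i0)) = PP n * df Y Q := by
    have := wt_step Y i0 j
    rw [df, df, wt_exp]
    rw [hd] at this ⊢
    linarith
  have hPP := one_le_PP n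
  have hpw : 0 < (1 / 2 : ℝ) ^ n := by positivity
  have hpos := h.pos
  have base : ∀ S' : Fam G, (∀ i, S'.el i ∈ X.FG (S'.deg i)) → (∀ i, n ≤ S'.deg i) →
      S'.grp ≤ hχ.ker → S'.grp ≤ H → FI (S'.grp ⊔ K) H →
      St X K H n (Y.step i0 j) (Q.exp (Y.el i0) (Y.deg i0)) S' := fun S' a1 a2 a3 a4 a5 =>
    { free := free_step h.free h1 h2
      rel := rel_step h.rel h1 h2 hj
        (fun x hx => hk2 ⟨hKY hx, hχ0 x (Subgroup.mem_sup_right hx)⟩)
      fg := fun m g => by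
        rw [FG_step h1 h2 hj, h.fg]
        exact ⟨fun hh => ⟨hh.1.1, hh.2⟩, fun hh => ⟨⟨hh.1, step_le hh.2⟩, hh.2⟩⟩
      lo := fun g hg => hk2 ⟨h.lo hg, hχ0 g (Subgroup.mem_sup_left hg)⟩
      hi := step_le.trans h.hi
      cov := (FI_step Y i0 j).trans h.cov
      pos := by rw [hdf]; exact mul_pos (by linarith) hpos
      sdeg := a1
      sn := a2
      smem := a3.trans hk2
      sle := a4
      scov := a5 }
  by_cases hS : ∃ i1, χ (S.el i1) ≠ 0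
  · obtain ⟨i1, hi1⟩ := hS
    have hd1 : S.deg i1 = n := le_antisymm (hle _ _ (h.sdeg i1) hi1) (h.sn i1)
    refine ⟨_, _, S.step i1 fun i => jj χ (S.el i1) (S.el i), empty G,
      base _ (step_mem_FG h.sdeg fun i hi => hd1 ▸ hle _ _ (h.sdeg i) (jj_ne_zero hi))
        (forall_step (P := fun _ m => n ≤ m) (by omega) fun i _ k _ => le_add_right (h.sn i))
        (hχ.step_le h.smem hi1) (step_le.trans h.sle) ((FI_step S i1 _).sup.trans h.scov),
      ⟨fun i => i.elim, ?_, fun a ha hh => ?_⟩, cnt_step hd⟩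
    · exact hχ.le_sup (h.smem (S.el_mem i1)) hi1 (hk2.trans (le_sup_of_le_left le_sup_left))
        (Subgroup.mem_sup_left (Subgroup.mem_sup_right (h.sle (S.el_mem i1))))
    · have := wt_step_le S i1 fun i => jj χ (S.el i1) (S.el i)
      rw [hd1] at this
      rw [hdf, wt_empty, add_zero, mul_one]
      nlinarith [mul_le_mul_of_nonneg_left this ha]
  · push Not at hS
    refine ⟨_, _, S, single f n hn,
      base _ h.sdeg h.sn (grp_le fun i => ⟨h.smem (S.el_mem i), hS i⟩) h.sle h.scov,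
      ⟨fun _ => hf, ?_, fun a ha hh => ?_⟩, cnt_step hd⟩
    · exact hχ.le_sup hfY hχf (hk2.trans (le_sup_of_le_left le_sup_left))
        (Subgroup.mem_sup_right ((single f n hn).el_mem ()))
    · rw [hdf, wt_single]
      nlinarith

theorem St.level {X : Fam G} (hX : X.Inv) {K H : Subgroup G} [K.Normal] {n : ℕ} (hn : 1 ≤ n)
    (c : ℕ) : ∀ {Y Q S : Fam G}, St X K H n Y Q S → cnt n Y ≤ c →
      ∃ Y' Q' S' E, St X K H n Y' Q' S' ∧ Prog X H Y Q S Y' Q' S' E ∧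
        Y'.grp ≤ X.FG (n + 1) ⊔ K := by
  induction c using Nat.strong_induction_on with
  | _ c ih =>
    intro Y Q S h hc
    by_cases hle : Y.grp ≤ X.FG (n + 1) ⊔ K
    · exact ⟨Y, Q, S, _, h, Prog.refl _ _ _ _ _, hle⟩
    · obtain ⟨Y', Q', S', E, h', hp, hlt⟩ := h.step hX hn hle
      obtain ⟨Y'', Q'', S'', E', h'', hp', hle'⟩ := ih (cnt n Y') (by omega) h' le_rfl
      exact ⟨Y'', Q'', S'', _, h'', hp.trans hp', hle'⟩

theorem St.bump {X : Fam G} {K H : Subgroup G} [K.Normal] (hKH : K ≤ H) {n : ℕ} {Y Q S : Fam G}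
    (h : St X K H n Y Q S) (hle : Y.grp ≤ X.FG (n + 1) ⊔ K) :
    ∃ S', St X K H (n + 1) Y Q S' ∧ Prog X H Y Q S Y Q S' (empty G) := by
  have : ∀ i, ∃ f ∈ X.FG (max (S.deg i) (n + 1)), ∃ x ∈ K, f * x = S.el i := by
    intro i
    rcases le_total (S.deg i) (n + 1) with hi | hi
    · rw [max_eq_right hi]
      exact Subgroup.mem_sup_of_normal_right.1 (hle (h.smem (S.el_mem i)))
    · rw [max_eq_left hi]
      exact ⟨_, h.sdeg i, 1, K.one_mem, mul_one _⟩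
  choose f hf x hx e using this
  let S' : Fam G := ⟨S.ι, f, fun i => max (S.deg i) (n + 1), fun i => by omega⟩
  have hmem : ∀ W : Subgroup G, K ≤ W → S.grp ≤ W → S'.grp ≤ W := fun W h1 h2 =>
    grp_le fun i => (W.mul_mem_cancel_right (h1 (hx i))).1 (by rw [e]; exact h2 (S.el_mem i))
  refine ⟨S', ⟨h.free, h.rel, h.fg, (FG_anti (by omega)).trans h.lo, hle, h.cov, h.pos, hf,
    fun i => le_max_right _ _, hmem _ h.rel.le_grp h.smem, hmem _ hKH h.sle,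
    h.scov.mono (sup_le (grp_le fun i => ?_) le_sup_right) le_rfl⟩,
    fun i => i.elim, le_sup_of_le_left le_sup_left, fun a ha hh => ?_⟩
  · rw [← e]
    exact Subgroup.mul_mem_sup (S'.el_mem i) (hx i)
  · have : S'.wt ≤ S.wt := sum_le_sum fun i _ =>
      pow_le_pow_of_le_one (by norm_num) (by norm_num) (le_max_left _ _)
    rw [wt_empty, add_zero, mul_one]
    exact (mul_le_mul_of_nonneg_left this ha).trans hh

theorem St.levels {X : Fam G} (hX : X.Inv) {K H : Subgroup G} [K.Normal] (hKH : K ≤ H) {m : ℕ}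
    (hm : 1 ≤ m) {Y Q S : Fam G} (h : St X K H m Y Q S) (hY : X.FG m ≤ Y.grp) {n : ℕ}
    (hn : m ≤ n) : ∃ Y' Q' S' E, St X K H n Y' Q' S' ∧ Prog X H Y Q S Y' Q' S' E ∧
      X.FG n ≤ Y'.grp := by
  induction n, hn using Nat.le_induction with
  | base => exact ⟨Y, Q, S, _, h, Prog.refl _ _ _ _ _, hY⟩
  | succ n hn ih =>
    obtain ⟨Y1, Q1, S1, E1, h1, hp1, -⟩ := ih
    obtain ⟨Y2, Q2, S2, E2, h2, hp2, hle⟩ := St.level hX (by omega) _ h1 le_rfl
    obtain ⟨S3, h3, hp3⟩ := h2.bump hKH hle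
    exact ⟨Y2, Q2, S3, _, h3, (hp1.trans hp2).trans hp3, h2.lo⟩

end Fam

end Pool.Agent.Lib.MP_6cc228_al
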