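import Pool.Agent.Lib.MP_6cc228_al.Top

/-!
Centralizers of arbitrary elements: Dietzmann's lemma for an element of finite order and the
steps of the construction with control of the closure of the kernel.
-/

namespace Pool.Agent.Lib.MP_6cc228_al

open Finset

variable {G : Type} [Group G]

theorem pull {Q : Type} [Group Q] [DecidableEq Q] (C : Set Q)
    (hC : ∀ g, ∀ b ∈ C, g⁻¹ * b * g ∈ C) (c : Q) : ∀ l : List Q, (∀ a ∈ l, a ∈ C) →
      ∃ l' : List Q, (∀ a ∈ l', a ∈ C) ∧ l'.length + l.count c = l.length ∧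
        l.prod = c ^ l.count c * l'.prod := by
  intro l
  induction l with
  | nil => exact fun _ => ⟨[], by simp, by simp, by simp⟩
  | cons b t ih =>
    intro h
    obtain ⟨t', h1, h2, h3⟩ := ih fun a ha => h a (List.mem_cons_of_mem _ ha)
    by_cases hb : b = c
    · subst hb
      refine ⟨t', h1, ?_, ?_⟩
      · rw [List.count_cons_self, List.length_cons]; omega
      · rw [List.count_cons_self, List.prod_cons, h3, pow_succ', mul_assoc]
    · refine ⟨((c ^ t.count c)⁻¹ * b * c ^ t.count c) :: t', ?_, ?_, ?_⟩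
      · intro a ha
        rcases List.mem_cons.1 ha with rfl | ha
        · exact hC _ _ (h b List.mem_cons_self)
        · exact h1 a ha
      · rw [List.count_cons_of_ne hb, List.length_cons, List.length_cons]; omega
      · rw [List.count_cons_of_ne hb, List.prod_cons, List.prod_cons, h3]; group

theorem exists_short {Q : Type} [Group Q] (C : Set Q) (hC : ∀ g, ∀ b ∈ C, g⁻¹ * b * g ∈ C)
    {q : ℕ} (hq : 0 < q) (h2 : ∀ a ∈ C, a ^ q = 1) (B : Finset Q) (hB : ∀ a ∈ C, a ∈ B) (n : ℕ) :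
    ∀ l : List Q, l.length ≤ n → (∀ a ∈ l, a ∈ C) →
      ∃ l' : List Q, l'.length ≤ q * B.card ∧ (∀ a ∈ l', a ∈ C) ∧ l'.prod = l.prod := by
  classical
  induction n using Nat.strong_induction_on with
  | _ n ih =>
    intro l hl hlC
    by_cases h : ∀ c ∈ l, l.count c ≤ q
    · refine ⟨l, ?_, hlC, rfl⟩
      rw [← List.sum_toFinset_count_eq_length, mul_comm]
      refine (sum_le_card_nsmul _ _ q fun c hc => h c (List.mem_toFinset.1 hc)).trans ?_
      exact Nat.mul_le_mul_right _ (card_le_card fun c hc => hB c (hlC c (List.mem_toFinset.1 hc)))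
    · push Not at h
      obtain ⟨c, hc, hlt⟩ := h
      obtain ⟨l1, h3, h4, h5⟩ := pull C hC c l hlC
      obtain ⟨l', h6, h7, h8⟩ := ih (l.length - q) (by omega)
        (List.replicate (l.count c - q) c ++ l1) (by simp; omega) (by
          intro a ha
          rcases List.mem_append.1 ha with ha | ha
          · rw [List.eq_of_mem_replicate ha]; exact hlC c hc
          · exact h3 a ha)
      refine ⟨l', h6, h7, ?_⟩
      rw [h8, h5, List.prod_append, List.prod_replicate]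
      conv_rhs => rw [show l.count c = q + (l.count c - q) by omega, pow_add, h2 c (hlC c hc),
        one_mul]

/-- Dietzmann's lemma for an element of finite order, quantitative form -/
theorem dietz {i : G} {K H : Subgroup G} [hK : K.Normal] {q : ℕ} (hq : 0 < q) (hiq : i ^ q ∈ K)
    (hH : ∀ h ∈ H, h * i * h⁻¹ * i⁻¹ ∈ K) (hgen : Subgroup.normalClosure {i} ⊔ K = ⊤)
    {T0 : Finset G} (hT : Cov T0 (H ⊔ K) ⊤) :
    ∃ T : Finset G, Cov T K ⊤ ∧ T.card ≤ (T0.card + 1) ^ (q * T0.card) := by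
  classical
  let π := QuotientGroup.mk' K
  have hi : π i ^ q = 1 := by rw [← map_pow]; exact (QuotientGroup.eq_one_iff _).2 hiq
  let C : Set (G ⧸ K) := {a | ∃ g, a = g⁻¹ * π i * g}
  have hCC : ∀ g, ∀ b ∈ C, g⁻¹ * b * g ∈ C := by
    rintro g _ ⟨x, rfl⟩
    exact ⟨x * g, by group⟩
  have hC2 : ∀ a ∈ C, a ^ q = 1 := by
    rintro _ ⟨g, rfl⟩
    have := conj_pow (a := g⁻¹) (b := π i) (i := q)
    rw [inv_inv] at this
    rw [this, hi]; group
  let B0 : Finset (G ⧸ K) := T0.image fun t => π (t⁻¹ * i * t)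
  have hCT : ∀ a ∈ C, a ∈ B0 := by
    rintro _ ⟨g, rfl⟩
    obtain ⟨g, rfl⟩ := QuotientGroup.mk'_surjective K g
    obtain ⟨t, ht, hg⟩ := hT g trivial
    obtain ⟨h, hh, x, hx, e⟩ := Subgroup.mem_sup_of_normal_right.1 hg
    refine mem_image.2 ⟨t, ht, ?_⟩
    have eg : g = h * x * t := by rw [e]; group
    have h1 : π x = 1 := (QuotientGroup.eq_one_iff x).2 hx
    have h2 : π (h⁻¹ * i * h⁻¹⁻¹ * i⁻¹) = 1 :=
      (QuotientGroup.eq_one_iff _).2 (hH _ (H.inv_mem hh))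
    have h3 : (π h)⁻¹ * π i * π h = π i := by
      simp only [map_mul, map_inv, inv_inv] at h2
      exact mul_inv_eq_one.1 h2
    change π (t⁻¹ * i * t) = (π g)⁻¹ * π i * π g
    rw [eg]
    simp only [map_mul, map_inv, h1, mul_one]
    calc (π t)⁻¹ * π i * π t = (π t)⁻¹ * ((π h)⁻¹ * π i * π h) * π t := by rw [h3]
      _ = _ := by group
  have hgen' : ∀ g : G, ∃ l : List (G ⧸ K), (∀ a ∈ l, a ∈ C) ∧ l.prod = π g := by
    intro g
    have hg : g ∈ Subgroup.normalClosure {i} ⊔ K := hgen ▸ trivial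
    obtain ⟨y, hy, x, hx, rfl⟩ := Subgroup.mem_sup_of_normal_right.1 hg
    rw [map_mul, show π x = 1 from (QuotientGroup.eq_one_iff x).2 hx, mul_one]
    clear hg
    induction hy using Subgroup.closure_induction_left with
    | one => exact ⟨[], by simp, by simp⟩
    | mul_left a ha b _ ih =>
      obtain ⟨l, h1, h2⟩ := ih
      obtain ⟨_, rfl, hc⟩ := Group.mem_conjugatesOfSet_iff.1 ha
      obtain ⟨c, rfl⟩ := isConj_iff.1 hc
      refine ⟨π (c * _ * c⁻¹) :: l, fun z hz => ?_, by rw [List.prod_cons, h2, ← map_mul]⟩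
      rcases List.mem_cons.1 hz with rfl | hz
      · exact ⟨(π c)⁻¹, by simp⟩
      · exact h1 z hz
    | inv_mul_cancel a ha b _ ih =>
      obtain ⟨l, h1, h2⟩ := ih
      have hm : π a ∈ C := by
        obtain ⟨_, rfl, hc⟩ := Group.mem_conjugatesOfSet_iff.1 ha
        obtain ⟨c, rfl⟩ := isConj_iff.1 hc
        exact ⟨(π c)⁻¹, by simp⟩
      refine ⟨List.replicate (q - 1) (π a) ++ l, fun z hz => ?_, ?_⟩
      · rcases List.mem_append.1 hz with hz | hz
        · rw [List.eq_of_mem_replicate hz]; exact hm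
        · exact h1 z hz
      · rw [List.prod_append, List.prod_replicate, h2, map_mul π _ b, map_inv]
        congr 1
        refine eq_inv_of_mul_eq_one_left ?_
        rw [← pow_succ, Nat.sub_add_cancel hq]
        exact hC2 _ hm
  let B : Finset (G ⧸ K) := insert 1 B0
  have hB1 : B.card ≤ T0.card + 1 := (card_insert_le _ _).trans (Nat.succ_le_succ card_image_le)
  let ev : (Fin (q * T0.card) → G ⧸ K) → G := fun f => (List.ofFn f).prod.out
  refine ⟨(Fintype.piFinset fun _ => B).image ev, fun g _ => ?_, ?_⟩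
  · obtain ⟨l, h1, h2⟩ := hgen' g
    obtain ⟨l', h0, h3, h4⟩ := exists_short C hCC hq hC2 B0 hCT _ l le_rfl h1
    have hlen : l'.length ≤ q * T0.card := h0.trans (Nat.mul_le_mul_left _ card_image_le)
    let l'' := l' ++ List.replicate (q * T0.card - l'.length) 1
    have hl'' : l''.length = q * T0.card := by simp [l'']; omega
    let f : Fin (q * T0.card) → G ⧸ K := fun k => l''.get (k.cast hl''.symm)
    have hf : List.ofFn f = l'' := by
      rw [← List.ofFn_get l'']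
      exact (List.ofFn_congr hl'' l''.get).symm
    refine ⟨ev f, mem_image.2 ⟨f, Fintype.mem_piFinset.2 fun k => ?_, rfl⟩, ?_⟩
    · have : f k ∈ l'' := List.get_mem _ _
      rcases List.mem_append.1 this with h | h
      · exact mem_insert_of_mem (hCT _ (h3 _ h))
      · rw [List.eq_of_mem_replicate h]; exact mem_insert_self _ _
    · rw [← QuotientGroup.eq_one_iff, QuotientGroup.mk_mul, QuotientGroup.mk_inv]
      simp only [ev, hf, QuotientGroup.out_eq', l'', List.prod_append, List.prod_replicate,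
        one_pow, mul_one, h4, h2]
      exact mul_inv_cancel _
  · refine card_image_le.trans ?_
    rw [Fintype.card_piFinset]
    simp only [prod_const, card_univ, Fintype.card_fin]
    exact Nat.pow_le_pow_left hB1 _

/-- `i` normally generates every quotient in which `F` becomes a `3`-group -/
def Base2 (F : Subgroup G) (i : G) : Prop :=
  ∀ K : Subgroup G, K.Normal → (∀ g ∈ F, ∃ a, g ^ (3 ^ a) ∈ K) →
    Subgroup.normalClosure {i} ⊔ K = ⊤

namespace Fam

theorem Top.gain2 {F K H : Subgroup G} [K.Normal] {i : G} (hB : Base2 F i) {q : ℕ} (hq : 0 < q)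
    (hiq : i ^ q ∈ K) {X R : Fam G} (h : Top F K X R) (hKH : K ≤ H)
    (hH : ∀ n, ∀ x ∈ H, x * i * x⁻¹ * i⁻¹ ∈ X.FG n ⊔ K) :
    ∃ ε : ℝ, 0 < ε ∧ ∀ m, 1 ≤ m → ∀ Y Q S, St X K H m Y Q S → X.FG m ≤ Y.grp →
      ∃ n, 1 ≤ n ∧ ∃ Y' Q' S', St X K H n Y' Q' S' ∧ X.FG n ≤ Y'.grp ∧
        ∀ a : ℝ, 0 ≤ a → a * S.wt ≤ df Y Q → a * (1 + ε) * S'.wt ≤ df Y' Q' := by
  obtain ⟨ε, hε, hadd⟩ := h.add
  refine ⟨ε, hε, fun m hm Y Q S hS hY => ?_⟩
  obtain ⟨T0, hT0⟩ := hS.cov.trans h.fin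
  obtain ⟨n, hn, hlt⟩ :=
    exists_large ((Fintype.card X.ι : ℝ) * (((T0.card + 1) ^ (q * T0.card) : ℕ) : ℝ)) m
  obtain ⟨Y', Q', S', E, hS', hp, hY'⟩ := hS.levels h.inv hKH hm hY hn
  have hE : ε ≤ E.wt := by
    by_contra hcon
    obtain ⟨R', h'⟩ := hadd E hp.deg (not_le.1 hcon)
    have := h.inv.normal n
    obtain ⟨T, hT, hcard⟩ := dietz (i := i) (K := X.FG n ⊔ (K ⊔ E.ncl)) (H := H) hq
      (Subgroup.mem_sup_right (Subgroup.mem_sup_left hiq))
      (fun x hx => (show X.FG n ⊔ K ≤ X.FG n ⊔ (K ⊔ E.ncl) from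
        sup_le_sup_left le_sup_left _) (hH n x hx))
      (hB _ inferInstance fun g hg => (h.odd n hg).imp fun a ha => Subgroup.mem_sup_left ha)
      (hT0.mono (hp.le.trans (sup_le (sup_le (le_sup_of_le_right
        (hS'.hi.trans (sup_le_sup_left le_sup_left _))) le_sup_left)
        (le_sup_of_le_right (le_sup_of_le_right (le_sup_of_le_right (grp_le_ncl E)))))) le_rfl)
    have hpos := h'.pos
    rw [df] at hpos
    have h1 := gs h'.free h'.rel (by linarith) (hm.trans hn) (hT.mono le_rfl le_top)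
    have h2 : (T.card : ℝ) ≤ (((T0.card + 1) ^ (q * T0.card) : ℕ) : ℝ) := by exact_mod_cast hcard
    have h3 : (Fintype.card X.ι : ℝ) * T.card * (1 / 2 : ℝ) ^ n ≤
        (Fintype.card X.ι : ℝ) * (((T0.card + 1) ^ (q * T0.card) : ℕ) : ℝ) * (1 / 2 : ℝ) ^ n := by
      gcongr
    linarith
  refine ⟨n, hm.trans hn, Y', Q', S', hS', hY', fun a ha hh => le_trans ?_ (hp.gain a ha hh)⟩
  have := S'.wt_nonneg
  gcongr

theorem Top.exists_ratio2 {F K H : Subgroup G} [K.Normal] {i : G} (hB : Base2 F i) {q : ℕ}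
    (hq : 0 < q) (hiq : i ^ q ∈ K) {X R : Fam G} (h : Top F K X R) (hKH : K ≤ H)
    (hH : ∀ n, ∀ x ∈ H, x * i * x⁻¹ * i⁻¹ ∈ X.FG n ⊔ K) {S : Fam G} (hS : St X K H 1 X R S) :
    ∃ n, 1 ≤ n ∧ ∃ Y' Q' S', St X K H n Y' Q' S' ∧ X.FG n ≤ Y'.grp ∧ 2 * S'.wt ≤ df Y' Q' := by
  obtain ⟨ε, hε, hg⟩ := h.gain2 hB hq hiq hKH hH
  have hpos := h.pos
  have hw := S.wt_nonneg
  set a0 := df X R / (S.wt + 1) with ha0
  have ha0' : 0 < a0 := by positivity
  have key : ∀ s : ℕ, ∃ n, 1 ≤ n ∧ ∃ Y' Q' S', St X K H n Y' Q' S' ∧ X.FG n ≤ Y'.grp ∧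
      a0 * (1 + ε) ^ s * S'.wt ≤ df Y' Q' := by
    intro s
    induction s with
    | zero =>
      refine ⟨1, le_rfl, X, R, S, hS, FG_le_grp 1, ?_⟩
      rw [pow_zero, mul_one, ha0, div_mul_eq_mul_div, div_le_iff₀ (by positivity)]
      nlinarith
    | succ s ih =>
      obtain ⟨n, hn, Y, Q, S1, h1, h2, h3⟩ := ih
      obtain ⟨n', hn', Y', Q', S', h1', h2', h3'⟩ := hg n hn Y Q S1 h1 h2
      refine ⟨n', hn', Y', Q', S', h1', h2', ?_⟩
      rw [pow_succ, ← mul_assoc]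
      exact h3' _ (by positivity) h3
  obtain ⟨s, hs⟩ := pow_unbounded_of_one_lt (2 / a0) (show 1 < 1 + ε by linarith)
  obtain ⟨n, hn, Y', Q', S', h1, h2, h3⟩ := key s
  refine ⟨n, hn, Y', Q', S', h1, h2, le_trans ?_ h3⟩
  rw [div_lt_iff₀ ha0'] at hs
  exact mul_le_mul_of_nonneg_right (by linarith) S'.wt_nonneg

/-- the filtration of `X` is cofinal in that of `Y` -/
def Cof (X Y : Fam G) : Prop := ∀ n, ∃ d, X.FG d ≤ Y.FG n

theorem Cof.trans {X Y Z : Fam G} (h : Cof X Y) (h' : Cof Y Z) : Cof X Z := fun n =>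
  let ⟨d, hd⟩ := h' n
  let ⟨e, he⟩ := h d
  ⟨e, he.trans hd⟩

theorem shift_FG_le (Y : Fam G) (m k : ℕ) : (Y.shift m).FG ((m + 1) * k) ≤ Y.FG k := by
  have key : ∀ n, (Y.shift m).Fil n ≤ Y.Fil (n / (m + 1)) := by
    refine Fil_induction (X := Y.shift m) (C := fun n => Y.Fil (n / (m + 1))) ?_ ?_
    · rw [Nat.zero_div]; exact kS_le_Fil_zero (X := Y)
    · intro n j a _ ha
      refine gen_mem (X := Y) j (Fil_anti ?_ ha)
      change n / (m + 1) - Y.deg j ≤ (n - (Y.deg j + m)) / (m + 1)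
      rw [Nat.le_div_iff_mul_le (Nat.succ_pos m), Nat.sub_mul]
      have h1 := Nat.div_mul_le_self n (m + 1)
      have h2 : Y.deg j + m ≤ Y.deg j * (m + 1) := by have := Y.pos j; nlinarith
      change n / (m + 1) * (m + 1) - Y.deg j * (m + 1) ≤ _
      omega
  intro g hg
  refine ⟨hg.1, ?_⟩
  have := key _ hg.2
  rwa [Nat.mul_div_cancel_left _ (Nat.succ_pos m)] at this

theorem Top.contract2 {F K H : Subgroup G} [K.Normal] {X R : Fam G} (h : Top F K X R) {n : ℕ}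
    {Y Q S : Fam G} (hS : St X K H n Y Q S) (hY : X.FG n ≤ Y.grp) (h2 : 2 * S.wt ≤ df Y Q) :
    ∃ X' R' S' : Fam G, Top F K X' R' ∧ (∀ i, S'.el i ∈ X'.FG (S'.deg i)) ∧ S'.wt < 1 ∧
      FI (S'.grp ⊔ K) H ∧ Cof X' X ∧ Cof X X' := by
  classical
  have hex : ∃ m : ℕ, (1 / 2 : ℝ) ^ m * S.wt < 1 := by
    obtain ⟨m, -, hm⟩ := exists_large S.wt 0
    exact ⟨m, by linarith⟩
  obtain ⟨m, hm1, hm2⟩ : ∃ m : ℕ, (1 / 2 : ℝ) ^ m * S.wt < 1 ∧
      1 < (1 / 2 : ℝ) ^ m * (df Y Q + 1) := by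
    refine ⟨Nat.find hex, Nat.find_spec hex, ?_⟩
    have hpos := hS.pos
    rcases hm : Nat.find hex with _ | m
    · simpa using hpos
    · have h1 := not_lt.1 (Nat.find_min hex (show m < Nat.find hex by omega))
      have h3 : 0 < (1 / 2 : ℝ) ^ m := by positivity
      rw [pow_succ]
      nlinarith
  have := h.inv.normal n
  have hYe : Y.grp = X.FG n ⊔ K := le_antisymm hS.hi (sup_le hY hS.rel.le_grp)
  have hYn : Y.grp.Normal := by rw [hYe]; infer_instance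
  refine ⟨Y.shift m, Q.shift m, S.shift m, ⟨hS.free,
    ⟨fun r => FG_le_shift m (Q.pos r) (hS.rel.deg r), hS.rel.mem, hS.rel.le⟩, fun g i => ?_,
    hS.cov.trans h.fin, ?_, fun g hg => (h.odd n hg).imp fun a ha => hY ha, ?_⟩,
    fun i => FG_le_shift m (S.pos i) ((hS.fg _ _).2 ⟨hS.sdeg i, hS.smem (S.el_mem i)⟩),
    by rwa [wt_shift], hS.scov,
    fun k => ⟨(m + 1) * k, fun g hg => ((hS.fg _ _).1 (shift_FG_le Y m k hg)).1⟩,
    fun d => ⟨d + n + 1, fun g hg => FG_anti (by omega) (FG_le_shift m (n := d + n + 1) (by omega)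
      ((hS.fg _ _).2 ⟨hg, hY (FG_anti (by omega) hg)⟩))⟩⟩
  · exact FG_le_shift m (Y.pos i) ((hS.fg _ _).2
      ⟨(h.inv.normal _).conj_mem _ ((hS.fg _ _).1 (el_mem_FG (X := Y) i)).1 g,
        hYn.conj_mem _ (Y.el_mem i) g⟩)
  · exact (hS.hi.trans (sup_le (FG_le_grp n) h.rel.le_grp)).trans h.le
  · rw [df, wt_shift, wt_shift]
    rw [df] at hm2
    linarith

theorem Top.FI_FG {F K : Subgroup G} [K.Normal] {X R : Fam G} (h : Top F K X R) (n : ℕ) :
    FI (X.FG n ⊔ K) ⊤ := by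
  have hb : (empty G).grp ≤ ⊥ := grp_le fun i => i.elim
  have hSt : St X K K 1 X R (empty G) :=
    { free := h.free
      rel := h.rel
      fg := fun m g => ⟨fun hg => ⟨hg, hg.1⟩, fun hg => hg.1⟩
      lo := FG_le_grp _
      hi := le_sup_of_le_left grp_le_FG_one
      cov := FI.refl _
      pos := h.pos
      sdeg := fun j => j.elim
      sn := fun j => j.elim
      smem := hb.trans bot_le
      sle := hb.trans bot_le
      scov := (FI.refl K).mono le_sup_right le_rfl }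
  obtain ⟨Y, Q, S, E, h1, -, -⟩ := hSt.levels h.inv le_rfl le_rfl (FG_le_grp 1)
    (show 1 ≤ n + 1 by omega)
  exact (h1.cov.trans h.fin).mono (h1.hi.trans (sup_le_sup_right (FG_anti (by omega)) _)) le_rfl

omit [Group G] in
theorem le_deg_of_wt {S : Fam G} {d : ℕ} (h : S.wt < (1 / 2 : ℝ) ^ d) (j : S.ι) : d ≤ S.deg j := by
  by_contra hc
  have h1 : (1 / 2 : ℝ) ^ d ≤ (1 / 2 : ℝ) ^ S.deg j :=
    pow_le_pow_of_le_one (by norm_num) (by norm_num) (by omega)
  have h2 : (1 / 2 : ℝ) ^ S.deg j ≤ S.wt :=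
    single_le_sum (f := fun j => (1 / 2 : ℝ) ^ S.deg j) (fun _ _ => by positivity) (mem_univ j)
  linarith

end Fam

/-- closure of `K` in the topology given by the filtration of `X0` -/
noncomputable def cl (X0 : Fam G) (K : Subgroup G) : Subgroup G := ⨅ n, X0.FG n ⊔ K

theorem cl_le (X0 : Fam G) (K : Subgroup G) (n : ℕ) : cl X0 K ≤ X0.FG n ⊔ K := iInf_le _ n

theorem le_cl (X0 : Fam G) (K : Subgroup G) : K ≤ cl X0 K := le_iInf fun _ => le_sup_right

theorem cl_mono (X0 : Fam G) {K K' : Subgroup G} (h : K ≤ K') : cl X0 K ≤ cl X0 K' :=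
  iInf_mono fun _ => sup_le_sup_left h _

/-- `K` carries top level data compatible with the topology of `X0` -/
def Good2 (F : Subgroup G) (X0 : Fam G) (K : Subgroup G) : Prop :=
  K.Normal ∧ ∃ X R, Fam.Top F K X R ∧ X.Cof X0 ∧ X0.Cof X

variable {F K : Subgroup G} {X0 : Fam G}

theorem Good2.cl_le_F (h : Good2 F X0 K) : cl X0 K ≤ F := by
  obtain ⟨-, X, R, h, -, h2⟩ := h
  obtain ⟨d, hd⟩ := h2 1
  exact (cl_le X0 K d).trans
    (sup_le (hd.trans ((Fam.FG_le_grp 1).trans h.le)) (h.rel.le_grp.trans h.le))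

theorem Good2.not_FI (h : Good2 F X0 K) : ¬ FI (cl X0 K) ⊤ := by
  obtain ⟨hK, X, R, h, -, h2⟩ := h
  rintro ⟨T, hT⟩
  obtain ⟨n, hn, hlt⟩ := Fam.exists_large ((Fintype.card X.ι : ℝ) * T.card) 1
  obtain ⟨d, hd⟩ := h2 n
  have hpos := h.pos
  rw [Fam.df] at hpos
  have := Fam.gs h.free h.rel (by linarith) hn
    (hT.mono ((cl_le X0 K d).trans (sup_le_sup_right hd _)) le_top)
  linarith

theorem Good2.FI_FG (h : Good2 F X0 K) (n : ℕ) : FI (X0.FG n ⊔ K) ⊤ := by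
  obtain ⟨hK, X, R, h, h1, -⟩ := h
  obtain ⟨d, hd⟩ := h1 n
  exact (h.FI_FG d).mono (sup_le_sup_right hd _) le_rfl

theorem Good2.kill_pow (hX0 : X0.Inv) (h : Good2 F X0 K) {g : G} (hg : g ∈ F) (N : ℕ) :
    ∃ K', Good2 F X0 K' ∧ K ≤ K' ∧ K' ≤ X0.FG N ⊔ K ∧ ∃ a, g ^ (3 ^ a) ∈ K' := by
  obtain ⟨hK, X, R, h, h1, h2⟩ := h
  obtain ⟨ε, hε, hadd⟩ := h.add
  obtain ⟨d, hd⟩ := h1 N
  obtain ⟨n, hn, hlt⟩ := Fam.exists_large (1 / ε) (d + 1)
  obtain ⟨a, ha⟩ := h.odd n hg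
  have hn1 : 1 ≤ n := by omega
  obtain ⟨R', h'⟩ := hadd (Fam.single _ n hn1) (fun _ => ha) (by
    rw [Fam.wt_single]
    rw [one_div, inv_mul_lt_iff₀ hε] at hlt
    linarith)
  have := hX0.normal N
  refine ⟨_, ⟨inferInstance, X, R', h', h1, h2⟩, le_sup_left, sup_le le_sup_right
    (le_sup_of_le_left (Subgroup.normalClosure_le_normal ?_)), a,
    Subgroup.mem_sup_right (Fam.grp_le_ncl _ ((Fam.single _ n hn1).el_mem ()))⟩
  rintro _ ⟨j, rfl⟩
  exact hd (Fam.FG_anti (by omega) ha)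

theorem comm_of_closure {M : Subgroup G} [hM : M.Normal] {i : G} {s : Set G}
    (hs : ∀ x ∈ s, x * i * x⁻¹ * i⁻¹ ∈ M) (hKM : K ≤ M) :
    ∀ x ∈ Subgroup.closure s ⊔ K, x * i * x⁻¹ * i⁻¹ ∈ M := by
  let π := QuotientGroup.mk' M
  have key : ∀ x, x ∈ (Subgroup.centralizer {π i}).comap π ↔ x * i * x⁻¹ * i⁻¹ ∈ M := by
    intro x
    rw [Subgroup.mem_comap, Subgroup.mem_centralizer_singleton_iff, ← QuotientGroup.eq_one_iff]
    change _ ↔ π (x * i * x⁻¹ * i⁻¹) = 1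
    simp only [map_mul, map_inv]
    rw [mul_inv_eq_one, mul_inv_eq_iff_eq_mul]
  have : Subgroup.closure s ⊔ K ≤ (Subgroup.centralizer {π i}).comap π := by
    refine sup_le ((Subgroup.closure_le _).2 fun x hx => (key x).2 (hs x hx)) fun x hx => ?_
    rw [Subgroup.mem_comap, show π x = 1 from (QuotientGroup.eq_one_iff x).2 (hKM hx)]
    exact Subgroup.one_mem _
  exact fun x hx => (key x).1 (this hx)

theorem Good2.kill_fg (hX0 : X0.Inv) {i : G} (hB : Base2 F i) {q : ℕ} (hq : 0 < q)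
    (hiq : i ^ q ∈ K) (h : Good2 F X0 K) (s : Finset G)
    (hs : ∀ x ∈ s, x * i * x⁻¹ * i⁻¹ ∈ cl X0 K) (N : ℕ) :
    ∃ K', Good2 F X0 K' ∧ K ≤ K' ∧ K' ≤ X0.FG N ⊔ K ∧ FI K' (Subgroup.closure (s : Set G)) := by
  obtain ⟨hK, X, R, h, c1, c2⟩ := h
  set H0 := Subgroup.closure (s : Set G) with hH0
  have hH : ∀ n, ∀ x ∈ H0 ⊔ K, x * i * x⁻¹ * i⁻¹ ∈ X.FG n ⊔ K := by
    intro n
    have := h.inv.normal n
    obtain ⟨d, hd⟩ := c2 n
    exact comm_of_closure
      (fun x hx => ((cl_le X0 K d).trans (sup_le_sup_right hd _)) (hs x hx)) le_sup_right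
  have := h.fin.finiteIndex
  have hfg : (X.grp.subgroupOf H0).FG :=
    (Group.fg_iff_subgroup_fg _).1 (Subgroup.fg_of_index_ne_zero _)
  obtain ⟨s1, hs1⟩ : ∃ s1 : Finset G, Subgroup.closure (s1 : Set G) = X.grp ⊓ H0 := by
    classical
    obtain ⟨s0, hs0⟩ := hfg
    refine ⟨s0.image H0.subtype, ?_⟩
    rw [coe_image, ← MonoidHom.map_closure, hs0, Subgroup.subgroupOf_map_subtype]
  let S : Fam G := ⟨s1, Subtype.val, fun _ => 1, fun _ => le_rfl⟩
  have hS : S.grp = X.grp ⊓ H0 := by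
    rw [← hs1, Fam.grp]
    congr 1
    exact Subtype.range_coe
  have hSt : Fam.St X K (H0 ⊔ K) 1 X R S :=
    { free := h.free
      rel := h.rel
      fg := fun m g => ⟨fun hg => ⟨hg, hg.1⟩, fun hg => hg.1⟩
      lo := Fam.FG_le_grp _
      hi := le_sup_of_le_left Fam.grp_le_FG_one
      cov := FI.refl _
      pos := h.pos
      sdeg := fun j => Fam.grp_le_FG_one (hS ▸ S.el_mem j : S.el j ∈ X.grp ⊓ H0).1
      sn := fun _ => le_rfl
      smem := hS ▸ inf_le_left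
      sle := hS ▸ le_sup_of_le_left inf_le_right
      scov := hS ▸ (h.fin.inf H0).sup }
  obtain ⟨n, -, Y, Q, S1, h1, h2, h3⟩ := h.exists_ratio2 hB hq hiq le_sup_right hH hSt
  obtain ⟨X', R', S2, h4, h5, h6, h7, c3, c4⟩ := h.contract2 h1 h2 h3
  obtain ⟨ε, hε, hadd⟩ := h4.add
  obtain ⟨d, hd⟩ := c3.trans c1 N
  obtain ⟨S3, h8, h9, h10⟩ := Fam.rounds X' S2 h5 h6
    (lt_min hε (show (0 : ℝ) < (1 / 2) ^ d by positivity))
  obtain ⟨R'', h11⟩ := hadd S3 h8 (h10.trans_le (min_le_left _ _))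
  have := hX0.normal N
  refine ⟨_, ⟨inferInstance, X', R'', h11, c3.trans c1, c2.trans c4⟩, le_sup_left,
    sup_le le_sup_right (le_sup_of_le_left (Subgroup.normalClosure_le_normal ?_)),
    (h9.sup.trans h7).mono
      (sup_le (le_sup_of_le_right (Fam.grp_le_ncl _)) le_sup_left) le_sup_left⟩
  rintro _ ⟨j, rfl⟩
  exact hd (Fam.FG_anti (Fam.le_deg_of_wt (h10.trans_le (min_le_right _ _)) j) (h8 j))

end Pool.Agent.Lib.MP_6cc228_al
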