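import Pool.Agent.Lib.MP_6cc228_al.Eqv1

/-!
The residually finite limit and the starting group attached to a finite simple group.
-/

namespace Pool.Agent.Lib.MP_6cc228_al

open Finset

section Limit
variable {G : Type} [Group G] {F : Subgroup G} {X0 : Fam G}

theorem Good2.next (hX0 : X0.Inv) (hB : ∀ i ∉ F, Base2 F i) {q : ℕ} (hq : 0 < q)
    (hqF : ∀ g : G, g ^ q ∈ F) (K : {K // Good2 F X0 K} × ℕ) (p : G × G × Finset G) :
    ∃ K' : {K // Good2 F X0 K} × ℕ, K.1.1 ≤ K'.1.1 ∧ K.2 ≤ K'.2 ∧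
      K'.1.1 ≤ X0.FG K'.2 ⊔ K.1.1 ∧ (p.1 ∉ cl X0 K.1.1 → p.1 ∉ X0.FG K'.2 ⊔ K.1.1) ∧
      (p.1 ∈ F → ∃ a, p.1 ^ (3 ^ a) ∈ K'.1.1) ∧
      (p.2.1 ∉ F → (∀ x ∈ p.2.2, x * p.2.1 * x⁻¹ * p.2.1⁻¹ ∈ cl X0 K.1.1) →
        FI K'.1.1 (Subgroup.closure (p.2.2 : Set G))) := by
  obtain ⟨⟨K, hK⟩, N⟩ := K
  obtain ⟨g, i, s⟩ := p
  obtain ⟨N', hN, hg⟩ : ∃ N', N ≤ N' ∧ (g ∉ cl X0 K → g ∉ X0.FG N' ⊔ K) := by
    by_cases h : g ∈ cl X0 K
    · exact ⟨N, le_rfl, fun h' => absurd h h'⟩
    · obtain ⟨n, hn⟩ := not_forall.1 (Subgroup.mem_iInf.not.1 h)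
      exact ⟨max N n, le_max_left _ _, fun _ h' =>
        hn (sup_le_sup_right (Fam.FG_anti (le_max_right _ _)) K h')⟩
  obtain ⟨K1, h1, h2, h3, h4⟩ : ∃ K1, Good2 F X0 K1 ∧ K ≤ K1 ∧ K1 ≤ X0.FG N' ⊔ K ∧
      (g ∈ F → ∃ a, g ^ (3 ^ a) ∈ K1) := by
    by_cases h : g ∈ F
    · obtain ⟨K1, h1, h2, h3, h4⟩ := hK.kill_pow hX0 h N'
      exact ⟨K1, h1, h2, h3, fun _ => h4⟩
    · exact ⟨K, hK, le_rfl, le_sup_right, fun h' => absurd h' h⟩
  by_cases h : i ∉ F ∧ ∀ x ∈ s, x * i * x⁻¹ * i⁻¹ ∈ cl X0 K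
  · obtain ⟨K2, h5, h6, h7, a, ha⟩ := h1.kill_pow hX0 (hqF i) N'
    rw [← pow_mul] at ha
    obtain ⟨K3, h8, h9, h10, h11⟩ := h5.kill_fg hX0 (hB i h.1) (by positivity) ha s
      (fun x hx => cl_mono X0 (h2.trans h6) (h.2 x hx)) N'
    exact ⟨(⟨K3, h8⟩, N'), h2.trans (h6.trans h9), hN,
      h10.trans (sup_le le_sup_left (h7.trans (sup_le le_sup_left h3))), hg,
      fun hp => (h4 hp).imp fun a ha => h9 (h6 ha), fun _ _ => h11⟩
  · exact ⟨(⟨K1, h1⟩, N'), h2, hN, h3, hg, h4, fun a b => absurd ⟨a, b⟩ h⟩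

theorem exists_limit2 [Countable G] [Group.FG G] (hX0 : X0.Inv) (hB : ∀ i ∉ F, Base2 F i)
    {q : ℕ} (hq : 0 < q) (hqF : ∀ g : G, g ^ q ∈ F) {K0 : Subgroup G} (h0 : Good2 F X0 K0) :
    ∃ L : Subgroup G, L.Normal ∧ L ≤ F ∧ ¬ FI L ⊤ ∧ (∀ g ∈ F, ∃ a, g ^ (3 ^ a) ∈ L) ∧
      (∀ i ∉ F, ∀ s : Finset G, (∀ x ∈ s, x * i * x⁻¹ * i⁻¹ ∈ L) →
        FI L (Subgroup.closure (s : Set G))) ∧
      ∀ g ∉ L, ∃ M : Subgroup G, FI M ⊤ ∧ L ≤ M ∧ g ∉ M := by
  obtain ⟨e, he⟩ := exists_surjective_nat (G × G × Finset G)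
  choose nx h1 h2 h3 h4 h5 h6 using Good2.next hX0 hB hq hqF
  let sq : ℕ → {K // Good2 F X0 K} × ℕ := fun n =>
    Nat.rec (⟨K0, h0⟩, 0) (fun n K => nx K (e (Nat.unpair n).1)) n
  have hsq : ∀ n, sq (n + 1) = nx (sq n) (e (Nat.unpair n).1) := fun n => rfl
  have hK : Monotone fun n => (sq n).1.1 := monotone_nat_of_le_succ fun n => h1 _ _
  have hN : Monotone fun n => (sq n).2 := monotone_nat_of_le_succ fun n => h2 _ _
  have hmono : Monotone fun n => cl X0 (sq n).1.1 := fun a b hab => cl_mono X0 (hK hab)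
  have hmem : ∀ g, g ∈ (⨆ n, cl X0 (sq n).1.1) ↔ ∃ n, g ∈ cl X0 (sq n).1.1 :=
    fun g => Subgroup.mem_iSup_of_directed hmono.directed_le
  have hfin : ∀ (s : Finset G) (f : G → G), (∀ x ∈ s, f x ∈ ⨆ n, cl X0 (sq n).1.1) →
      ∃ n, ∀ x ∈ s, f x ∈ cl X0 (sq n).1.1 := by
    intro s f hs
    choose! N hN using fun x hx => (hmem _).1 (hs x hx)
    exact ⟨s.sup N, fun x hx => hmono (le_sup hx) (hN x hx)⟩
  have hbd : ∀ j n, (sq n).1.1 ≤ X0.FG (sq (j + 1)).2 ⊔ (sq j).1.1 := by
    intro j n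
    induction n with
    | zero => exact le_sup_of_le_right (hK (Nat.zero_le j))
    | succ n ih =>
      rcases le_or_gt (n + 1) j with h | h
      · exact le_sup_of_le_right (hK h)
      · exact (h3 (sq n) _).trans
          (sup_le (le_sup_of_le_left (Fam.FG_anti (hN (show j + 1 ≤ n + 1 by omega)))) ih)
  have hup : ∀ n, (sq n).1.1 ≤ ⨆ n, cl X0 (sq n).1.1 := fun n =>
    (le_cl X0 _).trans (le_iSup (fun n => cl X0 (sq n).1.1) n)
  refine ⟨⨆ n, cl X0 (sq n).1.1, ⟨fun x hx g => ?_⟩, iSup_le fun n => (sq n).1.2.cl_le_F,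
    fun hFI => ?_, fun g hg => ?_, fun i hi s hs => ?_, fun g hg => ?_⟩
  · obtain ⟨n, hn⟩ := (hmem _).1 hx
    refine (hmem _).2 ⟨n, Subgroup.mem_iInf.2 fun k => ?_⟩
    have := hX0.normal k
    have := (sq n).1.2.1
    exact (inferInstance : (X0.FG k ⊔ (sq n).1.1).Normal).conj_mem x (cl_le _ _ k hn) g
  · have := hFI.finiteIndex
    obtain ⟨s, hs⟩ := (Group.fg_iff_subgroup_fg _).1
      (Subgroup.fg_of_index_ne_zero (⨆ n, cl X0 (sq n).1.1))
    obtain ⟨n, hn⟩ := hfin s id fun x hx => hs ▸ Subgroup.subset_closure hx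
    exact (sq n).1.2.not_FI (hFI.mono (hs ▸ (Subgroup.closure_le _).2 hn) le_rfl)
  · obtain ⟨a, ha⟩ := he (g, 1, ∅)
    have := h5 (sq (Nat.pair a 0)) (e (Nat.unpair (Nat.pair a 0)).1)
    rw [← hsq, Nat.unpair_pair, ha] at this
    exact (this hg).imp fun b hb => hup (Nat.pair a 0 + 1) hb
  · obtain ⟨n, hn⟩ := hfin s _ hs
    obtain ⟨a, ha⟩ := he (1, i, s)
    have := h6 (sq (Nat.pair a n)) (e (Nat.unpair (Nat.pair a n)).1)
    rw [← hsq, Nat.unpair_pair, ha] at this
    exact (this hi fun x hx => hmono (Nat.right_le_pair a n) (hn x hx)).mono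
      (hup (Nat.pair a n + 1)) le_rfl
  · obtain ⟨a, ha⟩ := he (g, 1, ∅)
    have := h4 (sq (Nat.pair a 0)) (e (Nat.unpair (Nat.pair a 0)).1)
    rw [← hsq, Nat.unpair_pair, ha] at this
    refine ⟨_, (sq (Nat.pair a 0)).1.2.FI_FG _, iSup_le fun n => ?_,
      this fun h => hg ((hmem _).2 ⟨_, h⟩)⟩
    exact (cl_le _ _ _).trans (sup_le le_sup_left (hbd _ n))

end Limit

section Start
variable {A : Type} [Group A] [DecidableEq A]

/-- the free group on the non-trivial elements -/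
abbrev FA (A : Type) [Group A] := FreeGroup {g : A // g ≠ 1}

def xx (g : A) : FA A := if h : g = 1 then 1 else FreeGroup.of ⟨g, h⟩

theorem xx_val (g : {g : A // g ≠ 1}) : xx g.1 = FreeGroup.of g := dif_neg g.2

def ph (h : A) : FA A →* FA A := FreeGroup.lift fun g => xx (h * g.1) * (xx h)⁻¹

theorem ph_xx (h g : A) : ph h (xx g) = xx (h * g) * (xx h)⁻¹ := by
  by_cases hg : g = 1
  · subst hg; simp [xx]
  · rw [xx_val ⟨g, hg⟩, ph, FreeGroup.lift_apply_of]

theorem ph_mul (h k : A) : (ph h).comp (ph k) = ph (h * k) := by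
  ext g
  rw [MonoidHom.comp_apply, ← xx_val, ph_xx, map_mul, map_inv, ph_xx, ph_xx, ph_xx, mul_assoc h]
  group

theorem ph_one : ph (1 : A) = MonoidHom.id _ := by
  ext g
  rw [← xx_val, ph_xx]
  simp [xx]

def actA : A →* MulAut (FA A) where
  toFun h := MonoidHom.toMulEquiv (ph h) (ph h⁻¹) (by rw [ph_mul, inv_mul_cancel, ph_one])
    (by rw [ph_mul, mul_inv_cancel, ph_one])
  map_one' := MulEquiv.ext fun g => DFunLike.congr_fun ph_one g
  map_mul' h k := MulEquiv.ext fun g => (DFunLike.congr_fun (ph_mul h k) g).symm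

/-- the starting group, a free product of two copies of `A` -/
abbrev GA (A : Type) [Group A] [DecidableEq A] := FA A ⋊[actA] A

def FF (A : Type) [Group A] [DecidableEq A] : Subgroup (GA A) :=
  (SemidirectProduct.rightHom : GA A →* A).ker

instance : (FF A).Normal := MonoidHom.normal_ker _

theorem mem_FF {g : GA A} : g ∈ FF A ↔ g.right = 1 := Iff.rfl

theorem eq_inl {g : GA A} (hg : g ∈ FF A) : g = SemidirectProduct.inl g.left := by
  rw [mem_FF] at hg
  ext
  · simp
  · simp [hg]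

theorem inl_memA {W : Subgroup (GA A)} (h : ∀ x, SemidirectProduct.inl (FreeGroup.of x) ∈ W) :
    FF A ≤ W := by
  intro g hg
  rw [eq_inl hg]
  induction g.left using FreeGroup.induction_on with
  | C1 => simp
  | of x => exact h x
  | inv_of x ih => rw [map_inv]; exact W.inv_mem ih
  | mul x y ihx ihy => rw [map_mul]; exact W.mul_mem ihx ihy

theorem mul_inr_mem (g : GA A) : g * (SemidirectProduct.inr g.right)⁻¹ ∈ FF A := by
  rw [mem_FF]; simp

/-- the second copy of `A` -/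
def sec : A →* GA A := MonoidHom.mk' (fun g => ⟨(xx g)⁻¹, g⟩) fun h g => by
  ext
  · change (xx (h * g))⁻¹ = (xx h)⁻¹ * ph h (xx g)⁻¹
    rw [map_inv, ph_xx]; group
  · rfl

theorem baseA [IsSimpleGroup A] {t : A} (ht : t ≠ 1) (ht2 : t ^ 2 = 1) {i : GA A}
    (hi : i ∉ FF A) : Base2 (FF A) i := by
  intro K hK hodd
  set W := Subgroup.normalClosure {i} ⊔ K with hW
  have hsurj : (Subgroup.normalClosure {i}).map (SemidirectProduct.rightHom : GA A →* A) = ⊤ := by
    have hn := (Subgroup.normalClosure_normal (s := {i})).map _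
      (SemidirectProduct.rightHom_surjective (φ := actA (A := A)))
    refine (hn.eq_bot_or_eq_top).resolve_left fun hb => hi ?_
    exact (Subgroup.map_eq_bot_iff _).1 hb (Subgroup.subset_normalClosure rfl)
  have hpow : ∀ g : GA A, ∃ a, (QuotientGroup.mk' W g) ^ (3 ^ a) = 1 := by
    intro g
    obtain ⟨n, hn, e⟩ : g.right ∈ (Subgroup.normalClosure {i}).map
      (SemidirectProduct.rightHom : GA A →* A) := hsurj ▸ trivial
    obtain ⟨a, ha⟩ := hodd (g * n⁻¹) (by
      rw [FF, MonoidHom.mem_ker, map_mul, map_inv, e]; exact mul_inv_cancel _)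
    refine ⟨a, ?_⟩
    have h1 : QuotientGroup.mk' W n = 1 :=
      (QuotientGroup.eq_one_iff _).2 (Subgroup.mem_sup_left hn)
    have h2 : QuotientGroup.mk' W ((g * n⁻¹) ^ 3 ^ a) = 1 :=
      (QuotientGroup.eq_one_iff _).2 (Subgroup.mem_sup_right ha)
    rwa [map_pow, map_mul, map_inv, h1, inv_one, mul_one] at h2
  have hhom : ∀ (ψ : A →* GA A) (g : A), ψ g ∈ W := by
    intro ψ g
    have : ((QuotientGroup.mk' W).comp ψ).ker = ⊤ := by
      refine ((MonoidHom.normal_ker _).eq_bot_or_eq_top).resolve_left fun hb => ht ?_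
      rw [← Subgroup.mem_bot, ← hb, MonoidHom.mem_ker, MonoidHom.comp_apply]
      obtain ⟨a, ha⟩ := hpow (ψ t)
      have h2 : QuotientGroup.mk' W (ψ t) ^ 2 = 1 := by
        rw [← map_pow, ← map_pow, ht2, map_one, map_one]
      exact orderOf_eq_one_iff.1 (Nat.eq_one_of_dvd_coprimes
        (Nat.Coprime.pow_right a (by norm_num : Nat.Coprime 2 3))
        (orderOf_dvd_of_pow_eq_one h2) (orderOf_dvd_of_pow_eq_one ha))
    have h1 : g ∈ ((QuotientGroup.mk' W).comp ψ).ker := this ▸ trivial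
    exact (QuotientGroup.eq_one_iff _).1 h1
  have hF : FF A ≤ W := inl_memA fun x => by
    have := W.mul_mem (hhom SemidirectProduct.inr x.1) (W.inv_mem (hhom sec x.1))
    have e : (SemidirectProduct.inl (FreeGroup.of x) : GA A) * sec x.1 =
        SemidirectProduct.inr x.1 := by
      ext
      · change FreeGroup.of x * ph 1 (xx x.1)⁻¹ = 1
        rw [ph_one, xx_val]; simp
      · exact one_mul _
    rwa [← e, mul_inv_cancel_right] at this
  refine eq_top_iff.2 fun g _ => ?_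
  exact (W.mul_mem_cancel_right (W.inv_mem (hhom SemidirectProduct.inr g.right))).1
    (hF (mul_inr_mem g))

/-- affine maps of the group algebra -/
noncomputable def aff2 {G : Type} [Group G] (g : G) (c : Alg G) : Equiv.Perm (Alg G) where
  toFun a := o g * a + c
  invFun a := o g⁻¹ * (a - c)
  left_inv a := by simp only [add_sub_cancel_right, ← mul_assoc, o_inv_mul, one_mul]
  right_inv a := by simp only [← mul_assoc, o_mul_inv, one_mul, sub_add_cancel]

/-- the representation giving the Fox derivative -/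
noncomputable def foxA (x : {g : A // g ≠ 1}) : FA A →* Equiv.Perm (Alg (GA A)) :=
  FreeGroup.lift fun y => aff2 (SemidirectProduct.inl (FreeGroup.of y)) (if y = x then 1 else 0)

theorem foxA_apply (x : {g : A // g ≠ 1}) (f : FA A) (a : Alg (GA A)) :
    foxA x f a = o (SemidirectProduct.inl f) * a + foxA x f 0 := by
  induction f using FreeGroup.induction_on generalizing a with
  | C1 => simp [o_one]
  | of y => simp [foxA, aff2]
  | inv_of y _ =>
    rw [map_inv, map_inv]
    simp only [foxA, FreeGroup.lift_apply_of, Equiv.Perm.coe_inv, aff2, Equiv.coe_fn_symm_mk]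
    noncomm_ring
  | mul f g ihf ihg =>
    rw [map_mul, map_mul, o_mul, Equiv.Perm.mul_apply, Equiv.Perm.mul_apply, ihg, ihf,
      ihf (foxA x g 0)]
    noncomm_ring

variable [Fintype A]

def XA (A : Type) [Group A] [DecidableEq A] [Fintype A] : Fam (GA A) :=
  ⟨{g : A // g ≠ 1}, fun x => SemidirectProduct.inl (FreeGroup.of x), fun _ => 1, fun _ => le_rfl⟩

theorem XA_grp : (XA A).grp = FF A :=
  le_antisymm (Fam.grp_le fun x => by simp [XA, mem_FF]) (inl_memA fun x => (XA A).el_mem x)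

theorem XA_free : (XA A).Free := by
  intro c hc H x
  let D : Alg (GA A) →ₗ[kk] Alg (GA A) := lin fun g => foxA x g.left 0
  have hD : ∀ (y : {g : A // g ≠ 1}), ∀ a ∈ kS (XA A).grp,
      D (a * (o ((XA A).el y) - 1)) = a * (if y = x then 1 else 0) := by
    intro y a ha
    refine kS_induction
      (P := fun a => D (a * (o ((XA A).el y) - 1)) = a * (if y = x then 1 else 0))
      ha ?_ (by simp) ?_ ?_
    · intro g hg
      rw [XA_grp] at hg
      have e := eq_inl hg
      rw [mem_FF] at hg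
      have e2 : (g * (XA A).el y).left = g.left * FreeGroup.of y := by simp [XA, hg]
      rw [mul_sub, mul_one, ← o_mul, map_sub, lin_o, lin_o, e2, map_mul, Equiv.Perm.mul_apply,
        foxA_apply, ← e, add_sub_cancel_right]
      simp [foxA, aff2]
    · intro a b _ _ h1 h2; rw [add_mul, map_add, h1, h2, add_mul]
    · intro s a _ h1; rw [smul_mul_assoc, map_smul, h1, smul_mul_assoc]
  have := congrArg D H
  rw [map_sum, map_zero] at this
  have h2 : ∑ y : {g : A // g ≠ 1}, c y * (if y = x then 1 else 0) = 0 :=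
    (sum_congr rfl fun y _ => (hD y _ (hc y)).symm).trans this
  simpa using h2

theorem XA_inv : (XA A).Inv := fun g x => Fam.grp_le_FG_one (by
  rw [XA_grp]
  exact (inferInstance : (FF A).Normal).conj_mem _ (XA_grp (A := A) ▸ (XA A).el_mem x) g)

theorem goodA (h4 : 4 ≤ Fintype.card A) : Good2 (FF A) (XA A) ⊥ := by
  classical
  refine ⟨inferInstance, XA A, Fam.empty _, ⟨XA_free,
    ⟨fun r => r.elim, fun r => r.elim, bot_le⟩, XA_inv,
    ⟨univ.image SemidirectProduct.inr, fun g _ => ⟨_, mem_image.2 ⟨g.right, mem_univ _, rfl⟩,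
      XA_grp (A := A) ▸ mul_inr_mem g⟩⟩, XA_grp.le,
    fun g hg => ⟨0, by simpa [XA_grp] using hg⟩, ?_⟩, fun n => ⟨n, le_rfl⟩, fun n => ⟨n, le_rfl⟩⟩
  rw [Fam.df, Fam.wt_empty]
  have h1 : (XA A).wt = (Fintype.card {g : A // g ≠ 1} : ℝ) / 2 := by
    change ∑ _i : {g : A // g ≠ 1}, (1 / 2 : ℝ) ^ 1 = _
    rw [sum_const, card_univ, nsmul_eq_mul]; ring
  have h2 : 3 ≤ Fintype.card {g : A // g ≠ 1} := by
    rw [Fintype.card_subtype_compl, Fintype.card_subtype_eq]; omega
  have h3 : (3 : ℝ) ≤ Fintype.card {g : A // g ≠ 1} := by exact_mod_cast h2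
  rw [h1]; linarith

instance : Countable (GA A) := by
  have : Countable (FA A) := (Quot.mk_surjective (r := FreeGroup.Red.Step)).countable
  exact SemidirectProduct.equivProd.countable_iff.2 inferInstance

instance : Group.FG (GA A) := by
  refine Group.fg_iff.2 ⟨Set.range (XA A).el ∪ Set.range SemidirectProduct.inr,
    eq_top_iff.2 fun g _ => ?_, (Set.finite_range _).union (Set.finite_range _)⟩
  have h1 : SemidirectProduct.inr g.right ∈ Subgroup.closure
      (Set.range (XA A).el ∪ Set.range (SemidirectProduct.inr : A →* GA A)) :=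
    Subgroup.subset_closure (Or.inr ⟨g.right, rfl⟩)
  have h2 : FF A ≤ Subgroup.closure
      (Set.range (XA A).el ∪ Set.range (SemidirectProduct.inr : A →* GA A)) :=
    inl_memA fun x => Subgroup.subset_closure (Or.inl ⟨x, rfl⟩)
  exact (Subgroup.mul_mem_cancel_right _ (Subgroup.inv_mem _ h1)).1 (h2 (mul_inr_mem g))

end Start

/-- the properties of the pair of a group and a map onto the finite group -/
structure Nice {G A : Type} [Group G] [Group A] (f : G →* A) (s : A →* G) : Prop where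
  split : ∀ a, f (s a) = a
  fg : Group.FG G
  inf : Infinite G
  rf : Group.ResiduallyFinite G
  tor : ∀ g, f g = 1 → ∃ n : ℕ, g ^ 3 ^ n = 1
  loc : ∀ g, f g ≠ 1 → ∀ H : Subgroup G, H ≤ Subgroup.centralizer {g} → H.FG → Finite H

theorem nice_simple (A : Type) [Group A] [Fintype A] [IsSimpleGroup A] (h4 : 4 ≤ Fintype.card A)
    {t : A} (ht : t ≠ 1) (ht2 : t ^ 2 = 1) :
    ∃ (G : Type) (_ : Group G) (f : G →* A) (s : A →* G), Nice f s := by
  classical
  obtain ⟨L, hL, hLF, hinf, hodd, hfin, hrf⟩ := exists_limit2 (XA_inv (A := A))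
    (fun i hi => baseA ht ht2 hi) (q := Fintype.card A) (by omega)
    (fun g => by rw [FF, MonoidHom.mem_ker, map_pow, pow_card_eq_one]) (goodA h4)
  let π := QuotientGroup.mk' L
  let f : GA A ⧸ L →* A := QuotientGroup.lift L SemidirectProduct.rightHom hLF
  refine ⟨GA A ⧸ L, inferInstance, f, π.comp SemidirectProduct.inr,
    fun a => rfl, inferInstance, ?_, ?_, ?_, ?_⟩
  · by_contra hf
    rw [not_infinite_iff_finite] at hf
    have := Fintype.ofFinite (GA A ⧸ L)
    refine hinf ⟨univ.image fun q : GA A ⧸ L => q.out, fun g _ =>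
      ⟨(π g).out, mem_image.2 ⟨_, mem_univ _, rfl⟩, ?_⟩⟩
    rw [← QuotientGroup.eq_one_iff, QuotientGroup.mk_mul, QuotientGroup.mk_inv,
      QuotientGroup.out_eq']
    exact mul_inv_cancel _
  · refine Group.residuallyFinite_iff_exists_finiteIndex.2 fun q hq => ?_
    obtain ⟨g, rfl⟩ := QuotientGroup.mk'_surjective L q
    obtain ⟨M, h1, h2, h3⟩ := hrf g fun h => hq ((QuotientGroup.eq_one_iff _).2 h)
    have hk : π.ker ≤ M := by rwa [QuotientGroup.ker_mk']
    refine ⟨M.map π, ⟨?_⟩, fun h => h3 ?_⟩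
    · rw [Subgroup.index_map_eq _ (QuotientGroup.mk'_surjective L) hk]
      exact h1.finiteIndex.index_ne_zero
    · rwa [← Subgroup.mem_comap, Subgroup.comap_map_eq_self hk] at h
  · intro q hq
    obtain ⟨g, rfl⟩ := QuotientGroup.mk'_surjective L q
    obtain ⟨a, ha⟩ := hodd g hq
    exact ⟨a, by rw [← map_pow]; exact (QuotientGroup.eq_one_iff _).2 ha⟩
  · rintro q hq _ hH ⟨s, rfl⟩
    obtain ⟨i, rfl⟩ := QuotientGroup.mk'_surjective L q
    obtain ⟨T, hT⟩ := hfin i hq (s.image Quotient.out) (by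
      intro x hx
      obtain ⟨y, hy, rfl⟩ := mem_image.1 hx
      have h := Subgroup.mem_centralizer_singleton_iff.1 (hH (Subgroup.subset_closure hy))
      rw [← QuotientGroup.eq_one_iff]
      change π (y.out * i * y.out⁻¹ * i⁻¹) = 1
      have e : π y.out = y := QuotientGroup.out_eq' y
      rw [map_mul, map_mul, map_mul, map_inv, map_inv, e, h, mul_inv_cancel_right,
        mul_inv_cancel])
    refine ((T.finite_toSet).image π).subset fun y hy => ?_
    have : Subgroup.closure (s : Set (GA A ⧸ L)) =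
        (Subgroup.closure ((s.image Quotient.out : Finset (GA A)) : Set (GA A))).map π := by
      rw [MonoidHom.map_closure, coe_image, Set.image_image]
      congr 1
      exact (Set.image_id _).symm.trans
        (Set.image_congr fun y _ => (QuotientGroup.out_eq' y).symm)
    rw [SetLike.mem_coe, this] at hy
    obtain ⟨g, hg, rfl⟩ := hy
    obtain ⟨u, hu, h⟩ := hT g hg
    refine ⟨u, hu, ?_⟩
    have h' : π (g * u⁻¹) = 1 := (QuotientGroup.eq_one_iff _).2 h
    rw [map_mul, map_inv, mul_inv_eq_one] at h'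
    exact h'.symm

theorem Nice.restrict {G B A : Type} [Group G] [Group B] [Finite B] [Group A] {f : G →* B}
    {s : B →* G} (h : Nice f s) (e : A →* B) (he : Function.Injective e) :
    ∃ (G' : Type) (_ : Group G') (f' : G' →* A) (s' : A →* G'), Nice f' s' := by
  let W : Subgroup G := e.range.comap f
  let f' : W →* A := (MonoidHom.ofInjective he).symm.toMonoidHom.comp (f.subgroupComap e.range)
  have hf' : ∀ g : W, e (f' g) = f g := fun g =>
    MonoidHom.apply_ofInjective_symm he (f.subgroupComap e.range g)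
  let s' : A →* W := (s.comp e).codRestrict W fun a => ⟨a, (h.split _).symm⟩
  have hsurj : Function.Surjective f := fun b => ⟨s b, h.split b⟩
  have hW : W.FiniteIndex := ⟨by
    rw [Subgroup.index_comap_of_surjective _ hsurj]
    exact Subgroup.FiniteIndex.index_ne_zero⟩
  have := h.fg
  have := h.inf
  have := h.rf
  refine ⟨W, inferInstance, f', s', fun a => he ((hf' _).trans (h.split _)),
    Subgroup.fg_of_index_ne_zero W, ?_, inferInstance, fun g hg => ?_, fun g hg H hH hfg => ?_⟩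
  · by_contra hf
    rw [not_infinite_iff_finite] at hf
    have h1 := W.card_mul_index
    rw [Nat.card_eq_zero_of_infinite (α := G)] at h1
    exact mul_ne_zero Nat.card_pos.ne' hW.index_ne_zero h1
  · obtain ⟨n, hn⟩ := h.tor g (by rw [← hf', hg, map_one])
    exact ⟨n, Subtype.ext hn⟩
  · have : Finite (H.map W.subtype) := by
      refine h.loc g (fun h1 => hg (he (by rw [hf', h1, map_one]))) _ ?_ ?_
      · rintro _ ⟨x, hx, rfl⟩
        exact Subgroup.mem_centralizer_singleton_iff.2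
          (congrArg Subtype.val (Subgroup.mem_centralizer_singleton_iff.1 (hH hx)))
      · classical
        obtain ⟨S, rfl⟩ := hfg
        exact ⟨S.image W.subtype, by rw [coe_image, MonoidHom.map_closure]⟩
    exact Finite.of_equiv _ (H.equivMapOfInjective _ W.subtype_injective).symm.toEquiv

theorem nice_all (A : Type) [Group A] [Finite A] :
    ∃ (G : Type) (_ : Group G) (f : G →* A) (s : A →* G), Nice f s := by
  classical
  have := Fintype.ofFinite A
  let Ω := (A ⊕ A) ⊕ Fin 5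
  have h5 : 5 ≤ Fintype.card Ω := by simp [Ω]
  have hs : IsSimpleGroup (alternatingGroup Ω) :=
    alternatingGroup.isSimpleGroup (by rwa [Nat.card_eq_fintype_card])
  let ρ : A →* Equiv.Perm A := MulAction.toPermHom A A
  let e0 : A →* Equiv.Perm Ω := (Equiv.Perm.sumCongrHom _ _).comp
    (((Equiv.Perm.sumCongrHom A A).comp (ρ.prod ρ)).prod 1)
  have he0 : ∀ a, e0 a = Equiv.Perm.sumCongr (Equiv.Perm.sumCongr (ρ a) (ρ a)) 1 := fun a => rfl
  let e : A →* alternatingGroup Ω := e0.codRestrict _ fun a => by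
    rw [Equiv.Perm.mem_alternatingGroup, he0, Equiv.Perm.sign_sumCongr, Equiv.Perm.sign_sumCongr,
      Int.units_mul_self, map_one, mul_one]
  have he : Function.Injective e := by
    refine (injective_iff_map_eq_one _).2 fun a ha => ?_
    have h1 : e0 a (Sum.inl (Sum.inl 1)) = Sum.inl (Sum.inl 1) := by
      rw [show e0 a = 1 from congrArg Subtype.val ha]; rfl
    have h2 : a * 1 = 1 := Sum.inl_injective (Sum.inl_injective h1)
    simpa using h2
  let t0 : Equiv.Perm (Fin 5) := Equiv.swap 0 1 * Equiv.swap 2 3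
  let t : alternatingGroup Ω := ⟨Equiv.Perm.sumCongr 1 t0, by
    rw [Equiv.Perm.mem_alternatingGroup, Equiv.Perm.sign_sumCongr, map_one, one_mul]
    decide⟩
  have ht : t ≠ 1 := fun h => by
    have h1 : (Equiv.Perm.sumCongr 1 t0 : Equiv.Perm Ω) (Sum.inr 0) = Sum.inr 0 := by
      rw [show (Equiv.Perm.sumCongr 1 t0 : Equiv.Perm Ω) = 1 from congrArg Subtype.val h]; rfl
    exact absurd (Sum.inr_injective h1) (by decide)
  have ht2 : t ^ 2 = 1 := by
    refine Subtype.ext ?_
    change (Equiv.Perm.sumCongr 1 t0 : Equiv.Perm Ω) ^ 2 = 1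
    rw [pow_two, Equiv.Perm.sumCongr_mul, one_mul, show t0 * t0 = 1 by decide,
      Equiv.Perm.sumCongr_one]
  have h4 : 4 ≤ Fintype.card (alternatingGroup Ω) := by
    have : Nontrivial Ω := Fintype.one_lt_card_iff_nontrivial.1 (by omega)
    have h1 := two_mul_card_alternatingGroup (α := Ω)
    rw [Fintype.card_perm] at h1
    have h2 := Nat.factorial_le h5
    rw [show Nat.factorial 5 = 120 by rfl] at h2
    omega
  obtain ⟨G, _, f, s, h⟩ := nice_simple (alternatingGroup Ω) h4 ht ht2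
  exact h.restrict e he

end Pool.Agent.Lib.MP_6cc228_al
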