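import Pool.Agent.Lib.MP_6cc228_al.Top

/-!
The limit group and the starting group.
-/

namespace Pool.Agent.Lib.MP_6cc228_al

open Finset

section Limit
variable {G : Type} [Group G]

theorem Good.le {F K : Subgroup G} (h : Good F K) : K ≤ F := by
  obtain ⟨-, X, R, h⟩ := h
  exact h.rel.le_grp.trans h.le

theorem Good.not_FI {F K : Subgroup G} (h : Good F K) : ¬ FI K ⊤ := by
  obtain ⟨hK, X, R, h⟩ := h
  exact h.not_FI

theorem Good.next {F : Subgroup G} {i : G} (hB : Base F i) (K : {K // Good F K})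
    (p : G × Finset G) : ∃ K' : {K // Good F K}, K.1 ≤ K'.1 ∧
      (p.1 ∈ F → ∃ a, p.1 ^ (3 ^ a) ∈ K'.1) ∧
      ((∀ x ∈ p.2, x * i * x⁻¹ * i ∈ K.1) → FI K'.1 (Subgroup.closure (p.2 : Set G))) := by
  obtain ⟨K1, h1, h2, h3⟩ : ∃ K1, Good F K1 ∧ K.1 ≤ K1 ∧ (p.1 ∈ F → ∃ a, p.1 ^ (3 ^ a) ∈ K1) := by
    by_cases h : p.1 ∈ F
    · obtain ⟨K1, h1, h2, h3⟩ := K.2.kill_pow h
      exact ⟨K1, h1, h2, fun _ => h3⟩
    · exact ⟨K.1, K.2, le_rfl, fun h' => absurd h' h⟩
  by_cases h : ∀ x ∈ p.2, x * i * x⁻¹ * i ∈ K.1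
  · obtain ⟨K2, h4, h5, h6⟩ := h1.kill_fg hB p.2 fun x hx => h2 (h x hx)
    exact ⟨⟨K2, h4⟩, h2.trans h5, fun hp => (h3 hp).imp fun a ha => h5 ha, fun _ => h6⟩
  · exact ⟨⟨K1, h1⟩, h2, h3, fun h' => absurd h' h⟩

theorem exists_limit [Countable G] [Group.FG G] {F K0 : Subgroup G} {i : G} (hB : Base F i)
    (h0 : Good F K0) : ∃ K : Subgroup G, K.Normal ∧ K ≤ F ∧ ¬ FI K ⊤ ∧
      (∀ g ∈ F, ∃ a, g ^ (3 ^ a) ∈ K) ∧
      ∀ s : Finset G, (∀ x ∈ s, x * i * x⁻¹ * i ∈ K) → FI K (Subgroup.closure (s : Set G)) := by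
  obtain ⟨e, he⟩ := exists_surjective_nat (G × Finset G)
  choose nx h1 h2 h3 using Good.next hB
  let sq : ℕ → {K // Good F K} := fun n =>
    Nat.rec ⟨K0, h0⟩ (fun n K => nx K (e (Nat.unpair n).1)) n
  have hsq : ∀ n, sq (n + 1) = nx (sq n) (e (Nat.unpair n).1) := fun n => rfl
  have hmono : Monotone fun n => (sq n).1 := monotone_nat_of_le_succ fun n => h1 _ _
  have hmem : ∀ g, g ∈ (⨆ n, (sq n).1) ↔ ∃ n, g ∈ (sq n).1 :=
    fun g => Subgroup.mem_iSup_of_directed hmono.directed_le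
  have hfin : ∀ (s : Finset G) (f : G → G), (∀ x ∈ s, f x ∈ ⨆ n, (sq n).1) →
      ∃ n, ∀ x ∈ s, f x ∈ (sq n).1 := by
    intro s f hs
    choose! N hN using fun x hx => (hmem _).1 (hs x hx)
    exact ⟨s.sup N, fun x hx => hmono (le_sup hx) (hN x hx)⟩
  refine ⟨⨆ n, (sq n).1, ⟨fun x hx g => ?_⟩, iSup_le fun n => (sq n).2.le, fun hFI => ?_,
    fun g hg => ?_, fun s hs => ?_⟩
  · obtain ⟨n, hn⟩ := (hmem _).1 hx
    exact (hmem _).2 ⟨n, (sq n).2.1.conj_mem x hn g⟩
  · have := hFI.finiteIndex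
    obtain ⟨s, hs⟩ := (Group.fg_iff_subgroup_fg _).1
      (Subgroup.fg_of_index_ne_zero (⨆ n, (sq n).1))
    obtain ⟨n, hn⟩ := hfin s id fun x hx => hs ▸ Subgroup.subset_closure hx
    exact (sq n).2.not_FI (hFI.mono (hs ▸ (Subgroup.closure_le _).2 hn) le_rfl)
  · obtain ⟨a, ha⟩ := he (g, ∅)
    have := h2 (sq (Nat.pair a 0)) (e (Nat.unpair (Nat.pair a 0)).1)
    rw [← hsq, Nat.unpair_pair, ha] at this
    obtain ⟨b, hb⟩ := this hg
    exact ⟨b, (hmem _).2 ⟨Nat.pair a 0 + 1, hb⟩⟩
  · obtain ⟨n, hn⟩ := hfin s _ hs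
    obtain ⟨a, ha⟩ := he (1, s)
    have := h3 (sq (Nat.pair a n)) (e (Nat.unpair (Nat.pair a n)).1)
    rw [← hsq, Nat.unpair_pair, ha] at this
    exact (this fun x hx => hmono (Nat.right_le_pair a n) (hn x hx)).mono
      (le_iSup (fun n => (sq n).1) (Nat.pair a n + 1)) le_rfl

end Limit

/-- the free group of rank three -/
abbrev F3 := FreeGroup (Fin 3)

def invHom : F3 →* F3 := FreeGroup.lift fun x => (FreeGroup.of x)⁻¹

theorem invHom_comp : invHom.comp invHom = MonoidHom.id _ := by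
  ext x; simp [invHom]

def invAut : MulAut F3 := MonoidHom.toMulEquiv invHom invHom invHom_comp invHom_comp

theorem invAut_sq : invAut * invAut = 1 :=
  MulEquiv.ext fun g => DFunLike.congr_fun invHom_comp g

def act : ℤˣ →* MulAut F3 := MonoidHom.mk' (fun s => if s = 1 then 1 else invAut) (by
  intro a b
  rcases Int.units_eq_one_or a with rfl | rfl <;> rcases Int.units_eq_one_or b with rfl | rfl
  · simp
  · simp
  · simp
  · simp [invAut_sq])

/-- the starting group -/
abbrev G0 := F3 ⋊[act] ℤˣ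

def i0 : G0 := SemidirectProduct.inr (-1)

def F0 : Subgroup G0 := (SemidirectProduct.rightHom : G0 →* ℤˣ).ker

instance : F0.Normal := MonoidHom.normal_ker _

theorem mem_F0 {g : G0} : g ∈ F0 ↔ g.right = 1 := Iff.rfl

theorem i0_sq : i0 * i0 = 1 := by
  rw [i0, ← map_mul]; simp

theorem i0_notMem : i0 ∉ F0 := by
  rw [mem_F0]; simp [i0]

theorem mul_i0_mem {g : G0} (hg : g ∉ F0) : g * i0 ∈ F0 := by
  rw [mem_F0] at hg ⊢
  rcases Int.units_eq_one_or g.right with h | h
  · exact absurd h hg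
  · simp [i0, h]

theorem sq_mem_F0 (g : G0) : g ^ 2 ∈ F0 := by
  rw [mem_F0, pow_two]
  simp

def X0 : Fam G0 := ⟨Fin 3, fun x => SemidirectProduct.inl (FreeGroup.of x), fun _ => 1,
  fun _ => le_rfl⟩

theorem inl_mem {W : Subgroup G0} (h : ∀ x, SemidirectProduct.inl (FreeGroup.of x) ∈ W) :
    F0 ≤ W := by
  intro g hg
  have : g = SemidirectProduct.inl g.left := by
    rw [mem_F0] at hg
    ext
    · simp
    · simp [hg]
  rw [this]
  induction g.left using FreeGroup.induction_on with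
  | C1 => simp
  | of x => exact h x
  | inv_of x ih => rw [map_inv]; exact W.inv_mem ih
  | mul x y ihx ihy => rw [map_mul]; exact W.mul_mem ihx ihy

theorem X0_grp : X0.grp = F0 :=
  le_antisymm (Fam.grp_le fun x => by simp [X0, mem_F0]) (inl_mem fun x => X0.el_mem x)

theorem base0 : Base F0 i0 := by
  refine ⟨i0_sq, eq_top_iff.2 fun g _ => ?_⟩
  have hi : i0 ∈ Subgroup.closure ({i0} ∪ {x | x ∈ F0 ∧ i0 * x * i0 = x⁻¹}) :=
    Subgroup.subset_closure (Or.inl rfl)
  have hF : F0 ≤ Subgroup.closure ({i0} ∪ {x | x ∈ F0 ∧ i0 * x * i0 = x⁻¹}) := by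
    refine inl_mem fun x => Subgroup.subset_closure (Or.inr ⟨by simp [mem_F0], ?_⟩)
    have := SemidirectProduct.inl_aut (φ := act) (-1) (FreeGroup.of x)
    rw [← map_inv]
    have e : act (-1) (FreeGroup.of x) = (FreeGroup.of x)⁻¹ := by
      simp [act, invAut, invHom]
    rw [← e, this]
    rfl
  by_cases hg : g ∈ F0
  · exact hF hg
  · exact (Subgroup.mul_mem_cancel_right _ hi).1 (hF (mul_i0_mem hg))

/-- affine maps of the group algebra -/
noncomputable def aff (g : G0) (c : Alg G0) : Equiv.Perm (Alg G0) where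
  toFun a := o g * a + c
  invFun a := o g⁻¹ * (a - c)
  left_inv a := by simp only [add_sub_cancel_right, ← mul_assoc, o_inv_mul, one_mul]
  right_inv a := by simp only [← mul_assoc, o_mul_inv, one_mul, sub_add_cancel]

/-- the representation giving the Fox derivative -/
noncomputable def fox (x : Fin 3) : F3 →* Equiv.Perm (Alg G0) :=
  FreeGroup.lift fun y => aff (SemidirectProduct.inl (FreeGroup.of y)) (if y = x then 1 else 0)

theorem fox_apply (x : Fin 3) (f : F3) (a : Alg G0) :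
    fox x f a = o (SemidirectProduct.inl f) * a + fox x f 0 := by
  induction f using FreeGroup.induction_on generalizing a with
  | C1 => simp [o_one]
  | of y => simp [fox, aff]
  | inv_of y _ =>
    rw [map_inv, map_inv]
    simp only [fox, FreeGroup.lift_apply_of, Equiv.Perm.coe_inv, aff, Equiv.coe_fn_symm_mk]
    noncomm_ring
  | mul f g ihf ihg =>
    rw [map_mul, map_mul, o_mul, Equiv.Perm.mul_apply, Equiv.Perm.mul_apply, ihg, ihf,
      ihf (fox x g 0)]
    noncomm_ring

theorem X0_free : X0.Free := by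
  intro c hc H x
  let D : Alg G0 →ₗ[kk] Alg G0 := lin fun g => fox x g.left 0
  have hD : ∀ (y : Fin 3), ∀ a ∈ kS X0.grp,
      D (a * (o (X0.el y) - 1)) = a * (if y = x then 1 else 0) := by
    intro y a ha
    refine kS_induction (P := fun a => D (a * (o (X0.el y) - 1)) = a * (if y = x then 1 else 0))
      ha ?_ (by simp) ?_ ?_
    · intro g hg
      rw [X0_grp, mem_F0] at hg
      have e : g = SemidirectProduct.inl g.left := by
        ext
        · simp
        · simp [hg]
      have e2 : (g * X0.el y).left = g.left * FreeGroup.of y := by simp [X0, hg]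
      rw [mul_sub, mul_one, ← o_mul, map_sub, lin_o, lin_o, e2, map_mul, Equiv.Perm.mul_apply,
        fox_apply, ← e, add_sub_cancel_right]
      simp [fox, aff]
    · intro a b _ _ h1 h2; rw [add_mul, map_add, h1, h2, add_mul]
    · intro s a _ h1; rw [smul_mul_assoc, map_smul, h1, smul_mul_assoc]
  have := congrArg D H
  rw [map_sum, map_zero] at this
  have h2 : ∑ y : Fin 3, c y * (if y = x then 1 else 0) = 0 :=
    (sum_congr rfl fun y _ => (hD y _ (hc y)).symm).trans this
  simpa using h2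

theorem good0 : Good F0 ⊥ := by
  classical
  refine ⟨inferInstance, X0, Fam.empty G0, X0_free, ⟨fun r => r.elim, fun r => r.elim, bot_le⟩,
    fun g x => Fam.grp_le_FG_one ?_, ⟨{1, i0}, fun g _ => ?_⟩, X0_grp.le,
    fun g hg => ⟨0, by simpa [X0_grp] using hg⟩, ?_⟩
  · rw [X0_grp]
    exact (inferInstance : F0.Normal).conj_mem _ (X0_grp ▸ X0.el_mem x) g
  · rw [X0_grp]
    by_cases hg : g ∈ F0
    · exact ⟨1, by simp, by simpa using hg⟩
    · exact ⟨i0, by simp, by rw [inv_eq_of_mul_eq_one_left i0_sq]; exact mul_i0_mem hg⟩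
  · rw [Fam.df, Fam.wt_empty]
    have : X0.wt = 3 / 2 := by
      change ∑ _i : Fin 3, (1 / 2 : ℝ) ^ 1 = _
      norm_num
    rw [this]; norm_num

instance : Countable G0 := by
  have : Countable F3 := (Quot.mk_surjective (r := FreeGroup.Red.Step)).countable
  exact SemidirectProduct.equivProd.countable_iff.2 inferInstance

/-- a finite generating set -/
theorem closure_gen : Subgroup.closure (insert i0 (Set.range X0.el)) = ⊤ := by
  refine eq_top_iff.2 fun g _ => ?_
  have hi : i0 ∈ Subgroup.closure (insert i0 (Set.range X0.el)) :=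
    Subgroup.subset_closure (Or.inl rfl)
  have hF : F0 ≤ Subgroup.closure (insert i0 (Set.range X0.el)) :=
    inl_mem fun x => Subgroup.subset_closure (Or.inr ⟨x, rfl⟩)
  by_cases hg : g ∈ F0
  · exact hF hg
  · exact (Subgroup.mul_mem_cancel_right _ hi).1 (hF (mul_i0_mem hg))

instance : Group.FG G0 :=
  Group.fg_iff.2 ⟨_, closure_gen, (Set.finite_range _).insert _⟩

/-- The counterexample: an infinite finitely generated periodic group with an involution whose
centralizer is locally finite and has no elements of two-power order other than `1` and `t`. -/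
theorem exists_group : ∃ (G : Type) (_ : Group G) (t : G), Group.FG G ∧ Infinite G ∧
    (∀ g : G, ∃ a, g ^ (2 * 3 ^ a) = 1) ∧ orderOf t = 2 ∧
    (∀ s : Set G, s.Finite → s ⊆ (Subgroup.centralizer ({t} : Set G) : Set G) →
      ((Subgroup.closure s : Subgroup G) : Set G).Finite) ∧
    ∀ g ∈ Subgroup.centralizer ({t} : Set G), ∀ k, g ^ (2 ^ k) = 1 → g = 1 ∨ g = t := by
  classical
  obtain ⟨K, hK, hKF, hinf, hodd, hfin⟩ := exists_limit base0 good0
  let π := QuotientGroup.mk' K
  have ht : π i0 * π i0 = 1 := by rw [← map_mul, i0_sq, map_one]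
  have hcop : ∀ g ∈ F0, ∀ k, π g ^ (2 ^ k) = 1 → π g = 1 := by
    intro g hg k hk
    obtain ⟨a, ha⟩ := hodd g hg
    have ha' : π g ^ (3 ^ a) = 1 := by rw [← map_pow]; exact (QuotientGroup.eq_one_iff _).2 ha
    exact orderOf_eq_one_iff.1 (Nat.eq_one_of_dvd_coprimes (Nat.Coprime.pow k a (by norm_num))
      (orderOf_dvd_of_pow_eq_one hk) (orderOf_dvd_of_pow_eq_one ha'))
  refine ⟨G0 ⧸ K, inferInstance, π i0, inferInstance, ?_, ?_, ?_, ?_, ?_⟩
  · by_contra hf
    rw [not_infinite_iff_finite] at hf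
    have := Fintype.ofFinite (G0 ⧸ K)
    refine hinf ⟨univ.image fun q : G0 ⧸ K => q.out, fun g _ =>
      ⟨(π g).out, mem_image.2 ⟨_, mem_univ _, rfl⟩, ?_⟩⟩
    rw [← QuotientGroup.eq_one_iff, QuotientGroup.mk_mul, QuotientGroup.mk_inv,
      QuotientGroup.out_eq']
    exact mul_inv_cancel _
  · intro q
    obtain ⟨g, rfl⟩ := QuotientGroup.mk'_surjective K q
    obtain ⟨a, ha⟩ := hodd _ (sq_mem_F0 g)
    refine ⟨a, ?_⟩
    rw [← map_pow, pow_mul]
    exact (QuotientGroup.eq_one_iff _).2 ha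
  · refine orderOf_eq_prime (by rw [pow_two, ht]) fun h => ?_
    exact i0_notMem (hKF ((QuotientGroup.eq_one_iff _).1 h))
  · intro s hs hsC
    obtain ⟨T, hT⟩ := hfin (hs.toFinset.image Quotient.out) (by
      intro x hx
      obtain ⟨q, hq, rfl⟩ := mem_image.1 hx
      have h := Subgroup.mem_centralizer_iff.1 (hsC (hs.mem_toFinset.1 hq)) _ rfl
      rw [← QuotientGroup.eq_one_iff]
      change π (q.out * i0 * q.out⁻¹ * i0) = 1
      have e : π q.out = q := QuotientGroup.out_eq' q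
      rw [map_mul, map_mul, map_mul, map_inv, e, ← h, mul_inv_cancel_right, ht])
    refine ((T.finite_toSet).image π).subset fun q hq => ?_
    have : Subgroup.closure s =
        (Subgroup.closure ((hs.toFinset.image Quotient.out : Finset G0) : Set G0)).map π := by
      rw [MonoidHom.map_closure, coe_image, Set.image_image, hs.coe_toFinset]
      congr 1
      exact (Set.image_id s).symm.trans
        (Set.image_congr fun q _ => (QuotientGroup.out_eq' q).symm)
    rw [SetLike.mem_coe, this] at hq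
    obtain ⟨g, hg, rfl⟩ := hq
    obtain ⟨t, ht, h⟩ := hT g hg
    refine ⟨t, ht, ?_⟩
    have h' : π (g * t⁻¹) = 1 := (QuotientGroup.eq_one_iff _).2 h
    rw [map_mul, map_inv, mul_inv_eq_one] at h'
    exact h'.symm
  · intro q hq k hk
    obtain ⟨g, rfl⟩ := QuotientGroup.mk'_surjective K q
    by_cases hg : g ∈ F0
    · exact Or.inl (hcop g hg k hk)
    · right
      have hc : Commute (π g) (π i0) := (Subgroup.mem_centralizer_iff.1 hq _ rfl).symm
      have := hcop _ (mul_i0_mem hg) (k + 1) (by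
        rw [map_mul, hc.mul_pow, pow_succ, pow_mul, hk, one_pow, one_mul, mul_comm, pow_mul,
          pow_two, ht, one_pow])
      rw [map_mul] at this
      exact (eq_inv_of_mul_eq_one_left this).trans (inv_eq_of_mul_eq_one_left ht)

theorem sylow_card {G : Type} [Group G] {t : G} (ht : orderOf t = 2)
    (h : ∀ g ∈ Subgroup.centralizer ({t} : Set G), ∀ k, g ^ (2 ^ k) = 1 → g = 1 ∨ g = t)
    (P : Sylow 2 (Subgroup.centralizer ({t} : Set G))) :
    Nat.card (P : Subgroup (Subgroup.centralizer ({t} : Set G))) = 2 := by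
  let t' : Subgroup.centralizer ({t} : Set G) :=
    ⟨t, Subgroup.mem_centralizer_iff.2 (by rintro _ rfl; rfl)⟩
  have hc : Nat.card (Subgroup.zpowers t') = 2 := by
    rw [Nat.card_zpowers, Subgroup.orderOf_mk, ht]
  have : Subgroup.zpowers t' = P := by
    refine P.is_maximal' (IsPGroup.of_card (n := 1) (by rw [hc, pow_one])) fun g hg => ?_
    obtain ⟨k, hk⟩ := P.isPGroup' ⟨g, hg⟩
    rcases h g.1 g.2 k (congrArg (fun x => x.1.1) hk) with h1 | h1
    · rw [show g = 1 from Subtype.ext h1]; exact Subgroup.one_mem _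
    · rw [show g = t' from Subtype.ext h1]; exact Subgroup.mem_zpowers _
  rw [← this, hc]

end Pool.Agent.Lib.MP_6cc228_al
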