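import Pool.Agent.Lib.MP_6cc228_al.Alg

/-!
The index three step on families: weighted Schreier formula.
-/

namespace Pool.Agent.Lib.MP_6cc228_al

open Finset

variable {G : Type} [Group G]

/-- iterated commutators with `h` -/
def cm (h : G) : ℕ → G → G
  | 0, y => y
  | k + 1, y => h * cm h k y * h⁻¹ * (cm h k y)⁻¹

theorem cm_succ (h : G) (k : ℕ) (y : G) :
    cm h (k + 1) y = h * cm h k y * h⁻¹ * (cm h k y)⁻¹ := rfl

theorem conj_cm (h : G) (k : ℕ) (y : G) : h * cm h k y * h⁻¹ = cm h (k + 1) y * cm h k y := by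
  rw [cm_succ]; group

theorem cm_three (h y : G) : cm h 3 y = (h ^ 3 * y * (h ^ 3)⁻¹ * y⁻¹) *
    ((cm h 2 y * cm h 2 y * (cm h 1 y * cm h 2 y * (cm h 1 y)⁻¹ * (cm h 2 y)⁻¹) *
      (cm h 2 y * cm h 2 y)⁻¹) * (cm h 2 y) ^ 3 * (cm h 1 y) ^ 3)⁻¹ := by
  simp only [cm, pow_succ, pow_zero, one_mul]
  group

theorem cm_mem {M : Subgroup G} {h y : G} (hM : ∀ g ∈ M, h * g * h⁻¹ ∈ M) (hy : y ∈ M) (k : ℕ) :
    cm h k y ∈ M := by
  induction k with
  | zero => exact hy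
  | succ k ih => exact M.mul_mem (hM _ ih) (M.inv_mem ih)

theorem cm_mem' {M : Subgroup G} {h y : G} (hh : h ∈ M) (hy : y ∈ M) (k : ℕ) : cm h k y ∈ M :=
  cm_mem (fun _ hg => M.mul_mem (M.mul_mem hh hg) (M.inv_mem hh)) hy k

/-- the factor by which weighted ranks grow -/
noncomputable def PP (e : ℕ) : ℝ := 1 + (1 / 2 : ℝ) ^ e + ((1 / 2 : ℝ) ^ e) ^ 2

theorem one_le_PP (e : ℕ) : 1 + (1 / 2 : ℝ) ^ e ≤ PP e := by
  unfold PP
  have : 0 ≤ ((1 / 2 : ℝ) ^ e) ^ 2 := by positivity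
  linarith

namespace Fam

theorem cm_mem_FG {X : Fam G} {h y : G} {e n : ℕ} (hh : h ∈ X.FG e) (hy : y ∈ X.FG n) (k : ℕ) :
    cm h k y ∈ X.FG (n + k * e) := by
  induction k with
  | zero => exact FG_anti (by omega) hy
  | succ k ih => exact FG_anti (le_of_eq (by ring)) (comm_mem_FG hh ih)

def sum (X Y : Fam G) : Fam G where
  ι := X.ι ⊕ Y.ι
  el := Sum.elim X.el Y.el
  deg := Sum.elim X.deg Y.deg
  pos i := by cases i with
    | inl i => exact X.pos i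
    | inr i => exact Y.pos i

omit [Group G] in
theorem wt_sum (X Y : Fam G) : (X.sum Y).wt = X.wt + Y.wt :=
  Fintype.sum_sum_type (fun i : X.ι ⊕ Y.ι => (1 / 2 : ℝ) ^ Sum.elim X.deg Y.deg i)

def single (g : G) (n : ℕ) (hn : 1 ≤ n) : Fam G where
  ι := Unit
  el _ := g
  deg _ := n
  pos _ := hn

omit [Group G] in
theorem wt_single (g : G) (n : ℕ) (hn : 1 ≤ n) : (single g n hn).wt = (1 / 2 : ℝ) ^ n := by
  simp [wt, single]

def empty (G : Type) : Fam G where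
  ι := Empty
  el i := i.elim
  deg i := i.elim
  pos i := i.elim

omit [Group G] in
theorem wt_empty : (empty G).wt = 0 := by simp [wt, empty]

/-- all commutators of length at most two with `h` -/
def exp (R : Fam G) (h : G) (e : ℕ) : Fam G where
  ι := R.ι × Fin 3
  el p := cm h p.2 (R.el p.1)
  deg p := R.deg p.1 + p.2 * e
  pos p := le_add_right (R.pos p.1)

theorem wt_exp (R : Fam G) (h : G) (e : ℕ) : (R.exp h e).wt = PP e * R.wt := by
  refine (Fintype.sum_prod_type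
    (fun p : R.ι × Fin 3 => (1 / 2 : ℝ) ^ (R.deg p.1 + p.2 * e))).trans ?_
  simp only [wt, Fin.sum_univ_three, mul_sum, PP]
  refine sum_congr rfl fun i _ => ?_
  simp only [Fin.val_zero, Fin.val_one, Fin.val_two, pow_add, pow_mul']
  ring

open Classical in
/-- remove the generator `i0` and multiply the others by powers of it -/
noncomputable def adj (S : Fam G) (i0 : S.ι) (j : S.ι → ℕ) : Fam G where
  ι := {i // i ≠ i0}
  el i := S.el i * (S.el i0 ^ j i)⁻¹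
  deg i := S.deg i
  pos i := S.pos i

theorem wt_adj (S : Fam G) (i0 : S.ι) (j : S.ι → ℕ) :
    (S.adj i0 j).wt = S.wt - (1 / 2 : ℝ) ^ S.deg i0 := by
  classical
  have := Finset.sum_subtype (F := (S.adj i0 j).fin) (univ.erase i0) (p := fun i => i ≠ i0)
    (by simp) (fun i => (1 / 2 : ℝ) ^ S.deg i)
  rw [wt, wt, ← Finset.add_sum_erase _ _ (mem_univ i0), this, add_sub_cancel_left]
  rfl

noncomputable def step (S : Fam G) (i0 : S.ι) (j : S.ι → ℕ) : Fam G :=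
  (single (S.el i0 ^ 3) (3 * S.deg i0) (by have := S.pos i0; omega)).sum
    ((S.adj i0 j).exp (S.el i0) (S.deg i0))

theorem wt_step (S : Fam G) (i0 : S.ι) (j : S.ι → ℕ) :
    (S.step i0 j).wt - 1 = PP (S.deg i0) * (S.wt - 1) := by
  rw [step, wt_sum, wt_single, wt_exp, wt_adj, pow_mul', PP]
  ring

theorem wt_step_le (S : Fam G) (i0 : S.ι) (j : S.ι → ℕ) :
    (S.step i0 j).wt ≤ PP (S.deg i0) * S.wt := by
  have h1 := wt_step S i0 j
  have h2 := one_le_PP (S.deg i0)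
  have h3 : 0 ≤ (1 / 2 : ℝ) ^ S.deg i0 := by positivity
  nlinarith

variable {S : Fam G} {i0 : S.ι} {j : S.ι → ℕ}

theorem cube_mem_step : S.el i0 ^ 3 ∈ (S.step i0 j).grp := (S.step i0 j).el_mem (Sum.inl ())

theorem cm_mem_step (i : S.ι) (hi : i ≠ i0) (k : ℕ) (hk : k < 3) :
    cm (S.el i0) k (S.el i * (S.el i0 ^ j i)⁻¹) ∈ (S.step i0 j).grp :=
  (S.step i0 j).el_mem (Sum.inr (⟨i, hi⟩, ⟨k, hk⟩))

theorem forall_step {P : G → ℕ → Prop} (h1 : P (S.el i0 ^ 3) (3 * S.deg i0))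
    (h2 : ∀ i, i ≠ i0 → ∀ k < 3,
      P (cm (S.el i0) k (S.el i * (S.el i0 ^ j i)⁻¹)) (S.deg i + k * S.deg i0))
    (p : (S.step i0 j).ι) : P ((S.step i0 j).el p) ((S.step i0 j).deg p) := by
  rcases p with _ | ⟨⟨i, hi⟩, k⟩
  · exact h1
  · exact h2 i hi k k.2

theorem step_le : (S.step i0 j).grp ≤ S.grp :=
  grp_le (forall_step (P := fun g _ => g ∈ S.grp) (S.grp.pow_mem (S.el_mem i0) 3)
    fun i _ k _ => cm_mem' (S.el_mem i0)
      (S.grp.mul_mem (S.el_mem i) (S.grp.inv_mem (S.grp.pow_mem (S.el_mem i0) _))) k)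

/-- the commutators satisfy the expected degree bound for the new filtration -/
theorem cm_mem_FG_step (i : S.ι) (hi : i ≠ i0) (k : ℕ) (hk : k ≤ 3) :
    cm (S.el i0) k (S.el i * (S.el i0 ^ j i)⁻¹) ∈
      (S.step i0 j).FG (S.deg i + k * S.deg i0) := by
  have h : ∀ k, k < 3 → cm (S.el i0) k (S.el i * (S.el i0 ^ j i)⁻¹) ∈
      (S.step i0 j).FG (S.deg i + k * S.deg i0) := fun k hk =>
    el_mem_FG (X := S.step i0 j) (Sum.inr (⟨i, hi⟩, ⟨k, hk⟩))
  rcases hk.lt_or_eq with hk | rfl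
  · exact h k hk
  have hz : S.el i0 ^ 3 ∈ (S.step i0 j).FG (3 * S.deg i0) :=
    el_mem_FG (X := S.step i0 j) (Sum.inl ())
  have h0 := h 0 (by norm_num)
  have h1 := h 1 (by norm_num)
  have h2 := h 2 (by norm_num)
  rw [cm_three]
  refine Subgroup.mul_mem _ (FG_anti (by omega) (comm_mem_FG hz h0)) (Subgroup.inv_mem _ ?_)
  refine Subgroup.mul_mem _ (Subgroup.mul_mem _ ?_ (FG_anti (by omega) (cube_mem_FG h2)))
    (FG_anti (by omega) (cube_mem_FG h1))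
  exact conj_mem_FG (FG_anti (by omega) (comm_mem_FG h1 h2)) (Subgroup.mul_mem _ h2.1 h2.1)

/-- conjugation by the removed generator moves generators by elements of higher degree -/
theorem comm_gen_step (p : (S.step i0 j).ι) :
    S.el i0 * (S.step i0 j).el p * (S.el i0)⁻¹ * ((S.step i0 j).el p)⁻¹ ∈
      (S.step i0 j).FG ((S.step i0 j).deg p + S.deg i0) := by
  refine forall_step (P := fun g n => S.el i0 * g * (S.el i0)⁻¹ * g⁻¹ ∈
      (S.step i0 j).FG (n + S.deg i0)) ?_ ?_ p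
  · rw [show S.el i0 * S.el i0 ^ 3 * (S.el i0)⁻¹ * (S.el i0 ^ 3)⁻¹ = 1 by group]
    exact Subgroup.one_mem _
  · intro i hi k hk
    exact FG_anti (le_of_eq (by ring)) (cm_mem_FG_step i hi (k + 1) hk)

theorem conj_gen_step (p : (S.step i0 j).ι) :
    S.el i0 * (S.step i0 j).el p * (S.el i0)⁻¹ ∈ (S.step i0 j).FG ((S.step i0 j).deg p) := by
  have := Subgroup.mul_mem _ (FG_anti (Nat.le_add_right _ _) (comm_gen_step p)) (el_mem_FG p)
  rwa [inv_mul_cancel_right] at this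

theorem conj_mem_step {g : G} (hg : g ∈ (S.step i0 j).grp) :
    S.el i0 * g * (S.el i0)⁻¹ ∈ (S.step i0 j).grp :=
  (conj_mem_FG_of conj_gen_step 1 (grp_le_FG_one hg)).1

theorem conj_pow_mem_step {g : G} (hg : g ∈ (S.step i0 j).grp) (l : ℕ) :
    S.el i0 ^ l * g * (S.el i0 ^ l)⁻¹ ∈ (S.step i0 j).grp := by
  induction l with
  | zero => simpa using hg
  | succ l ih =>
    have := conj_mem_step ih
    rwa [show S.el i0 * (S.el i0 ^ l * g * (S.el i0 ^ l)⁻¹) * (S.el i0)⁻¹ =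
      S.el i0 ^ (l + 1) * g * (S.el i0 ^ (l + 1))⁻¹ by rw [pow_succ']; group] at this

theorem exists_pow_step {g : G} (hg : g ∈ S.grp) :
    ∃ l < 3, g * (S.el i0 ^ l)⁻¹ ∈ (S.step i0 j).grp := by
  have h3 : ∀ q : ℕ, S.el i0 ^ (3 * q) ∈ (S.step i0 j).grp := fun q => by
    rw [pow_mul]; exact Subgroup.pow_mem _ cube_mem_step q
  have : ∃ l : ℕ, g * (S.el i0 ^ l)⁻¹ ∈ (S.step i0 j).grp := by
    refine grp_induction (P := fun g => ∃ l : ℕ, g * (S.el i0 ^ l)⁻¹ ∈ (S.step i0 j).grp) hg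
      ?_ ⟨0, by simp⟩ ?_ ?_
    · intro i
      rcases eq_or_ne i i0 with rfl | hi
      · exact ⟨1, by simp⟩
      · exact ⟨j i, cm_mem_step i hi 0 (by norm_num)⟩
    · rintro a b - - ⟨l, hl⟩ ⟨l', hl'⟩
      refine ⟨l + l', ?_⟩
      have := Subgroup.mul_mem _ hl (conj_pow_mem_step hl' l)
      rwa [show a * (S.el i0 ^ l)⁻¹ * (S.el i0 ^ l * (b * (S.el i0 ^ l')⁻¹) * (S.el i0 ^ l)⁻¹) =
        a * b * (S.el i0 ^ (l + l'))⁻¹ by rw [pow_add]; group] at this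
    · rintro a - ⟨l, hl⟩
      refine ⟨2 * l, ?_⟩
      have := Subgroup.mul_mem _ (Subgroup.inv_mem _ (h3 l))
        (conj_pow_mem_step (Subgroup.inv_mem _ hl) (2 * l))
      rwa [show (S.el i0 ^ (3 * l))⁻¹ * (S.el i0 ^ (2 * l) * (a * (S.el i0 ^ l)⁻¹)⁻¹ *
        (S.el i0 ^ (2 * l))⁻¹) = a⁻¹ * (S.el i0 ^ (2 * l))⁻¹ by group] at this
  obtain ⟨l, hl⟩ := this
  refine ⟨l % 3, Nat.mod_lt _ (by norm_num), ?_⟩
  have h := Subgroup.mul_mem _ hl (h3 (l / 3))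
  have e : S.el i0 ^ l = S.el i0 ^ (3 * (l / 3)) * S.el i0 ^ (l % 3) := by
    rw [← pow_add, Nat.div_add_mod]
  have e2 : S.el i0 ^ l = S.el i0 ^ (l % 3) * S.el i0 ^ (3 * (l / 3)) := by
    rw [← pow_add, Nat.mod_add_div]
  rwa [show g * (S.el i0 ^ l)⁻¹ * S.el i0 ^ (3 * (l / 3)) = g * (S.el i0 ^ (l % 3))⁻¹ by
    rw [e]; group] at h

/-- degree bounds with respect to an ambient filtration pass to the new family -/
theorem step_mem_FG {X : Fam G} (hS : ∀ i, S.el i ∈ X.FG (S.deg i))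
    (hj : ∀ i, j i ≠ 0 → S.deg i ≤ S.deg i0) (p : (S.step i0 j).ι) :
    (S.step i0 j).el p ∈ X.FG ((S.step i0 j).deg p) := by
  refine forall_step (P := fun g n => g ∈ X.FG n) (cube_mem_FG (hS i0)) ?_ p
  intro i _ k _
  refine cm_mem_FG (hS i0) (Subgroup.mul_mem _ (hS i) (Subgroup.inv_mem _ ?_)) k
  by_cases h : j i = 0
  · rw [h, pow_zero]; exact Subgroup.one_mem _
  · exact Subgroup.pow_mem _ (FG_anti (hj i h) (hS i0)) _

end Fam

end Pool.Agent.Lib.MP_6cc228_al
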