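import Pool.Agent.Lib.MP_6cc228_al.Descent

/-!
Groups of positive weighted deficiency with an involution: adding relators, Dietzmann's lemma,
making finitely generated subgroups of the centralizer finite.
-/

namespace Pool.Agent.Lib.MP_6cc228_al

open Finset

variable {G : Type} [Group G]

/-- products of a conjugation invariant family of involutions can be shortened -/
theorem exists_nodup {Q : Type} [Group Q] (C : Set Q) (hC : ∀ a ∈ C, ∀ b ∈ C, a * b * a ∈ C)
    (h2 : ∀ a ∈ C, a * a = 1) (n : ℕ) : ∀ l : List Q, l.length ≤ n → (∀ a ∈ l, a ∈ C) →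
      ∃ l' : List Q, l'.Nodup ∧ (∀ a ∈ l', a ∈ C) ∧ l'.prod = l.prod := by
  induction n using Nat.strong_induction_on with
  | _ n ih =>
    intro l hl hlC
    by_cases hnd : l.Nodup
    · exact ⟨l, hnd, hlC, rfl⟩
    obtain ⟨a, ha⟩ := List.exists_duplicate_iff_not_nodup.2 hnd
    obtain ⟨l1, l2, l3, rfl⟩ : ∃ l1 l2 l3, l = l1 ++ a :: (l2 ++ a :: l3) := by
      have hs := List.duplicate_iff_sublist.1 ha
      obtain ⟨r1, r2, rfl, h1, h3⟩ := List.cons_sublist_iff.1 hs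
      obtain ⟨s, t, rfl⟩ := List.append_of_mem h1
      obtain ⟨s', t', rfl⟩ := List.append_of_mem (List.singleton_sublist.1 h3)
      exact ⟨s, t ++ s', t', by simp⟩
    have haC : a ∈ C := hlC a (by simp)
    have hp : ∀ l : List Q, (l.map fun b => a * b * a).prod = a * l.prod * a := by
      intro l
      induction l with
      | nil => simp [h2 a haC]
      | cons b l ihl =>
        rw [List.map_cons, List.prod_cons, List.prod_cons, ihl]
        calc a * b * a * (a * l.prod * a) = a * b * (a * a) * l.prod * a := by group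
          _ = _ := by rw [h2 a haC]; group
    obtain ⟨l', h1, h3, h4⟩ := ih (l1.length + l2.length + l3.length) (by simp at hl; omega)
      (l1 ++ ((l2.map fun b => a * b * a) ++ l3)) (by simp; omega) (by
        intro b hb
        simp only [List.mem_append, List.mem_map] at hb
        rcases hb with hb | ⟨c, hc, rfl⟩ | hb
        · exact hlC b (by simp [hb])
        · exact hC a haC c (hlC c (by simp [hc]))
        · exact hlC b (by simp [hb]))
    refine ⟨l', h1, h3, ?_⟩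
    rw [h4]
    simp only [List.prod_append, List.prod_cons, hp]
    simp only [mul_assoc]

/-- the hypotheses on the group, its subgroup `F` and the involution `i` -/
structure Base (F : Subgroup G) (i : G) : Prop where
  sq : i * i = 1
  gen : Subgroup.closure ({i} ∪ {x | x ∈ F ∧ i * x * i = x⁻¹}) = ⊤

/-- Dietzmann's lemma, quantitative form -/
theorem dietzmann {F : Subgroup G} {i : G} (hB : Base F i) {K H : Subgroup G} [hK : K.Normal]
    (hH : ∀ h ∈ H, h * i * h⁻¹ * i ∈ K) (hodd : ∀ g ∈ F, ∃ a, g ^ (3 ^ a) ∈ K) {T0 : Finset G}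
    (hT : Cov T0 (H ⊔ K) ⊤) :
    ∃ T : Finset G, Cov T K ⊤ ∧ T.card ≤ (T0.card + 1) ^ T0.card := by
  classical
  let π := QuotientGroup.mk' K
  have hi : π i * π i = 1 := by rw [← map_mul, hB.sq, map_one]
  let C : Set (G ⧸ K) := {q | ∃ g : G, q = π (g⁻¹ * i * g)}
  have hC2 : ∀ a ∈ C, a * a = 1 := by
    rintro _ ⟨g, rfl⟩
    rw [← map_mul, show g⁻¹ * i * g * (g⁻¹ * i * g) = g⁻¹ * (i * i) * g by group, hB.sq]
    simp
  have hCC : ∀ a ∈ C, ∀ b ∈ C, a * b * a ∈ C := by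
    rintro a ha _ ⟨g, rfl⟩
    obtain ⟨x, rfl⟩ := QuotientGroup.mk'_surjective K a
    refine ⟨g * x, ?_⟩
    have : π x = (π x)⁻¹ := eq_inv_of_mul_eq_one_left (hC2 _ ha)
    change π x * π (g⁻¹ * i * g) * π x = _
    nth_rewrite 1 [this]
    rw [← map_inv, ← map_mul, ← map_mul]
    congr 1; group
  have hCT : ∀ a ∈ C, ∃ t ∈ T0, a = π (t⁻¹ * i * t) := by
    rintro _ ⟨g, rfl⟩
    obtain ⟨t, ht, hg⟩ := hT g trivial
    obtain ⟨h, hh, x, hx, e⟩ := Subgroup.mem_sup_of_normal_right.1 hg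
    refine ⟨t, ht, ?_⟩
    have eg : g = h * x * t := by rw [e]; group
    have h1 : π x = 1 := (QuotientGroup.eq_one_iff x).2 hx
    have h2 : π (h⁻¹ * i * h⁻¹⁻¹ * i) = 1 := (QuotientGroup.eq_one_iff _).2 (hH _ (H.inv_mem hh))
    have h3 : (π h)⁻¹ * π i * π h = π i := by
      simp only [map_mul, map_inv, inv_inv] at h2
      rw [← mul_left_inj (π i), h2, hi]
    rw [eg]
    simp only [map_mul, map_inv, h1, mul_one]
    calc (π h * π t)⁻¹ * π i * (π h * π t) = (π t)⁻¹ * ((π h)⁻¹ * π i * π h) * π t := by group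
      _ = _ := by rw [h3]
  have hiC : π i ∈ C := ⟨1, by simp⟩
  have hgen : ∀ g : G, ∃ l : List (G ⧸ K), (∀ a ∈ l, a ∈ C) ∧ l.prod = π g := by
    intro g
    have hg : g ∈ Subgroup.closure ({i} ∪ {x | x ∈ F ∧ i * x * i = x⁻¹}) := hB.gen ▸ trivial
    induction hg using Subgroup.closure_induction with
    | mem x hx =>
      rcases hx with rfl | ⟨hxF, hx⟩
      · exact ⟨[π x], by simpa using hiC, by simp⟩
      · obtain ⟨a, ha⟩ := hodd x hxF
        obtain ⟨m, hm⟩ : Odd (3 ^ a) := Odd.pow (by decide)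
        have h1 : π (x ^ (2 * m + 1)) = 1 := (QuotientGroup.eq_one_iff _).2 (hm ▸ ha)
        have h2 : ∀ l : ℕ, i * x ^ l = (x ^ l)⁻¹ * i := by
          intro l
          induction l with
          | zero => simp
          | succ l ih =>
            have e : i * x = x⁻¹ * i := by rw [← hx, mul_assoc, mul_assoc, hB.sq, mul_one]
            rw [pow_succ, ← mul_assoc, ih, mul_assoc, e, ← pow_succ, pow_succ']; group
        refine ⟨[π ((x ^ m)⁻¹ * i * x ^ m), π i], ?_, ?_⟩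
        · intro b hb
          simp only [List.mem_cons, List.not_mem_nil, or_false] at hb
          rcases hb with rfl | rfl
          · exact ⟨_, rfl⟩
          · exact hiC
        · simp only [List.prod_cons, List.prod_nil, mul_one]
          rw [← map_mul, mul_assoc (x ^ m)⁻¹, h2, mul_assoc, mul_assoc, hB.sq, mul_one,
            ← mul_one (π _), ← h1, ← map_mul]
          congr 1; group
    | one => exact ⟨[], by simp, by simp⟩
    | mul a b _ _ iha ihb =>
      obtain ⟨l, h1, h2⟩ := iha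
      obtain ⟨l', h1', h2'⟩ := ihb
      refine ⟨l ++ l', fun c hc => ?_, by rw [List.prod_append, h2, h2', map_mul]⟩
      rcases List.mem_append.1 hc with hc | hc
      · exact h1 c hc
      · exact h1' c hc
    | inv a _ ih =>
      obtain ⟨l, h1, h2⟩ := ih
      refine ⟨l.reverse, fun c hc => h1 c (List.mem_reverse.1 hc), ?_⟩
      rw [map_inv, ← h2, List.prod_inv_reverse]
      congr 2
      symm
      rw [List.map_congr_left (g := id), List.map_id]
      exact fun c hc => (eq_inv_of_mul_eq_one_left (hC2 c (h1 c hc))).symm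
  let B : Finset (G ⧸ K) := insert 1 (T0.image fun t => π (t⁻¹ * i * t))
  have hB1 : B.card ≤ T0.card + 1 := (card_insert_le _ _).trans (Nat.succ_le_succ card_image_le)
  let ev : (Fin T0.card → G ⧸ K) → G := fun f => (List.ofFn f).prod.out
  refine ⟨(Fintype.piFinset fun _ => B).image ev, fun g _ => ?_, ?_⟩
  · obtain ⟨l, h1, h2⟩ := hgen g
    obtain ⟨l', hnd, h3, h4⟩ := exists_nodup C hCC hC2 _ l le_rfl h1
    have hlen : l'.length ≤ T0.card := by
      rw [← List.toFinset_card_of_nodup hnd]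
      refine le_trans (card_le_card (t := T0.image fun t => π (t⁻¹ * i * t)) fun a ha => ?_)
        card_image_le
      obtain ⟨t, ht, rfl⟩ := hCT a (h3 a (List.mem_toFinset.1 ha))
      exact mem_image.2 ⟨t, ht, rfl⟩
    let l'' := l' ++ List.replicate (T0.card - l'.length) 1
    have hl'' : l''.length = T0.card := by simp [l'']; omega
    let f : Fin T0.card → G ⧸ K := fun k => l''.get (k.cast hl''.symm)
    have hf : List.ofFn f = l'' := by
      rw [← List.ofFn_get l'']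
      exact (List.ofFn_congr hl'' l''.get).symm
    refine ⟨ev f, mem_image.2 ⟨f, Fintype.mem_piFinset.2 fun k => ?_, rfl⟩, ?_⟩
    · have : f k ∈ l'' := List.get_mem _ _
      rcases List.mem_append.1 this with h | h
      · obtain ⟨t, ht, e⟩ := hCT _ (h3 _ h)
        exact mem_insert_of_mem (mem_image.2 ⟨t, ht, e.symm⟩)
      · rw [List.eq_of_mem_replicate h]; exact mem_insert_self _ _
    · rw [← QuotientGroup.eq_one_iff, QuotientGroup.mk_mul, QuotientGroup.mk_inv]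
      simp only [ev, hf, QuotientGroup.out_eq', l'', List.prod_append, List.prod_replicate,
        one_pow, mul_one, h4, h2]
      exact mul_inv_cancel _
  · refine card_image_le.trans ?_
    rw [Fintype.card_piFinset]
    simp only [prod_const, card_univ, Fintype.card_fin]
    exact Nat.pow_le_pow_left hB1 _

namespace Fam

/-- top level data for the normal subgroup `K` -/
structure Top (F K : Subgroup G) (X R : Fam G) : Prop where
  free : X.Free
  rel : Rel X R K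
  inv : X.Inv
  fin : FI X.grp ⊤
  le : X.grp ≤ F
  pw : ∀ g ∈ F, ∃ a, g ^ (3 ^ a) ∈ X.grp
  pos : 0 < df X R

/-- conjugates of a family by the elements of a finite set -/
def conjs (S : Fam G) (T : Finset G) : Fam G where
  ι := T × S.ι
  el p := p.1.1 * S.el p.2 * p.1.1⁻¹
  deg p := S.deg p.2
  pos p := S.pos p.2

theorem wt_conjs (S : Fam G) (T : Finset G) : (S.conjs T).wt = T.card * S.wt := by
  refine (Fintype.sum_prod_type (fun p : T × S.ι => (1 / 2 : ℝ) ^ S.deg p.2)).trans ?_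
  simp [wt]

/-- the normal closure -/
def ncl (S : Fam G) : Subgroup G := Subgroup.normalClosure (Set.range S.el)

instance (S : Fam G) : S.ncl.Normal := Subgroup.normalClosure_normal

theorem grp_le_ncl (S : Fam G) : S.grp ≤ S.ncl := Subgroup.closure_le_normalClosure

theorem Rel.add {X R S : Fam G} {K : Subgroup G} (hR : Rel X R K) (hX : X.Inv) {T : Finset G}
    (hT : Cov T X.grp ⊤) (hS : ∀ i, S.el i ∈ X.FG (S.deg i)) :
    Rel X (R.sum (S.conjs T)) (K ⊔ S.ncl) := by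
  refine ⟨?_, ?_, sup_le (hR.le.trans (Subgroup.closure_mono ?_))
    ((Subgroup.closure_le _).2 ?_)⟩
  · rintro (r | ⟨t, i⟩)
    · exact hR.deg r
    · exact (hX.normal _).conj_mem _ (hS i) _
  · rintro (r | ⟨t, i⟩)
    · exact Subgroup.mem_sup_left (hR.mem r)
    · exact Subgroup.mem_sup_right
        ((inferInstance : S.ncl.Normal).conj_mem _ (grp_le_ncl S (S.el_mem i)) _)
  · rintro _ ⟨g, hg, r, rfl⟩
    exact ⟨g, hg, Sum.inl r, rfl⟩
  · intro x hx
    obtain ⟨_, ⟨i, rfl⟩, hc⟩ := Group.mem_conjugatesOfSet_iff.1 hx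
    obtain ⟨g, rfl⟩ := isConj_iff.1 hc
    obtain ⟨t, ht, hg⟩ := hT g trivial
    refine Subgroup.subset_closure ⟨_, hg, Sum.inr (⟨t, ht⟩, i), ?_⟩
    change _ = g * t⁻¹ * (t * S.el i * t⁻¹) * (g * t⁻¹)⁻¹
    group

theorem df_add (X R S : Fam G) (T : Finset G) :
    df X (R.sum (S.conjs T)) = df X R - T.card * S.wt := by
  rw [df, df, wt_sum, wt_conjs]; ring

theorem Top.add {F K : Subgroup G} {X R : Fam G} (h : Top F K X R) :
    ∃ ε : ℝ, 0 < ε ∧ ∀ S : Fam G, (∀ i, S.el i ∈ X.FG (S.deg i)) → S.wt < ε →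
      ∃ R', Top F (K ⊔ S.ncl) X R' := by
  obtain ⟨T, hT⟩ := h.fin
  have hpos := h.pos
  refine ⟨df X R / (T.card + 1), by positivity, fun S hS hlt => ⟨_, h.free,
    h.rel.add h.inv hT hS, h.inv, h.fin, h.le, h.pw, ?_⟩⟩
  rw [lt_div_iff₀ (by positivity)] at hlt
  rw [df_add]
  have := S.wt_nonneg
  nlinarith

theorem Top.odd {F K : Subgroup G} {X R : Fam G} (h : Top F K X R) (n : ℕ) {g : G} (hg : g ∈ F) :
    ∃ a, g ^ (3 ^ a) ∈ X.FG n := by
  obtain ⟨a, ha⟩ := h.pw g hg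
  refine ⟨a + n, ?_⟩
  rw [pow_add, pow_mul]
  refine FG_anti ?_ (pow_mem_FG (grp_le_FG_one ha) n)
  rw [mul_one]
  exact (Nat.lt_pow_self (by norm_num)).le

theorem exists_large (c : ℝ) (m : ℕ) : ∃ n, m ≤ n ∧ c * (1 / 2 : ℝ) ^ n < 1 / 2 := by
  have h := (tendsto_pow_atTop_nhds_zero_of_lt_one (r := (1 / 2 : ℝ)) (by norm_num)
    (by norm_num)).const_mul c
  rw [mul_zero] at h
  obtain ⟨n, hn⟩ := ((h.eventually (gt_mem_nhds (show (0 : ℝ) < 1 / 2 by norm_num))).and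
    (Filter.eventually_ge_atTop m)).exists
  exact ⟨n, hn.2, hn.1⟩

theorem Top.not_FI {F K : Subgroup G} [K.Normal] {X R : Fam G} (h : Top F K X R) : ¬ FI K ⊤ := by
  rintro ⟨T, hT⟩
  obtain ⟨n, hn, hlt⟩ := exists_large ((Fintype.card X.ι : ℝ) * T.card) 1
  have hpos := h.pos
  rw [df] at hpos
  have := gs h.free h.rel (by linarith) hn (hT.mono le_sup_right le_top)
  linarith

theorem Top.gain {F K H : Subgroup G} [K.Normal] {i : G} (hB : Base F i) {X R : Fam G}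
    (h : Top F K X R) (hKH : K ≤ H) (hH : ∀ x ∈ H, x * i * x⁻¹ * i ∈ K) :
    ∃ ε : ℝ, 0 < ε ∧ ∀ m, 1 ≤ m → ∀ Y Q S, St X K H m Y Q S → X.FG m ≤ Y.grp →
      ∃ n, 1 ≤ n ∧ ∃ Y' Q' S', St X K H n Y' Q' S' ∧ X.FG n ≤ Y'.grp ∧
        ∀ a : ℝ, 0 ≤ a → a * S.wt ≤ df Y Q → a * (1 + ε) * S'.wt ≤ df Y' Q' := by
  obtain ⟨ε, hε, hadd⟩ := h.add
  refine ⟨ε, hε, fun m hm Y Q S hS hY => ?_⟩
  obtain ⟨T0, hT0⟩ := hS.cov.trans h.fin
  obtain ⟨n, hn, hlt⟩ :=
    exists_large ((Fintype.card X.ι : ℝ) * (((T0.card + 1) ^ T0.card : ℕ) : ℝ)) m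
  obtain ⟨Y', Q', S', E, hS', hp, hY'⟩ := hS.levels h.inv hKH hm hY hn
  have hE : ε ≤ E.wt := by
    by_contra hcon
    obtain ⟨R', h'⟩ := hadd E hp.deg (not_le.1 hcon)
    have := h.inv.normal n
    obtain ⟨T, hT, hcard⟩ := dietzmann hB (K := X.FG n ⊔ (K ⊔ E.ncl)) (H := H)
      (fun x hx => Subgroup.mem_sup_right (Subgroup.mem_sup_left (hH x hx)))
      (fun g hg => (h.odd n hg).imp fun a ha => Subgroup.mem_sup_left ha)
      (hT0.mono (hp.le.trans (sup_le (sup_le (le_sup_of_le_right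
        (hS'.hi.trans (sup_le_sup_left le_sup_left _))) le_sup_left)
        (le_sup_of_le_right (le_sup_of_le_right (le_sup_of_le_right (grp_le_ncl E)))))) le_rfl)
    have hpos := h'.pos
    rw [df] at hpos
    have h1 := gs h'.free h'.rel (by linarith) (hm.trans hn) (hT.mono le_rfl le_top)
    have h2 : (T.card : ℝ) ≤ (((T0.card + 1) ^ T0.card : ℕ) : ℝ) := by exact_mod_cast hcard
    have h3 : (Fintype.card X.ι : ℝ) * T.card * (1 / 2 : ℝ) ^ n ≤
        (Fintype.card X.ι : ℝ) * (((T0.card + 1) ^ T0.card : ℕ) : ℝ) * (1 / 2 : ℝ) ^ n := by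
      gcongr
    linarith
  refine ⟨n, hm.trans hn, Y', Q', S', hS', hY', fun a ha hh => le_trans ?_ (hp.gain a ha hh)⟩
  have := S'.wt_nonneg
  gcongr

theorem Top.exists_ratio {F K H : Subgroup G} [K.Normal] {i : G} (hB : Base F i) {X R : Fam G}
    (h : Top F K X R) (hKH : K ≤ H) (hH : ∀ x ∈ H, x * i * x⁻¹ * i ∈ K) {S : Fam G}
    (hS : St X K H 1 X R S) :
    ∃ n, 1 ≤ n ∧ ∃ Y' Q' S', St X K H n Y' Q' S' ∧ X.FG n ≤ Y'.grp ∧ 2 * S'.wt ≤ df Y' Q' := by
  obtain ⟨ε, hε, hg⟩ := h.gain hB hKH hH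
  have hpos := h.pos
  have hw := S.wt_nonneg
  set a0 := df X R / (S.wt + 1) with ha0
  have ha0' : 0 < a0 := by positivity
  have key : ∀ s : ℕ, ∃ n, 1 ≤ n ∧ ∃ Y' Q' S', St X K H n Y' Q' S' ∧ X.FG n ≤ Y'.grp ∧
      a0 * (1 + ε) ^ s * S'.wt ≤ df Y' Q' := by
    intro s
    induction s with
    | zero =>
      refine ⟨1, le_rfl, X, R, S, hS, FG_le_grp 1, ?_⟩
      rw [pow_zero, mul_one, ha0, div_mul_eq_mul_div, div_le_iff₀ (by positivity)]
      nlinarith
    | succ s ih =>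
      obtain ⟨n, hn, Y, Q, S1, h1, h2, h3⟩ := ih
      obtain ⟨n', hn', Y', Q', S', h1', h2', h3'⟩ := hg n hn Y Q S1 h1 h2
      refine ⟨n', hn', Y', Q', S', h1', h2', ?_⟩
      rw [pow_succ, ← mul_assoc]
      exact h3' _ (by positivity) h3
  obtain ⟨s, hs⟩ := pow_unbounded_of_one_lt (2 / a0) (show 1 < 1 + ε by linarith)
  obtain ⟨n, hn, Y', Q', S', h1, h2, h3⟩ := key s
  refine ⟨n, hn, Y', Q', S', h1, h2, le_trans ?_ h3⟩
  rw [div_lt_iff₀ ha0'] at hs
  exact mul_le_mul_of_nonneg_right (by linarith) S'.wt_nonneg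

theorem Top.contract {F K H : Subgroup G} [K.Normal] {X R : Fam G} (h : Top F K X R) {n : ℕ}
    {Y Q S : Fam G} (hS : St X K H n Y Q S) (hY : X.FG n ≤ Y.grp) (h2 : 2 * S.wt ≤ df Y Q) :
    ∃ X' R' S' : Fam G, Top F K X' R' ∧ (∀ i, S'.el i ∈ X'.FG (S'.deg i)) ∧ S'.wt < 1 ∧
      FI (S'.grp ⊔ K) H := by
  classical
  have hex : ∃ m : ℕ, (1 / 2 : ℝ) ^ m * S.wt < 1 := by
    obtain ⟨m, -, hm⟩ := exists_large S.wt 0
    exact ⟨m, by linarith⟩
  obtain ⟨m, hm1, hm2⟩ : ∃ m : ℕ, (1 / 2 : ℝ) ^ m * S.wt < 1 ∧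
      1 < (1 / 2 : ℝ) ^ m * (df Y Q + 1) := by
    refine ⟨Nat.find hex, Nat.find_spec hex, ?_⟩
    have hpos := hS.pos
    rcases hm : Nat.find hex with _ | m
    · simpa using hpos
    · have h1 := not_lt.1 (Nat.find_min hex (show m < Nat.find hex by omega))
      have h3 : 0 < (1 / 2 : ℝ) ^ m := by positivity
      rw [pow_succ]
      nlinarith
  have := h.inv.normal n
  have hYe : Y.grp = X.FG n ⊔ K := le_antisymm hS.hi (sup_le hY hS.rel.le_grp)
  have hYn : Y.grp.Normal := by rw [hYe]; infer_instance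
  refine ⟨Y.shift m, Q.shift m, S.shift m, ⟨hS.free,
    ⟨fun r => FG_le_shift m (Q.pos r) (hS.rel.deg r), hS.rel.mem, hS.rel.le⟩, fun g i => ?_,
    hS.cov.trans h.fin, ?_, fun g hg => (h.odd n hg).imp fun a ha => hY ha, ?_⟩,
    fun i => FG_le_shift m (S.pos i) ((hS.fg _ _).2 ⟨hS.sdeg i, hS.smem (S.el_mem i)⟩),
    by rwa [wt_shift], hS.scov⟩
  · exact FG_le_shift m (Y.pos i) ((hS.fg _ _).2
      ⟨(h.inv.normal _).conj_mem _ ((hS.fg _ _).1 (el_mem_FG (X := Y) i)).1 g,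
        hYn.conj_mem _ (Y.el_mem i) g⟩)
  · exact (hS.hi.trans (sup_le (FG_le_grp n) h.rel.le_grp)).trans h.le
  · rw [df, wt_shift, wt_shift]
    rw [df] at hm2
    linarith

theorem round (X : Fam G) (c : ℕ) : ∀ (S : Fam G) (e : Fin c → S.ι), Function.Injective e →
    (∀ i, S.el i ∈ X.FG (S.deg i)) → S.wt ≤ 1 →
    ∃ S' : Fam G, (∀ i, S'.el i ∈ X.FG (S'.deg i)) ∧ FI S'.grp S.grp ∧
      (1 + ∑ k, (1 / 2 : ℝ) ^ S.deg (e k)) * (1 - S.wt) ≤ 1 - S'.wt := by
  induction c with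
  | zero => exact fun S e _ hS _ => ⟨S, hS, FI.refl _, by simp⟩
  | succ c ih =>
    intro S e he hS h1
    have hw := wt_step S (e 0) fun _ => 0
    have hP := one_le_PP (S.deg (e 0))
    have hp : 0 < (1 / 2 : ℝ) ^ S.deg (e 0) := by positivity
    obtain ⟨S', h2, h3, h4⟩ := ih (S.step (e 0) fun _ => 0)
      (fun k => Sum.inr (⟨e k.succ, fun h => Fin.succ_ne_zero k (he h)⟩, (0 : Fin 3)))
      (fun k k' h => by
        have h := Sum.inr_injective h
        have h := congrArg (fun p => p.1.1) h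
        exact Fin.succ_injective _ (he h))
      (step_mem_FG hS fun _ h => absurd rfl h) (by nlinarith)
    refine ⟨S', h2, h3.trans (FI_step _ _ _), le_trans ?_ h4⟩
    rw [Fin.sum_univ_succ]
    change _ ≤ (1 + ∑ k : Fin c, (1 / 2 : ℝ) ^ (S.deg (e k.succ) + 0 * S.deg (e 0))) * _
    simp only [zero_mul, add_zero]
    have hs : 0 ≤ ∑ k : Fin c, (1 / 2 : ℝ) ^ S.deg (e k.succ) := sum_nonneg fun _ _ => by positivity
    set s := ∑ k : Fin c, (1 / 2 : ℝ) ^ S.deg (e k.succ)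
    have h5 : (1 + (1 / 2 : ℝ) ^ S.deg (e 0)) * (1 - S.wt) ≤
        1 - (S.step (e 0) fun _ => 0).wt := by nlinarith
    have h6 : 0 ≤ s * (1 / 2 : ℝ) ^ S.deg (e 0) * (1 - S.wt) :=
      mul_nonneg (by positivity) (by linarith)
    nlinarith

theorem rounds (X S : Fam G) (hS : ∀ i, S.el i ∈ X.FG (S.deg i)) (h1 : S.wt < 1) {ε : ℝ}
    (hε : 0 < ε) : ∃ S' : Fam G, (∀ i, S'.el i ∈ X.FG (S'.deg i)) ∧ FI S'.grp S.grp ∧ S'.wt < ε := by
  have h0 := S.wt_nonneg
  have key : ∀ s : ℕ, ∃ S' : Fam G, (∀ i, S'.el i ∈ X.FG (S'.deg i)) ∧ FI S'.grp S.grp ∧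
      S'.wt ≤ S.wt ^ (s + 1) := by
    intro s
    induction s with
    | zero => exact ⟨S, hS, FI.refl _, by simp⟩
    | succ s ih =>
      obtain ⟨S1, h2, h3, h4⟩ := ih
      have h5 : S.wt ^ (s + 1) ≤ S.wt := pow_le_of_le_one h0 h1.le (by omega)
      obtain ⟨S2, h6, h7, h8⟩ := round X _ S1 (Fintype.equivFin S1.ι).symm
        (Equiv.injective _) h2 (by linarith)
      rw [Equiv.sum_comp (Fintype.equivFin S1.ι).symm fun i => (1 / 2 : ℝ) ^ S1.deg i] at h8
      change (1 + S1.wt) * _ ≤ _ at h8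
      refine ⟨S2, h6, h7.trans h3, ?_⟩
      have h9 := S1.wt_nonneg
      rw [pow_succ]
      nlinarith
  obtain ⟨s, hs⟩ := exists_pow_lt_of_lt_one hε h1
  obtain ⟨S', h2, h3, h4⟩ := key s
  refine ⟨S', h2, h3, h4.trans_lt (lt_of_le_of_lt ?_ hs)⟩
  exact pow_le_pow_of_le_one h0 h1.le (by omega)

end Fam

theorem FI.finiteIndex {N : Subgroup G} (h : FI N ⊤) : N.FiniteIndex := by
  obtain ⟨T, hT⟩ := h
  have : Finite (G ⧸ N) := by
    refine Finite.of_surjective (fun t : T => (QuotientGroup.mk t.1⁻¹ : G ⧸ N)) fun q => ?_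
    obtain ⟨g, rfl⟩ := QuotientGroup.mk_surjective q
    obtain ⟨t, ht, h⟩ := hT g⁻¹ trivial
    exact ⟨⟨t, ht⟩, (QuotientGroup.eq.2 h).symm⟩
  exact Subgroup.finiteIndex_of_finite_quotient

theorem FI.inf {N : Subgroup G} (h : FI N ⊤) (H : Subgroup G) : FI (N ⊓ H) H := by
  classical
  obtain ⟨T, hT⟩ := h
  let u : G → G := fun t => if h : ∃ x ∈ H, x * t⁻¹ ∈ N then h.choose else 1
  refine ⟨T.image u, fun g hg => ?_⟩
  obtain ⟨t, ht, h1⟩ := hT g trivial
  have hex : ∃ x ∈ H, x * t⁻¹ ∈ N := ⟨g, hg, h1⟩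
  have h2 : u t ∈ H ∧ u t * t⁻¹ ∈ N := by
    simp only [u, dif_pos hex]; exact hex.choose_spec
  refine ⟨u t, mem_image.2 ⟨t, ht, rfl⟩, ?_, H.mul_mem hg (H.inv_mem h2.1)⟩
  have := N.mul_mem h1 (N.inv_mem h2.2)
  rwa [show g * t⁻¹ * (u t * t⁻¹)⁻¹ = g * (u t)⁻¹ by group] at this

/-- `K` carries top level data -/
def Good (F K : Subgroup G) : Prop := K.Normal ∧ ∃ X R, Fam.Top F K X R

theorem Good.kill_pow {F K : Subgroup G} (h : Good F K) {g : G} (hg : g ∈ F) :
    ∃ K', Good F K' ∧ K ≤ K' ∧ ∃ a, g ^ (3 ^ a) ∈ K' := by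
  obtain ⟨hK, X, R, h⟩ := h
  obtain ⟨ε, hε, hadd⟩ := h.add
  obtain ⟨n, hn, hlt⟩ := Fam.exists_large (1 / ε) 1
  obtain ⟨a, ha⟩ := h.odd n hg
  obtain ⟨R', h'⟩ := hadd (Fam.single _ n hn) (fun _ => ha) (by
    rw [Fam.wt_single]
    rw [one_div, inv_mul_lt_iff₀ hε] at hlt
    linarith)
  exact ⟨_, ⟨inferInstance, X, R', h'⟩, le_sup_left, a,
    Subgroup.mem_sup_right (Fam.grp_le_ncl _ ((Fam.single _ n hn).el_mem ()))⟩

theorem Good.kill_fg {F K : Subgroup G} {i : G} (hB : Base F i) (h : Good F K) (s : Finset G)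
    (hs : ∀ x ∈ s, x * i * x⁻¹ * i ∈ K) :
    ∃ K', Good F K' ∧ K ≤ K' ∧ FI K' (Subgroup.closure (s : Set G)) := by
  obtain ⟨hK, X, R, h⟩ := h
  set H0 := Subgroup.closure (s : Set G) with hH0
  have hH : ∀ x ∈ H0 ⊔ K, x * i * x⁻¹ * i ∈ K := by
    let W : Subgroup G :=
      { carrier := {x | x * i * x⁻¹ * i ∈ K}
        one_mem' := by simp [hB.sq]
        mul_mem' := fun {a b} ha hb => by
          have := K.mul_mem (hK.conj_mem _ hb a) ha
          have e : a * (b * i * b⁻¹ * i) * a⁻¹ * (a * i * a⁻¹ * i) =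
              a * b * i * b⁻¹ * (i * i) * a⁻¹ * i := by group
          rw [e, hB.sq] at this
          change a * b * i * (a * b)⁻¹ * i ∈ K
          rwa [show a * b * i * (a * b)⁻¹ * i = a * b * i * b⁻¹ * 1 * a⁻¹ * i by group]
        inv_mem' := fun {a} ha => by
          have := hK.conj_mem _ (hK.conj_mem _ ha i) a⁻¹
          have e : a⁻¹ * (i * (a * i * a⁻¹ * i) * i⁻¹) * a⁻¹⁻¹ = a⁻¹ * i * a⁻¹⁻¹ * i := by group
          rwa [e] at this }
    refine fun x hx => (show H0 ⊔ K ≤ W from sup_le ((Subgroup.closure_le _).2 hs) ?_) hx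
    intro x hx
    have := K.mul_mem hx (hK.conj_mem _ (K.inv_mem hx) i)
    have hi : i⁻¹ = i := inv_eq_of_mul_eq_one_left hB.sq
    rw [hi] at this
    change x * i * x⁻¹ * i ∈ K
    simpa only [mul_assoc] using this
  have := h.fin.finiteIndex
  have hfg : (X.grp.subgroupOf H0).FG :=
    (Group.fg_iff_subgroup_fg _).1 (Subgroup.fg_of_index_ne_zero _)
  obtain ⟨s1, hs1⟩ : ∃ s1 : Finset G, Subgroup.closure (s1 : Set G) = X.grp ⊓ H0 := by
    classical
    obtain ⟨s0, hs0⟩ := hfg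
    refine ⟨s0.image H0.subtype, ?_⟩
    rw [coe_image, ← MonoidHom.map_closure, hs0, Subgroup.subgroupOf_map_subtype]
  let S : Fam G := ⟨s1, Subtype.val, fun _ => 1, fun _ => le_rfl⟩
  have hS : S.grp = X.grp ⊓ H0 := by
    rw [← hs1, Fam.grp]
    congr 1
    exact Subtype.range_coe
  have hSt : Fam.St X K (H0 ⊔ K) 1 X R S :=
    { free := h.free
      rel := h.rel
      fg := fun m g => ⟨fun hg => ⟨hg, hg.1⟩, fun hg => hg.1⟩
      lo := Fam.FG_le_grp _
      hi := le_sup_of_le_left Fam.grp_le_FG_one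
      cov := FI.refl _
      pos := h.pos
      sdeg := fun j => Fam.grp_le_FG_one (hS ▸ S.el_mem j : S.el j ∈ X.grp ⊓ H0).1
      sn := fun _ => le_rfl
      smem := hS ▸ inf_le_left
      sle := hS ▸ le_sup_of_le_left inf_le_right
      scov := hS ▸ (h.fin.inf H0).sup }
  obtain ⟨n, -, Y, Q, S1, h1, h2, h3⟩ := h.exists_ratio hB le_sup_right hH hSt
  obtain ⟨X', R', S2, h4, h5, h6, h7⟩ := h.contract h1 h2 h3
  obtain ⟨ε, hε, hadd⟩ := h4.add
  obtain ⟨S3, h8, h9, h10⟩ := Fam.rounds X' S2 h5 h6 hε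
  obtain ⟨R'', h11⟩ := hadd S3 h8 h10
  exact ⟨_, ⟨inferInstance, X', R'', h11⟩, le_sup_left, (h9.sup.trans h7).mono
    (sup_le (le_sup_of_le_right (Fam.grp_le_ncl _)) le_sup_left) le_sup_left⟩

end Pool.Agent.Lib.MP_6cc228_al
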